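import Mathlib
import Pool.Agent.T2H23.EL.Crv

/-!
Points whose coordinates are sums of few elements of a group `G` of units of a field `F`, with
coefficients in a subfield `k` such that elements of `G` which are not proportional over `k` are
linearly independent over `k`, lie on rational curves.
-/

set_option autoImplicit false

namespace Pool.Agent.T2H23.LG.Abs

open Finset MvPolynomial Pool.Agent.T2H23.EL Pool.Agent.TH143.HE

variable {k F : Type} [Field k] [Field F] [Algebra k F]

/-- elements of `G` which are pairwise not proportional over `k` are linearly independent -/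
def Ind (k : Type) {F : Type} [Field k] [Field F] [Algebra k F] (G : Subgroup Fˣ) : Prop :=
  ∀ (m : ℕ) (u : Fin m → Fˣ), (∀ i, u i ∈ G) →
    (∀ i j, i ≠ j → ∀ c : k, (u i : F) ≠ algebraMap k F c * u j) →
    ∀ c : Fin m → k, ∑ i, algebraMap k F (c i) * (u i : F) = 0 → ∀ i, c i = 0

/-- roots of constants are constant -/
def Sat (k : Type) {F : Type} [Field k] [Field F] [Algebra k F] (G : Subgroup Fˣ) : Prop :=
  ∀ g ∈ G, ∀ m : ℤ, m ≠ 0 → (∃ c : k, ((g ^ m : Fˣ) : F) = algebraMap k F c) →
    ∃ c : k, (g : F) = algebraMap k F c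

/-- an integral linear form which vanishes on a saturated subgroup and not at given elements outside
of it -/
theorem exists_weights {ι : Type} [Fintype ι] [DecidableEq ι] (N : Submodule ℤ (ι → ℤ))
    (hN : ∀ (m : ℤ) (n : ι → ℤ), m ≠ 0 → m • n ∈ N → n ∈ N) (D : Finset (ι → ℤ))
    (hD : ∀ d ∈ D, d ∉ N) :
    ∃ l : ι → ℤ, (∀ n ∈ N, ∑ a, n a * l a = 0) ∧ ∀ d ∈ D, ∑ a, d a * l a ≠ 0 := by
  classical
  have htf : Module.IsTorsionFree ℤ ((ι → ℤ) ⧸ N) := by
    rw [Module.isTorsionFree_iff_smul_eq_zero]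
    intro m q h
    by_cases hm : m = 0
    · exact Or.inl hm
    · refine Or.inr ?_
      obtain ⟨n, rfl⟩ := N.mkQ_surjective q
      rw [← map_smul, Submodule.mkQ_apply, Submodule.Quotient.mk_eq_zero] at h
      rw [Submodule.mkQ_apply, Submodule.Quotient.mk_eq_zero]
      exact hN m n hm h
  obtain ⟨ρ, b⟩ := Module.basisOfFiniteTypeTorsionFree' (R := ℤ) (M := (ι → ℤ) ⧸ N)
  let P : (ι → ℤ) → Polynomial ℤ := fun d =>
    ∑ j : Fin ρ, Polynomial.C (b.repr (N.mkQ d) j) * Polynomial.X ^ (j : ℕ)
  have hP : ∀ d ∈ D, P d ≠ 0 := by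
    intro d hd h0
    apply hD d hd
    rw [← Submodule.Quotient.mk_eq_zero, ← Submodule.mkQ_apply]
    apply b.repr.injective
    rw [map_zero]
    ext j
    have h1 := congrArg (fun p => Polynomial.coeff p (j : ℕ)) h0
    simp only [P, Polynomial.finsetSum_coeff, Polynomial.coeff_C_mul, Polynomial.coeff_X_pow,
      Polynomial.coeff_zero] at h1
    rw [Finset.sum_eq_single j] at h1
    · simpa using h1
    · intro i _ hi
      rw [if_neg, mul_zero]
      intro h
      exact hi (Fin.ext h.symm)
    · intro h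
      exact absurd (Finset.mem_univ j) h
  obtain ⟨M, hM⟩ : ∃ M : ℤ, (∏ d ∈ D, P d).eval M ≠ 0 := by
    by_contra hcon
    push Not at hcon
    exact Finset.prod_ne_zero_iff.2 hP (Polynomial.funext fun M => by rw [hcon M, Polynomial.eval_zero])
  rw [Polynomial.eval_prod] at hM
  let f : ((ι → ℤ) ⧸ N) →ₗ[ℤ] ℤ := ∑ j : Fin ρ, M ^ (j : ℕ) • b.coord j
  have hf : ∀ n : ι → ℤ, ∑ a, n a * f (N.mkQ (Pi.single a 1)) = f (N.mkQ n) := by
    intro n
    have h1 : n = ∑ a, n a • (Pi.single a (1 : ℤ) : ι → ℤ) := by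
      funext a
      rw [Finset.sum_apply, Finset.sum_eq_single a]
      · simp
      · intro c _ hc
        simp [Pi.single_eq_of_ne hc.symm]
      · intro h
        exact absurd (Finset.mem_univ a) h
    conv_rhs => rw [h1]
    rw [map_sum, map_sum]
    refine Finset.sum_congr rfl fun a _ => ?_
    rw [map_smul, map_smul, smul_eq_mul]
  have hfP : ∀ n, f (N.mkQ n) = (P n).eval M := by
    intro n
    simp only [f, P, LinearMap.sum_apply, LinearMap.smul_apply, Module.Basis.coord_apply,
      Polynomial.eval_finsetSum, Polynomial.eval_mul, Polynomial.eval_C, Polynomial.eval_pow,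
      Polynomial.eval_X, smul_eq_mul]
    exact Finset.sum_congr rfl fun j _ => mul_comm _ _
  refine ⟨fun a => f (N.mkQ (Pi.single a 1)), fun n hn => ?_, fun d hd => ?_⟩
  · rw [hf n]
    have h1 : N.mkQ n = 0 := by
      rw [Submodule.mkQ_apply, Submodule.Quotient.mk_eq_zero]
      exact hn
    rw [h1, map_zero]
  · rw [hf d, hfP]
    exact Finset.prod_ne_zero_iff.1 hM d hd

/-- a vanishing combination of units: the parts of the different levels vanish -/
theorem levels {G : Subgroup Fˣ} (hG : Ind k G) {B : Type} [Fintype B] (V : B → Fˣ)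
    (hV : ∀ β, V β ∈ G) (lev : B → ℕ)
    (hlev : ∀ β β', (∃ c : k, (V β : F) = algebraMap k F c * V β') → lev β = lev β') (g : B → k)
    (h0 : ∑ β, algebraMap k F (g β) * (V β : F) = 0) (l : ℕ) :
    ∑ β, (if lev β = l then algebraMap k F (g β) * (V β : F) else 0) = 0 := by
  classical
  have hv0 : ∀ β, (V β : F) ≠ 0 := fun β => (V β).ne_zero
  let s : Setoid B := ⟨fun β β' => ∃ c : k, (V β : F) = algebraMap k F c * V β',
    ⟨fun β => ⟨1, by rw [map_one, one_mul]⟩,
    fun {β β'} ⟨c, hc⟩ => by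
      have hc0 : algebraMap k F c ≠ 0 := by
        intro h
        rw [h, zero_mul] at hc
        exact hv0 _ hc
      exact ⟨c⁻¹, by rw [hc, map_inv₀, inv_mul_cancel_left₀ hc0]⟩,
    fun {β β' β''} ⟨c, hc⟩ ⟨c', hc'⟩ => ⟨c * c', by rw [hc, hc', map_mul]; ring⟩⟩⟩
  let Q := Quotient s
  have hQ : Fintype Q := Quotient.fintype s
  have hrep : ∀ β : B, ∃ c : k, (V β : F) = algebraMap k F c * V (Quotient.mk s β).out := fun β =>
    (Quotient.exact (Quotient.out_eq (Quotient.mk s β)).symm : s β _)
  choose κ hκ using hrep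
  let e : Q ≃ Fin (Fintype.card Q) := Fintype.equivFin Q
  have hsum : ∀ (χ : B → k), ∑ β, algebraMap k F (χ β) * (V β : F) =
      ∑ q : Q, algebraMap k F (∑ β, if Quotient.mk s β = q then χ β * κ β else 0) *
        (V q.out : F) := by
    intro χ
    simp only [map_sum, Finset.sum_mul]
    rw [Finset.sum_comm]
    refine Finset.sum_congr rfl fun β _ => ?_
    rw [Finset.sum_eq_single (Quotient.mk s β)]
    · rw [if_pos rfl, map_mul]
      nth_rw 1 [hκ β]
      ring
    · intro q _ hq
      rw [if_neg (fun h => hq h.symm), map_zero, zero_mul]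
    · intro h
      exact absurd (Finset.mem_univ _) h
  have hind := hG (Fintype.card Q) (fun i => V (e.symm i).out) (fun i => hV _)
    (fun i j hij c hc => hij (e.symm.injective (by
      rw [← Quotient.out_eq (e.symm i), ← Quotient.out_eq (e.symm j)]
      exact Quotient.sound ⟨c, hc⟩)))
    (fun i => ∑ β, if Quotient.mk s β = e.symm i then g β * κ β else 0) (by
      rw [hsum g] at h0
      refine Eq.trans ?_ h0
      exact Equiv.sum_comp e.symm (fun q : Q =>
        algebraMap k F (∑ β, if Quotient.mk s β = q then g β * κ β else 0) * (V q.out : F)))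
  have hind' : ∀ q : Q, ∑ β, (if Quotient.mk s β = q then g β * κ β else 0) = 0 := by
    intro q
    have := hind (e q)
    rwa [Equiv.symm_apply_apply] at this
  have h3 : ∀ β, (if lev β = l then algebraMap k F (g β) * (V β : F) else 0) =
      algebraMap k F (if lev β = l then g β else 0) * (V β : F) := by
    intro β
    split_ifs <;> simp
  rw [Finset.sum_congr rfl fun β _ => h3 β, hsum _]
  refine Finset.sum_eq_zero fun q _ => ?_
  have h4 : ∑ β, (if Quotient.mk s β = q then (if lev β = l then g β else 0) * κ β else 0) =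
      if lev q.out = l then ∑ β, (if Quotient.mk s β = q then g β * κ β else 0) else 0 := by
    split_ifs with h
    · refine Finset.sum_congr rfl fun β _ => ?_
      by_cases hβ : Quotient.mk s β = q
      · have h5 : lev β = lev q.out := hlev _ _ (by
          have := hκ β
          rw [hβ] at this
          exact ⟨_, this⟩)
        rw [if_pos hβ, if_pos hβ, if_pos (h5.trans h)]
      · rw [if_neg hβ, if_neg hβ]
    · refine Finset.sum_eq_zero fun β _ => ?_
      by_cases hβ : Quotient.mk s β = q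
      · have h5 : lev β = lev q.out := hlev _ _ (by
          have := hκ β
          rw [hβ] at this
          exact ⟨_, this⟩)
        rw [if_pos hβ, if_neg (fun h6 => h (h5.symm.trans h6)), zero_mul]
      · rw [if_neg hβ]
  rw [h4, hind' q]
  simp

/-- the relations between units, modulo the constant ones -/
def rel (k : Type) [Field k] [Algebra k F] {ι : Type} [Fintype ι] (U : ι → Fˣ) :
    Submodule ℤ (ι → ℤ) where
  carrier := {n | ∃ c : k, ((∏ a, U a ^ n a : Fˣ) : F) = algebraMap k F c}
  add_mem' := by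
    rintro n m ⟨c, hc⟩ ⟨d, hd⟩
    refine ⟨c * d, ?_⟩
    simp only [Pi.add_apply, zpow_add, Finset.prod_mul_distrib, Units.val_mul, hc, hd, map_mul]
  zero_mem' := ⟨1, by simp⟩
  smul_mem' := by
    rintro m n ⟨c, hc⟩
    refine ⟨c ^ m, ?_⟩
    have h1 : (∏ a, U a ^ ((m • n) a)) = (∏ a, U a ^ n a) ^ m := by
      rw [← Finset.prod_zpow]
      refine Finset.prod_congr rfl fun a _ => ?_
      rw [Pi.smul_apply, smul_eq_mul, mul_comm, zpow_mul]
    rw [h1, Units.val_zpow_eq_zpow_val, hc, map_zpow₀]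

theorem rel_sat {G : Subgroup Fˣ} (hS : Sat k G) {ι : Type} [Fintype ι] {U : ι → Fˣ}
    (hU : ∀ a, U a ∈ G) (m : ℤ) (n : ι → ℤ) (hm : m ≠ 0) (h : m • n ∈ rel k U) : n ∈ rel k U := by
  obtain ⟨c, hc⟩ := h
  refine hS _ (G.prod_mem fun a _ => G.zpow_mem (hU a) _) m hm ⟨c, ?_⟩
  rw [← hc]
  congr 1
  rw [← Finset.prod_zpow]
  refine Finset.prod_congr rfl fun a _ => ?_
  rw [Pi.smul_apply, smul_eq_mul, mul_comm (m : ℤ), zpow_mul]

/-- nonnegative weights -/
theorem unit_weights {G : Subgroup Fˣ} (hS : Sat k G) {ι : Type} [Fintype ι] {U : ι → Fˣ}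
    (hU : ∀ a, U a ∈ G) :
    ∃ l : ι → ℕ, (∀ β β' : ι → ℕ, ∑ a, β a = ∑ a, β' a →
      (∃ c : k, ∏ a, (U a : F) ^ β a = algebraMap k F c * ∏ a, (U a : F) ^ β' a) →
      ∑ a, β a * l a = ∑ a, β' a * l a) ∧
      ∀ a b, l a = l b → ∃ c : k, (U a : F) = algebraMap k F c * U b := by
  classical
  obtain ⟨l0, h1, h2⟩ := exists_weights (rel k U) (rel_sat hS hU)
    ((Finset.univ.image fun p : ι × ι => (Pi.single p.1 (1 : ℤ) - Pi.single p.2 1 : ι → ℤ)).filter
      fun d => d ∉ rel k U) (fun d hd => (Finset.mem_filter.1 hd).2)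
  set M : ℤ := ∑ a, |l0 a| with hM
  have hM1 : ∀ a, 0 ≤ l0 a + M := by
    intro a
    have h3 : |l0 a| ≤ M := Finset.single_le_sum (f := fun a => |l0 a|) (fun _ _ => abs_nonneg _)
      (Finset.mem_univ a)
    have := neg_abs_le (l0 a)
    linarith
  have hl : ∀ a, (((l0 a + M).toNat : ℕ) : ℤ) = l0 a + M := fun a => Int.toNat_of_nonneg (hM1 a)
  refine ⟨fun a => (l0 a + M).toNat, ?_, ?_⟩
  · rintro β β' hs ⟨c, hc⟩
    have h3 : (fun a => (β a : ℤ) - β' a) ∈ rel k U := by
      refine ⟨c, ?_⟩
      simp only [zpow_sub, zpow_natCast, Finset.prod_mul_distrib, Finset.prod_inv_distrib,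
        Units.val_mul, Units.val_inv_eq_inv_val, Units.coe_prod, Units.val_pow_eq_pow_val]
      rw [hc, mul_assoc, mul_inv_cancel₀, mul_one]
      exact Finset.prod_ne_zero_iff.2 (fun a _ => pow_ne_zero _ (U a).ne_zero)
    have h4 := h1 _ h3
    have h5 : (∑ a, (β a : ℤ)) = ∑ a, (β' a : ℤ) := by exact_mod_cast hs
    zify
    simp only [hl, mul_add, Finset.sum_add_distrib, ← Finset.sum_mul]
    simp only [sub_mul, Finset.sum_sub_distrib] at h4
    rw [h5]
    linarith
  · intro a b hab
    by_contra hcon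
    have h3 : (Pi.single a (1 : ℤ) - Pi.single b 1 : ι → ℤ) ∉ rel k U := by
      rintro ⟨c, hc⟩
      apply hcon
      refine ⟨c, ?_⟩
      have h4 : ∏ i, U i ^ ((Pi.single a (1 : ℤ) - Pi.single b 1 : ι → ℤ) i) =
          U a * (U b)⁻¹ := by
        simp only [Pi.sub_apply, zpow_sub, Finset.prod_mul_distrib, Finset.prod_inv_distrib]
        congr 1
        · rw [Finset.prod_eq_single a]
          · simp
          · intro i _ hi
            rw [Pi.single_eq_of_ne hi, zpow_zero]
          · intro h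
            exact absurd (Finset.mem_univ a) h
        · congr 1
          rw [Finset.prod_eq_single b]
          · simp
          · intro i _ hi
            rw [Pi.single_eq_of_ne hi, zpow_zero]
          · intro h
            exact absurd (Finset.mem_univ b) h
      rw [h4] at hc
      rw [← hc, ← Units.val_mul, inv_mul_cancel_right]
    have h4 := h2 _ (Finset.mem_filter.2 ⟨Finset.mem_image.2 ⟨(a, b), Finset.mem_univ _, rfl⟩, h3⟩)
    apply h4
    have h5 : l0 a = l0 b := by
      have h6 : (((l0 a + M).toNat : ℕ) : ℤ) = (((l0 b + M).toNat : ℕ) : ℤ) := by exact_mod_cast hab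
      rw [hl, hl] at h6
      linarith
    simp only [Pi.sub_apply, sub_mul, Finset.sum_sub_distrib, Pi.single_apply, ite_mul, one_mul,
      zero_mul, Finset.sum_ite_eq', Finset.mem_univ, if_true]
    linarith

variable {ι : Type} [Fintype ι]

/-- a polynomial at monomials -/
theorem eval₂_mono (G : MvPolynomial ι k) (u : ι → F) (l : ι → ℕ) :
    eval₂ (Polynomial.C.comp (algebraMap k F)) (fun a => Polynomial.C (u a) * Polynomial.X ^ l a) G =
      ∑ β ∈ G.support, Polynomial.C (algebraMap k F (coeff β G) * ∏ a, u a ^ β a) *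
        Polynomial.X ^ (∑ a, β a * l a) := by
  rw [eval₂_eq']
  refine Finset.sum_congr rfl fun β _ => ?_
  simp only [mul_pow, Finset.prod_mul_distrib, map_mul, map_prod, map_pow, mul_assoc,
    RingHom.comp_apply]
  congr 2
  simp only [← pow_mul, ← Finset.prod_pow_eq_pow_sum]
  refine Finset.prod_congr rfl fun a _ => ?_
  rw [mul_comm]

theorem degree_sum {G : MvPolynomial ι k} {d : ℕ} (hG : G.IsHomogeneous d) {β : ι →₀ ℕ}
    (hβ : β ∈ G.support) : ∑ a, β a = d := by
  have h1 := hG (mem_support_iff.1 hβ)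
  rw [← h1, Finsupp.weight_apply, Finsupp.sum_fintype _ _ fun i => by simp]
  simp

/-- a form which vanishes at the units vanishes on the curve given by the weights -/
theorem form_curve {G : Subgroup Fˣ} (hG : Ind k G) (U : ι → Fˣ) (hU : ∀ a, U a ∈ G) {l : ι → ℕ}
    (hl : ∀ β β' : ι → ℕ, ∑ a, β a = ∑ a, β' a →
      (∃ c : k, ∏ a, (U a : F) ^ β a = algebraMap k F c * ∏ a, (U a : F) ^ β' a) →
      ∑ a, β a * l a = ∑ a, β' a * l a)
    {H : MvPolynomial ι k} {d : ℕ} (hH : H.IsHomogeneous d)
    (h0 : eval₂ (algebraMap k F) (fun a => (U a : F)) H = 0) :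
    eval₂ (Polynomial.C.comp (algebraMap k F))
      (fun a => Polynomial.C (U a : F) * Polynomial.X ^ l a) H = 0 := by
  classical
  have hsub : ∀ f : (ι →₀ ℕ) → F, ∑ β ∈ H.support, f β = ∑ β : H.support, f β := fun f =>
    (Finset.sum_coe_sort H.support f).symm
  have hval : ∀ (β : ι →₀ ℕ), ((∏ a, U a ^ β a : Fˣ) : F) = ∏ a, (U a : F) ^ β a := fun β => by
    simp only [Units.coe_prod, Units.val_pow_eq_pow_val]
  have key : ∀ q : ℕ, ∑ β : H.support, (if ∑ a, (β : ι →₀ ℕ) a * l a = q then
      algebraMap k F (coeff (β : ι →₀ ℕ) H) * ∏ a, (U a : F) ^ (β : ι →₀ ℕ) a else 0) = 0 := by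
    intro q
    have h1 := levels hG (fun (β : H.support) => ∏ a, U a ^ (β : ι →₀ ℕ) a)
      (fun β => G.prod_mem fun a _ => G.pow_mem (hU a) _)
      (fun β => ∑ a, (β : ι →₀ ℕ) a * l a) (fun β β' h => by
        simp only [hval] at h
        exact hl _ _ ((degree_sum hH β.2).trans (degree_sum hH β'.2).symm) h)
      (fun β => coeff (β : ι →₀ ℕ) H) (by
        simp only [hval]
        rw [← h0, eval₂_eq', hsub]) q
    simpa only [hval] using h1
  rw [eval₂_mono]
  ext q
  rw [Polynomial.finsetSum_coeff, Polynomial.coeff_zero]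
  simp only [Polynomial.coeff_C_mul, Polynomial.coeff_X_pow, mul_ite, mul_one, mul_zero]
  rw [hsub fun β => if q = ∑ a, β a * l a then algebraMap k F (coeff β H) *
    ∏ a, (U a : F) ^ β a else 0]
  refine Eq.trans ?_ (key q)
  refine Finset.sum_congr rfl fun β _ => ?_
  simp only [eq_comm]

/-- **Sums of few units lie on rational curves.** -/
theorem curve_of_sums {G : Subgroup Fˣ} (hG : Ind k G) (hS : Sat k G) {N r : ℕ}
    {K : Type} [Field K] {φ : K →+* k} {I I' : Ideal (MvPolynomial (Fin (N + 1)) K)}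
    (δ : Fin (N + 1) × Fin r → k) (U : Fin (N + 1) × Fin r → Fˣ) (hU : ∀ a, U a ∈ G)
    (x : Fin (N + 1) → F) (hx : ∀ j, x j = ∑ i, algebraMap k F (δ (j, i)) * U (j, i))
    (hI : ∀ H ∈ I, (∃ d, H.IsHomogeneous d) → eval₂ ((algebraMap k F).comp φ) x H = 0)
    (hI' : ∃ H ∈ I', (∃ d, H.IsHomogeneous d) ∧ eval₂ ((algebraMap k F).comp φ) x H ≠ 0)
    (hne : ∀ (v : Fin (N + 1) → k) (c : F), ¬ ∀ j, x j = algebraMap k F (v j) * c) :
    ∃ p, RCur ((algebraMap k F).comp φ) I I' p := by
  classical
  obtain ⟨l, hl1, hl2⟩ := unit_weights hS hU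
  let p : Fin (N + 1) → Polynomial F := fun j =>
    ∑ i, Polynomial.C (algebraMap k F (δ (j, i)) * U (j, i)) * Polynomial.X ^ l (j, i)
  -- the forms vanish on the curve
  let G' : MvPolynomial (Fin (N + 1)) K → MvPolynomial (Fin (N + 1) × Fin r) k := fun H =>
    eval₂ (C.comp φ) (fun j => ∑ i, C (δ (j, i)) * X (j, i)) H
  have hG'hom : ∀ H d, H.IsHomogeneous d → (G' H).IsHomogeneous d := by
    intro H d hH
    have h1 : ∀ j : Fin (N + 1), (∑ i : Fin r, C (δ (j, i)) * X (j, i) :
        MvPolynomial (Fin (N + 1) × Fin r) k).IsHomogeneous 1 := by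
      intro j
      refine IsHomogeneous.sum _ _ _ fun i _ => ?_
      simpa using (isHomogeneous_C (Fin (N + 1) × Fin r) (δ (j, i))).mul (isHomogeneous_X k (j, i))
    have h2 := hH.eval₂ (C.comp φ) (fun j => ∑ i : Fin r, C (δ (j, i)) * X (j, i)) (n := 1)
      (fun x => isHomogeneous_C _ _) h1
    rwa [one_mul] at h2
  have hGe : ∀ H, eval₂ (algebraMap k F) (fun a => (U a : F)) (G' H) =
      eval₂ ((algebraMap k F).comp φ) x H := by
    intro H
    have h1 := eval₂_comp_left (eval₂Hom (algebraMap k F) fun a => (U a : F)) (C.comp φ)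
      (fun j => ∑ i : Fin r, C (δ (j, i)) * X (j, i)) H
    rw [coe_eval₂Hom] at h1
    change eval₂ (algebraMap k F) _ (eval₂ (C.comp φ) _ H) = _
    rw [h1]
    congr 1
    · ext z
      simp
    · funext j
      simp only [Function.comp]
      rw [hx j, ← coe_eval₂Hom, map_sum]
      refine Finset.sum_congr rfl fun i _ => ?_
      rw [map_mul, coe_eval₂Hom, eval₂_C, eval₂_X]
  have hGp : ∀ H, eval₂ (Polynomial.C.comp (algebraMap k F))
      (fun a => Polynomial.C (U a : F) * Polynomial.X ^ l a) (G' H) =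
        eval₂ (Polynomial.C.comp ((algebraMap k F).comp φ)) p H := by
    intro H
    have h1 := eval₂_comp_left (eval₂Hom (Polynomial.C.comp (algebraMap k F))
      (fun a => Polynomial.C (U a : F) * Polynomial.X ^ l a)) (C.comp φ)
      (fun j => ∑ i : Fin r, C (δ (j, i)) * X (j, i)) H
    rw [coe_eval₂Hom] at h1
    change eval₂ (Polynomial.C.comp (algebraMap k F)) _ (eval₂ (C.comp φ) _ H) = _
    rw [h1]
    congr 1
    · ext z
      simp
    · funext j
      simp only [Function.comp, p]
      rw [← coe_eval₂Hom, map_sum]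
      refine Finset.sum_congr rfl fun i _ => ?_
      rw [map_mul, coe_eval₂Hom, eval₂_C, eval₂_X, map_mul, mul_assoc]
      rfl
  have hcurve : ∀ H ∈ I, (∃ d, H.IsHomogeneous d) →
      eval₂ (Polynomial.C.comp ((algebraMap k F).comp φ)) p H = 0 := by
    rintro H hHI ⟨d, hHd⟩
    rw [← hGp]
    exact form_curve hG U hU hl1 (hG'hom H d hHd) (by
      rw [hGe]
      exact hI H hHI ⟨d, hHd⟩)
  have heval : ∀ j, (p j).eval 1 = x j := by
    intro j
    simp only [p, Polynomial.eval_finsetSum, Polynomial.eval_mul, Polynomial.eval_C,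
      Polynomial.eval_pow, Polynomial.eval_X, one_pow, mul_one]
    exact (hx j).symm
  -- the curve is not constant
  have hcoef : ∀ q : ℕ, ∃ (v : Fin (N + 1) → k) (W : F), W ≠ 0 ∧
      ∀ j, (p j).coeff q = algebraMap k F (v j) * W := by
    intro q
    by_cases hq : ∃ b, l b = q
    · obtain ⟨b, rfl⟩ := hq
      have h1 : ∀ a, ∃ κ : k, l a = l b → (U a : F) = algebraMap k F κ * U b := by
        intro a
        by_cases h : l a = l b
        · obtain ⟨κ, hκ⟩ := hl2 a b h
          exact ⟨κ, fun _ => hκ⟩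
        · exact ⟨0, fun h' => absurd h' h⟩
      choose κ hκ using h1
      refine ⟨fun j => ∑ i, if l (j, i) = l b then δ (j, i) * κ (j, i) else 0, U b,
        (U b).ne_zero, fun j => ?_⟩
      simp only [p, Polynomial.finsetSum_coeff, Polynomial.coeff_C_mul, Polynomial.coeff_X_pow,
        map_sum, Finset.sum_mul]
      refine Finset.sum_congr rfl fun i _ => ?_
      by_cases h : l (j, i) = l b
      · rw [if_pos h.symm, if_pos h, mul_one, hκ _ h, map_mul]
        ring
      · rw [if_neg (Ne.symm h), if_neg h, mul_zero, map_zero, zero_mul]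
    · refine ⟨fun _ => 0, 1, one_ne_zero, fun j => ?_⟩
      simp only [p, Polynomial.finsetSum_coeff, Polynomial.coeff_C_mul, Polynomial.coeff_X_pow,
        map_zero, zero_mul]
      refine Finset.sum_eq_zero fun i _ => ?_
      rw [if_neg, mul_zero]
      intro h
      exact hq ⟨_, h.symm⟩
  choose v W hW hv using hcoef
  have hnc : ∃ j j' q q', v q j * v q' j' ≠ v q j' * v q' j := by
    by_contra hcon
    push Not at hcon
    obtain ⟨M, hM⟩ : ∃ M, ∀ j, (p j).natDegree < M := ⟨Finset.univ.sup (fun j => (p j).natDegree) + 1,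
      fun j => Nat.lt_succ_of_le
        (Finset.le_sup (f := fun j => (p j).natDegree) (Finset.mem_univ j))⟩
    have h1 : ∀ j, x j = ∑ q ∈ Finset.range M, algebraMap k F (v q j) * W q := by
      intro j
      rw [← heval j, Polynomial.eval_eq_sum_range' (hM j)]
      refine Finset.sum_congr rfl fun q _ => ?_
      rw [hv, one_pow, mul_one]
    by_cases hz : ∃ q j, v q j ≠ 0
    · obtain ⟨q0, j0, h0⟩ := hz
      have h0' : algebraMap k F (v q0 j0) ≠ 0 := (map_ne_zero _).2 h0
      refine hne (v q0) (x j0 / algebraMap k F (v q0 j0)) fun j => ?_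
      rw [mul_div_assoc', eq_div_iff h0', h1 j, h1 j0, Finset.sum_mul, Finset.mul_sum]
      refine Finset.sum_congr rfl fun q _ => ?_
      have h2 := congrArg (algebraMap k F) (hcon j0 j q q0)
      simp only [map_mul] at h2
      linear_combination -(W q * h2)
    · push Not at hz
      refine hne 0 0 fun j => ?_
      rw [h1 j, mul_zero]
      exact Finset.sum_eq_zero fun q _ => by rw [hz q j, map_zero, zero_mul]
  obtain ⟨j, j', q, q', hjq⟩ := hnc
  refine ⟨p, hcurve, ?_, ?_⟩
  · obtain ⟨H, hH, hHh, hne⟩ := hI'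
    refine ⟨H, hH, hHh, fun h0 => hne ?_⟩
    have h6 := congrArg (Polynomial.eval 1) h0
    rw [Polynomial.eval_zero] at h6
    rw [← h6]
    have h7 := eval₂_comp_left (Polynomial.evalRingHom (1 : F))
      (Polynomial.C.comp ((algebraMap k F).comp φ)) p H
    rw [Polynomial.coe_evalRingHom] at h7
    rw [h7]
    congr 1
    · ext z
      simp
    · funext j
      exact (heval j).symm
  · refine ⟨j, j', q, q', fun h => hjq ?_⟩
    rw [hv q j, hv q j', hv q' j, hv q' j'] at h
    apply (algebraMap k F).injective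
    apply mul_right_cancel₀ (mul_ne_zero (hW q) (hW q'))
    simp only [map_mul]
    linear_combination h

end Pool.Agent.T2H23.LG.Abs
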