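import Mathlib
import Pool.Agent.T2H23.EL.Stm

/-!
Definitions: sums of units, for entire curves and for rational points.
-/

set_option autoImplicit false

namespace Pool.Agent.T2H23.LG

open MvPolynomial Filter Pool.Agent.T2H23.EL
open scoped LinearAlgebra.Projectivization

variable {N : ℕ}

/-- The map `f` from the plane to the projective space is given (outside of a discrete set) by
homogeneous coordinates which are finite sums of entire functions without zeros. -/
def UnitCurve (f : ℂ → ℙ ℂ (Fin (N + 1) → ℂ)) : Prop :=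
  ∃ (r : ℕ) (u : Fin (N + 1) → Fin r → ℂ → ℂ),
    (∀ j i, (∀ z, u j i z = 0) ∨ (Differentiable ℂ (u j i) ∧ ∀ z, u j i z ≠ 0)) ∧
    ∀ᶠ z in codiscrete ℂ, Rep (f z) fun j => ∑ i, u j i z

/-- The points of the projective space over `L` with homogeneous coordinates each of which is a sum
of at most `r` elements of `Γ`. -/
def SumPts {L : Type} [Field L] (Γ : Subgroup Lˣ) (r : ℕ) : Set (ℙ L (Fin (N + 1) → L)) :=
  {c | ∃ u : Fin (N + 1) → Fin r → L, (∀ j i, u j i = 0 ∨ ∃ g ∈ Γ, u j i = (g : Lˣ)) ∧
    Rep c fun j => ∑ i, u j i}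

/-- The points `c` of the projective space over `L` with homogeneous coordinates
`∑_{i < r} a_{ji} u_{ji}`, where the `u_{ji}` belong to `Γ` and the `a_{ji} ∈ L` have heights at
most `H(c) ^ δ`. -/
def ShortPts {L : Type} [Field L] [NumberField L] (Γ : Subgroup Lˣ) (r : ℕ) (δ : ℝ) :
    Set (ℙ L (Fin (N + 1) → L)) :=
  {c | ∃ (a : Fin (N + 1) → Fin r → L) (u : Fin (N + 1) → Fin r → Lˣ), (∀ j i, u j i ∈ Γ) ∧
    (∀ j i, Height.mulHeight₁ (a j i) ≤ c.mulHeight ^ δ) ∧ Rep c fun j => ∑ i, a j i * u j i}

/-- The number of the points of `S` of height at most `H` is `o(log H)` for `H → ∞`. -/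
def Slow {L : Type} [Field L] [NumberField L] (S : Set (ℙ L (Fin (N + 1) → L))) : Prop :=
  ∀ ε : ℝ, 0 < ε → ∃ C : ℝ, ∀ H : ℝ, 1 ≤ H → {c ∈ S | c.mulHeight ≤ H}.Finite ∧
    ({c ∈ S | c.mulHeight ≤ H}.ncard : ℝ) ≤ ε * Real.log H + C

section

variable {K : Type} [Field K]

/-- All nonconstant entire curves in `X` given by sums of entire functions without zeros lie
in `Z`. -/
def UnitHyperbolic (σ : K →+* ℂ) (I I' : Ideal (MvPolynomial (Fin (N + 1)) K)) : Prop :=
  ∀ f, UnitCurve f → ¬ EntireCurve σ I I' f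

/-- For all finite extensions `L` of `K`, there is no nonconstant map, defined over `L`, from the
projective line to `X` whose image is not contained in `Z`. -/
def NoRational (I I' : Ideal (MvPolynomial (Fin (N + 1)) K)) : Prop :=
  ∀ (L : Type) [Field L] [NumberField L] [Algebra K L], NoLine (algebraMap K L) I I'

/-- For all finite extensions `L` of `K`, all finitely generated groups `Γ` of nonzero elements
of `L` and all `r`, only finitely many points of `X(L)` outside of `Z` have homogeneous coordinates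
which are sums of at most `r` elements of `Γ`. -/
def SumFinite (I I' : Ideal (MvPolynomial (Fin (N + 1)) K)) : Prop :=
  ∀ (L : Type) [Field L] [NumberField L] [Algebra K L] (Γ : Subgroup Lˣ), Γ.FG → ∀ r : ℕ,
    (SumPts Γ r ∩ (Pts (algebraMap K L) I \ Pts (algebraMap K L) I')).Finite

/-- For all finite extensions `L` of `K`, all finitely generated groups `Γ` of nonzero elements
of `L` and all `r`, there is `δ > 0` such that only finitely many points `c` of `X(L)` outside of `Z`
have homogeneous coordinates which are sums of `r` elements of `Γ` with coefficients of height at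
most `H(c) ^ δ`. -/
def ShortFinite (I I' : Ideal (MvPolynomial (Fin (N + 1)) K)) : Prop :=
  ∀ (L : Type) [Field L] [NumberField L] [Algebra K L] (Γ : Subgroup Lˣ), Γ.FG → ∀ r : ℕ,
    ∃ δ : ℝ, 0 < δ ∧ (ShortPts Γ r δ ∩ (Pts (algebraMap K L) I \ Pts (algebraMap K L) I')).Finite

/-- For all `L`, `Γ` and `r` the number of these points of height at most `H` is `o(log H)`. -/
def SumSlow (I I' : Ideal (MvPolynomial (Fin (N + 1)) K)) : Prop :=
  ∀ (L : Type) [Field L] [NumberField L] [Algebra K L] (Γ : Subgroup Lˣ), Γ.FG → ∀ r : ℕ,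
    Slow (SumPts Γ r ∩ (Pts (algebraMap K L) I \ Pts (algebraMap K L) I'))

/-- The case `r = 1`: the points with homogeneous coordinates in `Γ ∪ {0}`. -/
def UnitFinite (I I' : Ideal (MvPolynomial (Fin (N + 1)) K)) : Prop :=
  ∀ (L : Type) [Field L] [NumberField L] [Algebra K L] (Γ : Subgroup Lˣ), Γ.FG →
    (SumPts Γ 1 ∩ (Pts (algebraMap K L) I \ Pts (algebraMap K L) I')).Finite

/-- The case `r = 1`: the points with homogeneous coordinates in `Γ ∪ {0}`. -/
def UnitSlow (I I' : Ideal (MvPolynomial (Fin (N + 1)) K)) : Prop :=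
  ∀ (L : Type) [Field L] [NumberField L] [Algebra K L] (Γ : Subgroup Lˣ), Γ.FG →
    Slow (SumPts Γ 1 ∩ (Pts (algebraMap K L) I \ Pts (algebraMap K L) I'))

/-- For all finite extensions `L` of `K` and all `ε > 0`, the number of the points of height at
most `H` of `X(L)` outside of `Z` is `O(H ^ ε)`. -/
def SubPolynomial (I I' : Ideal (MvPolynomial (Fin (N + 1)) K)) : Prop :=
  ∀ (L : Type) [Field L] [NumberField L] [Algebra K L] (ε : ℝ), 0 < ε → ∃ C : ℝ, ∀ H : ℝ, 1 ≤ H →
    {c ∈ Pts (algebraMap K L) I \ Pts (algebraMap K L) I' | c.mulHeight ≤ H}.Finite ∧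
    ({c ∈ Pts (algebraMap K L) I \ Pts (algebraMap K L) I' | c.mulHeight ≤ H}.ncard : ℝ) ≤
      C * H ^ ε

end

end Pool.Agent.T2H23.LG
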