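import Mathlib
import Pool.Agent.T2H23.LG.Stm
import Pool.Agent.T2H23.EL.Crv

/-!
The number of the points of bounded height on rational curves.
-/

set_option autoImplicit false

namespace Pool.Agent.T2H23.LG

open Finset Filter Topology MvPolynomial Height Pool.Agent.T2H23.EL Pool.Agent.TH143.HE
open scoped LinearAlgebra.Projectivization

variable {L : Type} [Field L] [NumberField L] {N : ℕ}

theorem height_pows (t : L) (D : ℕ) :
    mulHeight (fun i : Fin (D + 1) => t ^ (i : ℕ)) ≤ mulHeight₁ t ^ D := by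
  have h1 := mulHeight_fun_prod_eq (K := L) (α := Fin D) (ι := fun _ => Fin 2)
    (x := fun _ => ![t, 1]) (fun _ h => by
      have := congrFun h 1
      simp at this)
  rw [Finset.prod_const, Finset.card_univ, Fintype.card_fin, ← mulHeight₁_eq_mulHeight] at h1
  rw [← h1]
  let f : Fin (D + 1) → (Fin D → Fin 2) := fun i a => if (a : ℕ) < i then 0 else 1
  have h2 : (fun i : Fin (D + 1) => t ^ (i : ℕ)) =
      (fun I : Fin D → Fin 2 => ∏ a, (![t, 1] : Fin 2 → L) (I a)) ∘ f := by
    funext i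
    simp only [Function.comp, f]
    have h3 : ∀ a : Fin D, (![t, 1] : Fin 2 → L) (if (a : ℕ) < i then 0 else 1) =
        if (a : ℕ) < i then t else 1 := by
      intro a
      split_ifs <;> rfl
    simp only [h3]
    rw [Finset.prod_ite, Finset.prod_const_one, mul_one, Finset.prod_const]
    congr 1
    rw [Fin.card_filter_val_lt]
    have := i.2
    omega
  rw [h2]
  exact mulHeight_comp_le _ _

theorem height_nat {n : ℕ} (hn : 0 < n) :
    mulHeight₁ (n : L) ≤ (n : ℝ) ^ totalWeight L := by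
  have h1 := mulHeight₁_sum_le (K := L) (s := Finset.range n) (Finset.nonempty_range_iff.2 hn.ne')
    (fun _ => 1)
  simpa using h1

theorem curve_height {p : Fin (N + 1) → Polynomial L} {D : ℕ} (hD : ∀ j, (p j).natDegree ≤ D) :
    ∃ C : ℝ, 1 ≤ C ∧ ∀ t, mulHeight (fun j => (p j).eval t) ≤ C * mulHeight₁ t ^ D := by
  let A : Fin (N + 1) × Fin (D + 1) → L := fun a => (p a.1).coeff a.2
  have hn : (1 : ℝ) ≤ (Nat.card (Fin (D + 1)) : ℝ) ^ totalWeight L := by
    apply one_le_pow₀
    rw [Nat.card_eq_fintype_card, Fintype.card_fin]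
    push_cast
    have : (0 : ℝ) ≤ D := Nat.cast_nonneg _
    linarith
  refine ⟨Nat.card (Fin (D + 1)) ^ totalWeight L * mulHeight A, ?_, fun t => ?_⟩
  · have h1 := one_le_mulHeight A
    nlinarith
  · have h1 := mulHeight_linearMap_apply_le A fun i : Fin (D + 1) => t ^ (i : ℕ)
    have h2 : (fun j => (p j).eval t) = fun j => ∑ i : Fin (D + 1), A (j, i) * t ^ (i : ℕ) := by
      funext j
      rw [Polynomial.eval_eq_sum_range' (Nat.lt_succ_of_le (hD j)), Finset.sum_range]
    rw [h2]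
    refine h1.trans ?_
    have h3 : 0 ≤ (Nat.card (Fin (D + 1)) : ℝ) ^ totalWeight L * mulHeight A := by
      have := mulHeight_pos A
      positivity
    exact mul_le_mul_of_nonneg_left (height_pows t D) h3

variable {K : Type} [Field K] {φ : K →+* L} {I I' : Ideal (MvPolynomial (Fin (N + 1)) K)}

omit [NumberField L] in
theorem eval_eval₂ (p : Fin (N + 1) → Polynomial L) (t : L) (G : MvPolynomial (Fin (N + 1)) K) :
    (eval₂ (Polynomial.C.comp φ) p G).eval t = eval₂ φ (fun j => (p j).eval t) G := by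
  have h7 := eval₂_comp_left (Polynomial.evalRingHom t) (Polynomial.C.comp φ) p G
  rw [Polynomial.coe_evalRingHom] at h7
  rw [h7]
  congr 1
  · ext z
    simp

/-- the points of a rational curve -/
theorem many {p : Fin (N + 1) → Polynomial L} (h : RCur φ I I' p) :
    ∃ (D : ℕ) (E : Finset L) (C : ℝ), 0 < D ∧ 1 ≤ C ∧
      (∀ t ∉ E, ∃ hne : (fun j => (p j).eval t) ≠ 0,
        Projectivization.mk L _ hne ∈ Pts φ I \ Pts φ I' ∧
        (Projectivization.mk L _ hne).mulHeight ≤ C * mulHeight₁ t ^ D) ∧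
      ∀ t ∉ E, ∃ T : Finset L, T.card ≤ D ∧ ∀ s, (∀ j k, (p j).eval s * (p k).eval t =
        (p k).eval s * (p j).eval t) → s ∈ T := by
  classical
  obtain ⟨h1, ⟨G, hG, hGh, hGne⟩, ⟨j0, k0, i, i', hnc⟩⟩ := h
  set D : ℕ := Finset.univ.sup (fun j => (p j).natDegree) + 1 with hDdef
  have hD : ∀ j, (p j).natDegree ≤ D := fun j =>
    (Finset.le_sup (f := fun j => (p j).natDegree) (Finset.mem_univ j)).trans (Nat.le_succ _)
  obtain ⟨C, hC, hht⟩ := curve_height hD
  have hp0 : ∃ j, p j ≠ 0 := by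
    by_contra hcon
    push Not at hcon
    apply hnc
    rw [hcon j0, hcon k0]
  obtain ⟨j1, hj1⟩ := hp0
  -- a nonzero minor of coefficients gives a nonconstant curve
  refine ⟨D, (p j1).roots.toFinset ∪ (eval₂ (Polynomial.C.comp φ) p G).roots.toFinset, C,
    Nat.succ_pos _, hC, fun t ht => ?_, fun t ht => ?_⟩
  · rw [Finset.notMem_union] at ht
    have ht1 : (p j1).eval t ≠ 0 := fun h0 => ht.1 (Multiset.mem_toFinset.2
      ((Polynomial.mem_roots hj1).2 h0))
    have ht2 : (eval₂ (Polynomial.C.comp φ) p G).eval t ≠ 0 := fun h0 => ht.2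
      (Multiset.mem_toFinset.2 ((Polynomial.mem_roots hGne).2 h0))
    have hne : (fun j => (p j).eval t) ≠ 0 := fun h0 => ht1 (congrFun h0 j1)
    refine ⟨hne, ⟨(mem_pts ⟨hne, rfl⟩).2 fun F hF hFh => ?_, fun h0 => ?_⟩, ?_⟩
    · rw [← eval_eval₂, h1 F hF hFh, Polynomial.eval_zero]
    · apply ht2
      rw [eval_eval₂]
      exact (mem_pts ⟨hne, rfl⟩).1 h0 G hG hGh
    · rw [Projectivization.mulHeight_mk]
      exact hht t
  · rw [Finset.notMem_union] at ht
    have ht1 : (p j1).eval t ≠ 0 := fun h0 => ht.1 (Multiset.mem_toFinset.2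
      ((Polynomial.mem_roots hj1).2 h0))
    obtain ⟨j, k, hjk⟩ : ∃ j k, p j * Polynomial.C ((p k).eval t) -
        p k * Polynomial.C ((p j).eval t) ≠ 0 := by
      by_contra hcon
      push Not at hcon
      apply hnc
      have h2 : ∀ j i, (p j).coeff i * (p j1).eval t = (p j1).coeff i * (p j).eval t := by
        intro j i
        have := congrArg (fun q => Polynomial.coeff q i) (hcon j j1)
        simp only [Polynomial.coeff_sub, Polynomial.coeff_mul_C, Polynomial.coeff_zero] at this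
        linear_combination this
      apply mul_right_cancel₀ (mul_ne_zero ht1 ht1)
      linear_combination (p k0).coeff i' * (p j1).eval t * h2 j0 i -
        (p j0).coeff i' * (p j1).eval t * h2 k0 i +
        (p j1).coeff i * (p j0).eval t * h2 k0 i' - (p j1).coeff i * (p k0).eval t * h2 j0 i'
    refine ⟨(p j * Polynomial.C ((p k).eval t) - p k * Polynomial.C ((p j).eval t)).roots.toFinset,
      ?_, fun s hs => ?_⟩
    · refine (Multiset.toFinset_card_le _).trans ((Polynomial.card_roots' _).trans ?_)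
      refine (Polynomial.natDegree_sub_le _ _).trans (max_le ?_ ?_)
      · exact (Polynomial.natDegree_mul_C_le _ _).trans (hD j)
      · exact (Polynomial.natDegree_mul_C_le _ _).trans (hD k)
    · rw [Multiset.mem_toFinset, Polynomial.mem_roots hjk, Polynomial.IsRoot.def,
        Polynomial.eval_sub, Polynomial.eval_mul, Polynomial.eval_mul, Polynomial.eval_C,
        Polynomial.eval_C, hs j k, sub_self]

/-- many points of bounded height -/
theorem count {p : Fin (N + 1) → Polynomial L} (h : RCur φ I I' p) {s : ℕ → L}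
    (hs : Function.Injective s) (S : Set (ℙ L (Fin (N + 1) → L)))
    (hS : ∀ m c, c ∈ Pts φ I \ Pts φ I' → Rep c (fun j => (p j).eval (s m)) → c ∈ S) :
    ∃ (D m0 : ℕ) (C : ℝ), 0 < D ∧ 1 ≤ C ∧ ∀ (M : ℕ) (h : ℝ), (∀ m < M, mulHeight₁ (s m) ≤ h) →
      {c ∈ S | c.mulHeight ≤ C * h ^ D}.Finite →
      (M : ℝ) ≤ D * ({c ∈ S | c.mulHeight ≤ C * h ^ D}.ncard : ℝ) + m0 := by
  classical
  obtain ⟨D, E, C, hD, hC, h1, h2⟩ := many h
  have hfin : {m : ℕ | s m ∈ E}.Finite := E.finite_toSet.preimage hs.injOn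
  obtain ⟨m0, hm0⟩ : ∃ m0 : ℕ, ∀ m, m0 ≤ m → s m ∉ E := by
    obtain ⟨b, hb⟩ := hfin.bddAbove
    refine ⟨b + 1, fun m hm hE => ?_⟩
    have := hb hE
    omega
  choose hne hX hht using fun (m : {m // m0 ≤ m}) => h1 (s m) (hm0 m m.2)
  let c : ℕ → ℙ L (Fin (N + 1) → L) := fun m => if hm : m0 ≤ m then
    Projectivization.mk L _ (hne ⟨m, hm⟩) else Projectivization.mk L _ (hne ⟨m0, le_rfl⟩)
  have hc : ∀ m (hm : m0 ≤ m), c m = Projectivization.mk L _ (hne ⟨m, hm⟩) := fun m hm =>
    dif_pos hm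
  refine ⟨D, m0, C, hD, hC, fun M h hh hF => ?_⟩
  set A : Finset ℕ := Finset.Ico m0 M with hA
  have himg : (A.image c : Set _) ⊆ {c ∈ S | c.mulHeight ≤ C * h ^ D} := by
    intro q hq
    rw [Finset.mem_coe, Finset.mem_image] at hq
    obtain ⟨m, hm, rfl⟩ := hq
    rw [hA, Finset.mem_Ico] at hm
    rw [hc m hm.1]
    refine ⟨hS m _ (hX ⟨m, hm.1⟩) ⟨hne ⟨m, hm.1⟩, rfl⟩, (hht ⟨m, hm.1⟩).trans ?_⟩
    have h3 := hh m hm.2
    have h4 : (0 : ℝ) ≤ mulHeight₁ (s m) := (mulHeight₁_pos _).le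
    exact mul_le_mul_of_nonneg_left (pow_le_pow_left₀ h4 h3 D) (by linarith)
  have h3 : (A.image c).card ≤ {c ∈ S | c.mulHeight ≤ C * h ^ D}.ncard := by
    rw [← Set.ncard_coe_finset]
    exact Set.ncard_le_ncard himg hF
  have h4 : A.card ≤ D * (A.image c).card := by
    refine Finset.card_le_mul_card_image A D fun q hq => ?_
    obtain ⟨m, hm, rfl⟩ := Finset.mem_image.1 hq
    rw [hA, Finset.mem_Ico] at hm
    obtain ⟨T, hT, hTs⟩ := h2 (s m) (hm0 m hm.1)
    refine le_trans ?_ hT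
    refine Finset.card_le_card_of_injOn s (fun x hx => ?_) hs.injOn
    rw [Finset.coe_filter, Set.mem_ofPred_eq, hA, Finset.mem_Ico] at hx
    obtain ⟨⟨hx1, -⟩, hx2⟩ := hx
    apply hTs
    rw [hc x hx1, hc m hm.1, Projectivization.mk_eq_mk_iff'] at hx2
    obtain ⟨a, ha⟩ := hx2
    intro j k
    have e1 := congrFun ha j
    have e2 := congrFun ha k
    simp only [Pi.smul_apply, smul_eq_mul] at e1 e2
    rw [← e1, ← e2]
    ring
  have h5 : (M : ℝ) ≤ (A.card : ℝ) + m0 := by
    rw [hA, Nat.card_Ico]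
    rcases le_total m0 M with h6 | h6
    · rw [Nat.cast_sub h6]
      linarith
    · have : (M : ℝ) ≤ m0 := by exact_mod_cast h6
      have h7 : (0 : ℝ) ≤ ((M - m0 : ℕ) : ℝ) := Nat.cast_nonneg _
      linarith
  have h6 : (A.card : ℝ) ≤ D * ({c ∈ S | c.mulHeight ≤ C * h ^ D}.ncard : ℝ) := by
    exact_mod_cast h4.trans (Nat.mul_le_mul_left _ h3)
  linarith

end Pool.Agent.T2H23.LG
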