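import Mathlib
import Pool.Agent.T2H23.LG.Many

/-!
Rational curves give many points.
-/

set_option autoImplicit false

namespace Pool.Agent.T2H23.LG

open Finset Filter Topology MvPolynomial Height Pool.Agent.T2H23.EL Pool.Agent.TH143.HE
open scoped LinearAlgebra.Projectivization

variable {L : Type} [Field L] [NumberField L] {N : ℕ} {K : Type} [Field K] {φ : K →+* L}
  {I I' : Ideal (MvPolynomial (Fin (N + 1)) K)}

theorem two_pow_inj : Function.Injective fun m : ℕ => (2 : L) ^ m := by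
  intro a b h
  have h' : (2 : L) ^ a = (2 : L) ^ b := h
  have h1 : ((2 ^ a : ℕ) : L) = ((2 ^ b : ℕ) : L) := by push_cast; exact h'
  exact Nat.pow_right_injective le_rfl (by exact_mod_cast h1)

/-- the points of the curve over the powers of `2` are too many for a slow set -/
theorem slow_contra {p : Fin (N + 1) → Polynomial L} (h : RCur φ I I' p)
    (S : Set (ℙ L (Fin (N + 1) → L))) (hS : ∀ m c, c ∈ Pts φ I \ Pts φ I' →
      Rep c (fun j => (p j).eval ((2 : L) ^ m)) → c ∈ S) (hslow : Slow S) : False := by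
  obtain ⟨D, m0, C, hD, hC, hcount⟩ := count h two_pow_inj S hS
  set q : ℝ := mulHeight₁ (2 : L) with hq
  have hq1 : 1 ≤ q := one_le_mulHeight₁ _
  have hlq : 0 ≤ Real.log q := Real.log_nonneg hq1
  have hD' : (0 : ℝ) < D := by exact_mod_cast hD
  have hC0 : 0 ≤ Real.log C := Real.log_nonneg hC
  set ε : ℝ := 1 / (2 * D * (D * (Real.log q + 1))) with hε
  have hε0 : 0 < ε := by positivity
  obtain ⟨B, hB⟩ := hslow ε hε0
  have key : ∀ M : ℕ, (M : ℝ) ≤ D * (ε * (Real.log C + D * (M * Real.log q)) + B) + m0 := by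
    intro M
    have hqM : 1 ≤ q ^ M := one_le_pow₀ hq1
    have hH : 1 ≤ C * (q ^ M) ^ D := by
      have := one_le_pow₀ hqM (n := D)
      nlinarith
    obtain ⟨h1, h2⟩ := hB _ hH
    have h3 := hcount M (q ^ M) (fun m hm => by
      rw [mulHeight₁_pow]
      exact pow_le_pow_right₀ hq1 hm.le) h1
    have h4 : Real.log (C * (q ^ M) ^ D) = Real.log C + D * (M * Real.log q) := by
      rw [Real.log_mul (by linarith) (by positivity), Real.log_pow, Real.log_pow]
    rw [h4] at h2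
    have := mul_le_mul_of_nonneg_left h2 hD'.le
    linarith
  have e1 : D * (ε * (D * (Real.log q + 1))) = 1 / 2 := by
    rw [hε]
    field_simp
  obtain ⟨M, hM⟩ := exists_nat_gt (2 * (D * (ε * Real.log C + B) + m0))
  have h1 := key M
  have h2 : D * (ε * (D * ((M : ℝ) * Real.log q))) ≤ M * (1 / 2) := by
    have h3 : D * (ε * (D * ((M : ℝ) * Real.log q))) ≤ D * (ε * (D * ((M : ℝ) * (Real.log q + 1)))) := by
      have : (0 : ℝ) ≤ M := Nat.cast_nonneg _
      gcongr
      linarith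
    refine h3.trans (le_of_eq ?_)
    rw [← e1]
    ring
  have h3 : (M : ℝ) ≤ D * (ε * Real.log C + B) + m0 + M * (1 / 2) := by
    calc (M : ℝ) ≤ D * (ε * (Real.log C + D * (M * Real.log q)) + B) + m0 := h1
      _ = D * (ε * Real.log C + B) + m0 + D * (ε * (D * ((M : ℝ) * Real.log q))) := by ring
      _ ≤ _ := by linarith
  linarith

/-- a rational curve has more than `O(H ^ ε)` points of height at most `H` -/
theorem poly_contra {p : Fin (N + 1) → Polynomial L} (h : RCur φ I I' p)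
    (hpol : ∀ ε : ℝ, 0 < ε → ∃ C : ℝ, ∀ H : ℝ, 1 ≤ H →
      {c ∈ Pts φ I \ Pts φ I' | c.mulHeight ≤ H}.Finite ∧
        ({c ∈ Pts φ I \ Pts φ I' | c.mulHeight ≤ H}.ncard : ℝ) ≤ C * H ^ ε) : False := by
  obtain ⟨D, m0, C, hD, hC, hcount⟩ := count h (s := fun m => ((m + 1 : ℕ) : L))
    (fun a b hab => by
      have h1 : ((a + 1 : ℕ) : L) = ((b + 1 : ℕ) : L) := hab
      have h2 : a + 1 = b + 1 := by exact_mod_cast h1
      omega) _ fun m c hc _ => hc
  set w : ℕ := totalWeight L with hw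
  have hD' : (0 : ℝ) < D := by exact_mod_cast hD
  set ε : ℝ := 1 / (2 * (D * (w + 1))) with hε
  have hε0 : 0 < ε := by positivity
  obtain ⟨B, hB⟩ := hpol ε hε0
  -- `M ≤ D B (C M ^ (w D)) ^ ε + m0`
  have key : ∀ M : ℕ, 1 ≤ M → (M : ℝ) ≤ D * (|B| * (C ^ ε * (M : ℝ) ^ (1 / 2 : ℝ))) + m0 := by
    intro M hM1
    have hM : (1 : ℝ) ≤ M := by exact_mod_cast hM1
    have hMw : (1 : ℝ) ≤ (M : ℝ) ^ w := one_le_pow₀ hM
    have hH : 1 ≤ C * ((M : ℝ) ^ w) ^ D := by
      have := one_le_pow₀ hMw (n := D)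
      nlinarith
    obtain ⟨h1, h2⟩ := hB _ hH
    have h3 := hcount M ((M : ℝ) ^ w) (fun m hm => by
      refine (height_nat (Nat.succ_pos m)).trans ?_
      exact pow_le_pow_left₀ (by positivity) (by exact_mod_cast hm) _) h1
    have h4 : (C * ((M : ℝ) ^ w) ^ D) ^ ε ≤ C ^ ε * (M : ℝ) ^ (1 / 2 : ℝ) := by
      rw [Real.mul_rpow (by linarith) (by positivity)]
      refine mul_le_mul_of_nonneg_left ?_ (Real.rpow_nonneg (by linarith) _)
      rw [← pow_mul, ← Real.rpow_natCast, ← Real.rpow_mul (by linarith)]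
      refine Real.rpow_le_rpow_of_exponent_le hM ?_
      rw [hε]
      push_cast
      rw [mul_one_div, div_le_div_iff₀ (by positivity) (by norm_num)]
      nlinarith
    have h5 : B * (C * ((M : ℝ) ^ w) ^ D) ^ ε ≤ |B| * (C ^ ε * (M : ℝ) ^ (1 / 2 : ℝ)) :=
      mul_le_mul (le_abs_self B) h4 (Real.rpow_nonneg (by linarith) _) (abs_nonneg B)
    have := mul_le_mul_of_nonneg_left (h2.trans h5) hD'.le
    linarith
  set A : ℝ := D * (|B| * C ^ ε) with hA
  have hA0 : 0 ≤ A := by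
    have : 0 ≤ C ^ ε := Real.rpow_nonneg (by linarith) _
    positivity
  obtain ⟨n, hn⟩ := exists_nat_gt (A + m0 + 1)
  have hn1 : (1 : ℝ) < n := by
    have : (0 : ℝ) ≤ m0 := Nat.cast_nonneg _
    linarith
  have h1 := key (n ^ 2) (Nat.one_le_pow _ _ (by
    have : (0 : ℝ) < n := by linarith
    exact_mod_cast this))
  have h2 : (((n ^ 2 : ℕ) : ℝ)) ^ (1 / 2 : ℝ) = n := by
    push_cast
    rw [← Real.rpow_natCast, ← Real.rpow_mul (Nat.cast_nonneg _)]
    norm_num
  rw [h2] at h1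
  push_cast at h1
  have h3 : (n : ℝ) ^ 2 ≤ A * n + m0 := by
    rw [hA]
    linarith
  have h4 : (0 : ℝ) ≤ m0 := Nat.cast_nonneg _
  nlinarith

end Pool.Agent.T2H23.LG
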