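import Mathlib
import Pool.Agent.R405.SchF
import Pool.Agent.R405.Big

/-!
Linear independence of sequences with values in a finitely generated group of units of a number
field, from the subspace theorem.
-/

set_option autoImplicit false

namespace Pool.Agent.T2H23.LG

open Finset Filter Topology NumberField IsDedekindDomain Height
open Pool.Agent.W180.OP (Pl av wt nrm le_nrm nrm_pos exists_nrm fv fv_support_finite)
open Pool.Agent.R405 (Good exists_good schF)

variable {k : Type} [Field k] [NumberField k]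

/-- `S` contains the infinite places and the places where the elements of `Γ` are not units -/
def Big (S : Finset (Pl k)) (Γ : Subgroup kˣ) : Prop :=
  (∀ w, Sum.inl w ∈ S) ∧ ∀ v, Sum.inr v ∉ S → ∀ g ∈ Γ, fv v (g : k) = 1

theorem exists_bigS {Γ : Subgroup kˣ} (h : Γ.FG) : ∃ S : Finset (Pl k), Big S Γ := by
  classical
  obtain ⟨T, hT⟩ := h
  have hfin : (⋃ g ∈ T, {v : HeightOneSpectrum (𝓞 k) | fv v ((g : kˣ) : k) ≠ 1}).Finite :=
    Set.Finite.biUnion T.finite_toSet fun g _ => fv_support_finite g.ne_zero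
  refine ⟨Finset.disjSum Finset.univ hfin.toFinset, fun w => by simp, fun v hv g hg => ?_⟩
  have hv' : ∀ g ∈ T, fv v ((g : kˣ) : k) = 1 := by
    intro g hg
    by_contra hne
    apply hv
    rw [Finset.inr_mem_disjSum, Set.Finite.mem_toFinset]
    exact Set.mem_biUnion (x := g) hg hne
  rw [← hT] at hg
  induction hg using Subgroup.closure_induction with
  | mem x hx => exact hv' x hx
  | one => simp
  | mul x y _ _ h1 h2 => rw [Units.val_mul, map_mul, h1, h2, mul_one]
  | inv x _ h1 => rw [Units.val_inv_eq_inv_val, map_inv₀, h1, inv_one]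

theorem height_eq {S : Finset (Pl k)} {Γ : Subgroup kˣ} (hS : Big S Γ) {n : ℕ} (hn : 0 < n)
    (x : Fin n → k) (hx : ∀ j, ∃ g ∈ Γ, x j = (g : kˣ)) :
    logHeight x = ∑ p ∈ S, wt p * Real.log (nrm (av p) x) := by
  classical
  have hx0 : ∀ j, x j ≠ 0 := fun j => by
    obtain ⟨g, -, hg⟩ := hx j
    rw [hg]
    exact g.ne_zero
  have hxn : x ≠ 0 := fun h => hx0 ⟨0, hn⟩ (congrFun h _)
  set g : HeightOneSpectrum (𝓞 k) → ℝ := fun v => nrm (fv v) x with hg
  have hout : ∀ v, Sum.inr v ∉ S → g v = 1 := by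
    intro v hv
    obtain ⟨j, hj⟩ := exists_nrm (fv v) hn x
    obtain ⟨u, hu, hxu⟩ := hx j
    show nrm (fv v) x = 1
    rw [← hj, hxu, hS.2 v hv u hu]
  have e : ∏ᶠ v : FinitePlace k, ⨆ i, v (x i) = ∏ᶠ v : HeightOneSpectrum (𝓞 k), g v := by
    rw [← finprod_comp_equiv (FinitePlace.equivHeightOneSpectrum (K := k)).symm]
    rfl
  have e2 : ∏ᶠ v : HeightOneSpectrum (𝓞 k), g v = ∏ v ∈ S.toRight, g v := by
    refine finprod_eq_prod_of_mulSupport_subset _ fun v hv => ?_
    rw [Finset.mem_coe, Finset.mem_toRight]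
    by_contra hc
    exact hv (hout v hc)
  have hw : ∀ w : InfinitePlace k, (⨆ i, w (x i)) = nrm w.1 x := fun w => rfl
  have hpos : ∀ f : AbsoluteValue k ℝ, 0 < nrm f x := fun f => nrm_pos f hxn
  have hl : S.toLeft = Finset.univ := by
    ext w
    simp [hS.1 w]
  rw [logHeight_eq_log_mulHeight, NumberField.mulHeight_eq hxn, e, e2,
    Real.log_mul (Finset.prod_pos fun w _ => pow_pos (by rw [hw]; exact hpos _) _).ne'
      (Finset.prod_pos fun v _ => hpos _).ne',
    Real.log_prod fun w _ => (pow_pos (by rw [hw]; exact hpos w.1) _).ne',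
    Real.log_prod fun v _ => (hpos (fv v)).ne']
  rw [← Finset.toLeft_disjSum_toRight (u := S), Finset.sum_disjSum, hl]
  simp only [Finset.toRight_disjSum]
  congr 1
  · exact Finset.sum_congr rfl fun w _ => by rw [Real.log_pow, hw]; rfl
  · exact Finset.sum_congr rfl fun v _ => (one_mul _).symm

theorem prod_eq {S : Finset (Pl k)} {Γ : Subgroup kˣ} (hS : Big S Γ) {g : kˣ} (hg : g ∈ Γ) :
    ∑ p ∈ S, wt p * Real.log (av p (g : k)) = 0 := by
  have h := height_eq hS (n := 1) one_pos (fun _ => (g : k)) fun _ => ⟨g, hg, rfl⟩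
  rw [logHeight_eq_zero_of_subsingleton] at h
  rw [h]
  refine Finset.sum_congr rfl fun p _ => ?_
  congr 2
  unfold nrm
  rw [ciSup_const]

/-- sequences of elements of `Γ` whose quotients are not constant are linearly independent -/
theorem indep {α : Type} (𝓤 : Ultrafilter α) {Γ : Subgroup kˣ} (hΓ : Γ.FG) :
    ∀ (m : ℕ) (u : Fin m → α → k), (∀ i t, ∃ g ∈ Γ, u i t = (g : kˣ)) →
      (∀ i j, i ≠ j → ∀ c : k, ¬ ∀ᶠ t in 𝓤, u i t = c * u j t) →
      ∀ c : Fin m → k, (∀ᶠ t in 𝓤, ∑ i, c i * u i t = 0) → ∀ i, c i = 0 := by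
  classical
  intro m
  induction m using Nat.strong_induction_on with
  | _ m ih =>
  intro u hu hne c hc
  have hu0 : ∀ i t, u i t ≠ 0 := fun i t => by
    obtain ⟨g, -, hg⟩ := hu i t
    rw [hg]
    exact g.ne_zero
  by_contra hcon
  push Not at hcon
  obtain ⟨i0, hi0⟩ := hcon
  -- all coefficients are nonzero
  have hall : ∀ i, c i ≠ 0 := by
    by_contra hz
    push Not at hz
    obtain ⟨i1, hi1⟩ := hz
    let A : Finset (Fin m) := Finset.univ.filter fun i => c i ≠ 0
    have hA : A.card < m := by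
      have h1 : A.card < (Finset.univ : Finset (Fin m)).card :=
        Finset.card_lt_card (Finset.ssubset_univ_iff.2 fun h => by
          have h2 : i1 ∈ A := by rw [h]; exact Finset.mem_univ _
          exact (Finset.mem_filter.1 h2).2 hi1)
      rwa [Finset.card_univ, Fintype.card_fin] at h1
    let e := A.equivFin
    have h2 := ih A.card hA (fun i => u (e.symm i)) (fun i t => hu _ t) (fun i j hij c' => hne _ _
      (fun h => hij (e.symm.injective (Subtype.ext h))) c') (fun i => c (e.symm i)) (by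
        filter_upwards [hc] with t ht
        rw [← ht]
        have h3 : ∑ i, c (e.symm i) * u (e.symm i) t = ∑ i : A, c i * u i t :=
          Equiv.sum_comp e.symm (fun i : A => c i * u i t)
        rw [h3, Finset.sum_coe_sort A (fun i => c i * u i t)]
        refine Finset.sum_subset (Finset.subset_univ A) fun i _ hi => ?_
        have h4 : c i = 0 := by
          by_contra h5
          exact hi (Finset.mem_filter.2 ⟨Finset.mem_univ _, h5⟩)
        rw [h4, zero_mul])
    have h3 := h2 (e ⟨i0, Finset.mem_filter.2 ⟨Finset.mem_univ _, hi0⟩⟩)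
    rw [Equiv.symm_apply_apply] at h3
    exact hi0 h3
  -- the number of terms
  obtain ⟨n, rfl⟩ : ∃ n, m = n + 1 := ⟨m - 1, by have := i0.2; omega⟩
  rcases Nat.lt_or_ge n 2 with hn2 | hn2
  · interval_cases n
    · obtain ⟨t, ht⟩ := hc.exists
      rw [Fin.sum_univ_one] at ht
      exact mul_ne_zero (hall 0) (hu0 0 t) ht
    · apply hne 0 1 (by decide) (-(c 1) / c 0)
      filter_upwards [hc] with t ht
      rw [Fin.sum_univ_two] at ht
      have h0 := hall 0
      field_simp
      linear_combination ht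
  -- the points
  let x : α → Fin n → k := fun t j => u j.castSucc t
  have hxΓ : ∀ t j, ∃ g ∈ Γ, x t j = (g : kˣ) := fun t j => hu _ t
  have hn0 : 0 < n := by omega
  obtain ⟨M, hfd, hgal, hi, ⟨φ⟩⟩ := Pool.Agent.R405.exists_big k
  let _ : NumberField M := ⟨⟩
  let _ : Algebra k M := φ.toAlgebra
  obtain ⟨S, hS⟩ := exists_bigS hΓ
  choose f hf using fun v : Pl k => exists_good (K := M) v
  -- the heights tend to infinity
  have hN : Tendsto (fun t => logHeight (x t)) 𝓤 atTop := by
    rw [tendsto_atTop]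
    intro B
    by_contra hB
    rw [← Ultrafilter.eventually_not] at hB
    have hfin : {y : k | logHeight₁ y ≤ B}.Finite := by
      exact NumberField.finite_setOfPred_logHeight₁_le k B
    have h1 : ∀ᶠ t in 𝓤, ∃ y ∈ {y : k | logHeight₁ y ≤ B}, x t ⟨0, by omega⟩ = y * x t ⟨1, by omega⟩ := by
      filter_upwards [hB] with t ht
      push Not at ht
      refine ⟨x t ⟨0, by omega⟩ / x t ⟨1, by omega⟩, ?_, ?_⟩
      · show logHeight₁ _ ≤ B
        rw [logHeight₁_div_eq_logHeight]
        have h2 : ![x t ⟨0, by omega⟩, x t ⟨1, by omega⟩] = x t ∘ ![⟨0, by omega⟩, ⟨1, by omega⟩] := by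
          funext i
          fin_cases i <;> rfl
        rw [h2]
        exact (logHeight_comp_le _ _).trans ht.le
      · rw [div_mul_cancel₀]
        exact hu0 _ _
    rw [Ultrafilter.eventually_exists_mem_iff hfin] at h1
    obtain ⟨y, -, hy⟩ := h1
    refine hne (⟨0, by omega⟩ : Fin n).castSucc (⟨1, by omega⟩ : Fin n).castSucc ?_ y hy
    intro h
    simp [Fin.ext_iff] at h
  -- no linear relations
  have hind : ∀ d : Fin n → M, d ≠ 0 → ∀ᶠ t in 𝓤, ∑ j, d j * algebraMap k M (x t j) ≠ 0 := by
    intro d hd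
    obtain ⟨j0, hj0⟩ := Function.ne_iff.1 hd
    change ∀ᶠ t in 𝓤, ¬ ∑ j, d j * algebraMap k M (x t j) = 0
    rw [Ultrafilter.eventually_not]
    intro h0
    obtain ⟨l, hl⟩ := Module.Projective.exists_dual_ne_zero k (V := M) (x := d j0) hj0
    apply hl
    refine ih n (Nat.lt_succ_self n) (fun j t => x t j) (fun j t => hxΓ t j)
      (fun i j hij c' => hne _ _ (fun h => hij (Fin.castSucc_injective n h)) c')
      (fun j => l (d j)) ?_ j0
    filter_upwards [h0] with t ht
    have h1 := congrArg l ht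
    rw [map_sum, map_zero] at h1
    rw [← h1]
    refine Finset.sum_congr rfl fun j _ => ?_
    rw [mul_comm (d j), ← Algebra.smul_def, map_smul, smul_eq_mul, mul_comm]
  -- the largest coordinates
  have hmax : ∀ v : Pl k, ∃ a : Fin n, ∀ᶠ t in 𝓤, av v (x t a) = nrm (av v) (x t) := by
    intro v
    rw [← Ultrafilter.eventually_exists_iff]
    exact Eventually.of_forall fun t => exists_nrm (av v) hn0 (x t)
  choose a ha using hmax
  let cl : k := c (Fin.last n)
  let B : Pl k → Fin n → Fin n → M := fun v b j =>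
    if b = a v then algebraMap k M (c j.castSucc) else if b = j then 1 else 0
  have hB : ∀ v b t, b ≠ a v → ∑ j, B v b j * algebraMap k M (x t j) = algebraMap k M (x t b) := by
    intro v b t hb
    rw [Finset.sum_eq_single b]
    · simp only [B, if_neg hb, if_true, one_mul]
    · intro j _ hj
      simp only [B, if_neg hb, if_neg hj.symm, zero_mul]
    · intro h
      exact absurd (Finset.mem_univ b) h
  have hBa : ∀ v t, ∑ i, c i * u i t = 0 → ∑ j, B v (a v) j * algebraMap k M (x t j) =
      algebraMap k M (-(cl * u (Fin.last n) t)) := by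
    intro v t ht
    rw [Fin.sum_univ_castSucc] at ht
    have h1 : -(cl * u (Fin.last n) t) = ∑ j : Fin n, c j.castSucc * x t j := by
      linear_combination -ht
    rw [h1, map_sum]
    refine Finset.sum_congr rfl fun j _ => ?_
    simp only [B, if_true]
    rw [map_mul]
  have hdet : ∀ v ∈ S, (Matrix.of (B v)).det ≠ 0 := by
    intro v _ h0
    obtain ⟨y, hy0, hy⟩ := Matrix.exists_mulVec_eq_zero_iff.2 h0
    apply hy0
    have h1 : ∀ b, ∑ j, B v b j * y j = 0 := fun b => congrFun hy b
    have h2 : ∀ b, b ≠ a v → y b = 0 := by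
      intro b hb
      have h3 := h1 b
      rw [Finset.sum_eq_single b] at h3
      · simpa only [B, if_neg hb, if_true, one_mul] using h3
      · intro j _ hj
        simp only [B, if_neg hb, if_neg hj.symm, zero_mul]
      · intro h
        exact absurd (Finset.mem_univ b) h
    funext b
    by_cases hb : b = a v
    · subst hb
      have h3 := h1 (a v)
      rw [Finset.sum_eq_single (a v)] at h3
      · simp only [B, if_true] at h3
        exact (mul_eq_zero.1 h3).resolve_left ((map_ne_zero _).2 (hall _))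
      · intro j _ hj
        rw [h2 j hj, mul_zero]
      · intro h
        exact absurd (Finset.mem_univ (a v)) h
    · exact h2 b hb
  have hsch := schF hi (𝓤 : Filter α) hn0 S f (fun v _ => hf v) B hdet x hN hind (1 / 2) (by norm_num)
  have hamax : ∀ᶠ t in 𝓤, ∀ v ∈ S, av v (x t (a v)) = nrm (av v) (x t) :=
    (Filter.eventually_all_finset S).2 fun v _ => ha v
  set C : ℝ := ∑ v ∈ S, wt v * Real.log (av v cl) with hC
  have hbig := hN.eventually_gt_atTop (2 * C)
  obtain ⟨t, h1, h2, h3, h4⟩ := (hsch.and (hamax.and (hbig.and hc))).exists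
  have hxt : ∀ j, x t j ≠ 0 := fun j => hu0 _ t
  have key : ∀ v ∈ S, ∑ b, (Real.log (nrm (av v) (x t)) -
      Real.log (f v (∑ j, B v b j * algebraMap k M (x t j)))) =
        (n + 1) * Real.log (nrm (av v) (x t)) - ∑ b, Real.log (av v (x t b)) -
          Real.log (av v cl) - Real.log (av v (u (Fin.last n) t)) := by
    intro v hv
    have e1 : ∀ b, Real.log (f v (∑ j, B v b j * algebraMap k M (x t j))) =
        Real.log (av v (x t b)) + if b = a v then (Real.log (av v cl) +
          Real.log (av v (u (Fin.last n) t)) - Real.log (nrm (av v) (x t))) else 0 := by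
      intro b
      by_cases hb : b = a v
      · subst hb
        rw [hBa v t h4, (hf v).ext, AbsoluteValue.map_neg, map_mul, Real.log_mul
          ((AbsoluteValue.ne_zero_iff _).2 (hall _)) ((AbsoluteValue.ne_zero_iff _).2 (hu0 _ t)),
          if_pos rfl, h2 v hv]
        ring
      · rw [hB v b t hb, (hf v).ext, if_neg hb, add_zero]
    rw [Finset.sum_sub_distrib, Finset.sum_congr rfl fun b _ => e1 b, Finset.sum_add_distrib,
      Finset.sum_ite_eq' Finset.univ (a v), if_pos (Finset.mem_univ _), Finset.sum_const,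
      Finset.card_univ, Fintype.card_fin, nsmul_eq_mul]
    ring
  rw [Finset.sum_congr rfl fun v hv => by rw [key v hv]] at h1
  have hh := height_eq hS hn0 (x t) (hxΓ t)
  have e2 : ∑ v ∈ S, wt v * ((n + 1) * Real.log (nrm (av v) (x t)) -
      ∑ b, Real.log (av v (x t b)) - Real.log (av v cl) - Real.log (av v (u (Fin.last n) t))) =
        (n + 1) * logHeight (x t) - C := by
    have e3 : ∀ v, wt v * ((n + 1) * Real.log (nrm (av v) (x t)) -
        ∑ b, Real.log (av v (x t b)) - Real.log (av v cl) - Real.log (av v (u (Fin.last n) t))) =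
        (n + 1) * (wt v * Real.log (nrm (av v) (x t))) - ∑ b, wt v * Real.log (av v (x t b)) -
          wt v * Real.log (av v cl) - wt v * Real.log (av v (u (Fin.last n) t)) := by
      intro v
      rw [← Finset.mul_sum]
      ring
    rw [Finset.sum_congr rfl fun v _ => e3 v, Finset.sum_sub_distrib, Finset.sum_sub_distrib,
      Finset.sum_sub_distrib, ← Finset.mul_sum, ← hh, Finset.sum_comm]
    have e4 : ∑ b : Fin n, ∑ v ∈ S, wt v * Real.log (av v (x t b)) = 0 := by
      refine Finset.sum_eq_zero fun b _ => ?_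
      obtain ⟨g, hg, hxg⟩ := hxΓ t b
      rw [hxg]
      exact prod_eq hS hg
    have e5 : ∑ v ∈ S, wt v * Real.log (av v (u (Fin.last n) t)) = 0 := by
      obtain ⟨g, hg, hxg⟩ := hu (Fin.last n) t
      rw [hxg]
      exact prod_eq hS hg
    rw [e4, e5, ← hC]
    ring
  rw [e2] at h1
  linarith

/-- the functions in the group `𝒢` with values in the units of a field are linearly independent
along the ultrafilter `𝓤` if they are pairwise not proportional -/
def Ind {k : Type} [Field k] {α : Type} (𝓤 : Ultrafilter α) (𝒢 : Subgroup (α → kˣ)) : Prop :=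
  ∀ (m : ℕ) (u : Fin m → α → kˣ), (∀ i, u i ∈ 𝒢) →
    (∀ i j, i ≠ j → ∀ c : k, ¬ ∀ᶠ t in 𝓤, (u i t : k) = c * u j t) →
    ∀ c : Fin m → k, (∀ᶠ t in 𝓤, ∑ i, c i * (u i t : k) = 0) → ∀ i, c i = 0

/-- the sequences with values in `Γ` -/
def seqG {k : Type} [Field k] (α : Type) (Γ : Subgroup kˣ) : Subgroup (α → kˣ) where
  carrier := {u | ∀ t, u t ∈ Γ}
  mul_mem' := fun h1 h2 t => Γ.mul_mem (h1 t) (h2 t)
  one_mem' := fun _ => Γ.one_mem
  inv_mem' := fun h t => Γ.inv_mem (h t)

theorem ind_seq {α : Type} (𝓤 : Ultrafilter α) {Γ : Subgroup kˣ} (hΓ : Γ.FG) :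
    Ind 𝓤 (seqG α Γ) := fun m u hu hne c hc =>
  indep 𝓤 hΓ m (fun i t => (u i t : k)) (fun i t => ⟨u i t, hu i t, rfl⟩) hne c hc

end Pool.Agent.T2H23.LG
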