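import Mathlib
import Pool.Agent.T2H23.LG.Unit

/-!
Weights compatible with the multiplicative relations between sequences of units.
-/

set_option autoImplicit false

namespace Pool.Agent.T2H23.LG

open Finset Filter Topology

/-- an integral linear form which vanishes on a saturated subgroup and not at given elements outside
of it -/
theorem exists_weights {ι : Type} [Fintype ι] [DecidableEq ι] (N : Submodule ℤ (ι → ℤ))
    (hN : ∀ (m : ℤ) (n : ι → ℤ), m ≠ 0 → m • n ∈ N → n ∈ N) (D : Finset (ι → ℤ))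
    (hD : ∀ d ∈ D, d ∉ N) :
    ∃ l : ι → ℤ, (∀ n ∈ N, ∑ a, n a * l a = 0) ∧ ∀ d ∈ D, ∑ a, d a * l a ≠ 0 := by
  classical
  have htf : Module.IsTorsionFree ℤ ((ι → ℤ) ⧸ N) := by
    rw [Module.isTorsionFree_iff_smul_eq_zero]
    intro m q h
    by_cases hm : m = 0
    · exact Or.inl hm
    · refine Or.inr ?_
      obtain ⟨n, rfl⟩ := N.mkQ_surjective q
      rw [← map_smul, Submodule.mkQ_apply, Submodule.Quotient.mk_eq_zero] at h
      rw [Submodule.mkQ_apply, Submodule.Quotient.mk_eq_zero]
      exact hN m n hm h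
  obtain ⟨ρ, b⟩ := Module.basisOfFiniteTypeTorsionFree' (R := ℤ) (M := (ι → ℤ) ⧸ N)
  let P : (ι → ℤ) → Polynomial ℤ := fun d =>
    ∑ j : Fin ρ, Polynomial.C (b.repr (N.mkQ d) j) * Polynomial.X ^ (j : ℕ)
  have hP : ∀ d ∈ D, P d ≠ 0 := by
    intro d hd h0
    apply hD d hd
    rw [← Submodule.Quotient.mk_eq_zero, ← Submodule.mkQ_apply]
    apply b.repr.injective
    rw [map_zero]
    ext j
    have h1 := congrArg (fun p => Polynomial.coeff p (j : ℕ)) h0
    simp only [P, Polynomial.finsetSum_coeff, Polynomial.coeff_C_mul, Polynomial.coeff_X_pow,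
      Polynomial.coeff_zero] at h1
    rw [Finset.sum_eq_single j] at h1
    · simpa using h1
    · intro i _ hi
      rw [if_neg, mul_zero]
      intro h
      exact hi (Fin.ext h.symm)
    · intro h
      exact absurd (Finset.mem_univ j) h
  obtain ⟨M, hM⟩ : ∃ M : ℤ, (∏ d ∈ D, P d).eval M ≠ 0 := by
    by_contra hcon
    push Not at hcon
    exact Finset.prod_ne_zero_iff.2 hP (Polynomial.funext fun M => by rw [hcon M, Polynomial.eval_zero])
  rw [Polynomial.eval_prod] at hM
  let f : ((ι → ℤ) ⧸ N) →ₗ[ℤ] ℤ := ∑ j : Fin ρ, M ^ (j : ℕ) • b.coord j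
  have hf : ∀ n : ι → ℤ, ∑ a, n a * f (N.mkQ (Pi.single a 1)) = f (N.mkQ n) := by
    intro n
    have h1 : n = ∑ a, n a • (Pi.single a (1 : ℤ) : ι → ℤ) := by
      funext a
      rw [Finset.sum_apply, Finset.sum_eq_single a]
      · simp
      · intro c _ hc
        simp [Pi.single_eq_of_ne hc.symm]
      · intro h
        exact absurd (Finset.mem_univ a) h
    conv_rhs => rw [h1]
    rw [map_sum, map_sum]
    refine Finset.sum_congr rfl fun a _ => ?_
    rw [map_smul, map_smul, smul_eq_mul]
  have hfP : ∀ n, f (N.mkQ n) = (P n).eval M := by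
    intro n
    simp only [f, P, LinearMap.sum_apply, LinearMap.smul_apply, Module.Basis.coord_apply,
      Polynomial.eval_finsetSum, Polynomial.eval_mul, Polynomial.eval_C, Polynomial.eval_pow,
      Polynomial.eval_X, smul_eq_mul]
    exact Finset.sum_congr rfl fun j _ => mul_comm _ _
  refine ⟨fun a => f (N.mkQ (Pi.single a 1)), fun n hn => ?_, fun d hd => ?_⟩
  · rw [hf n]
    have h1 : N.mkQ n = 0 := by
      rw [Submodule.mkQ_apply, Submodule.Quotient.mk_eq_zero]
      exact hn
    rw [h1, map_zero]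
  · rw [hf d, hfP]
    exact Finset.prod_ne_zero_iff.1 hM d hd

variable {k : Type} [Field k]

/-- a vanishing combination of sequences of units: the parts of the different levels vanish -/
theorem levels {α : Type} (𝓤 : Ultrafilter α) {𝒢 : Subgroup (α → kˣ)} (hΓ : Ind 𝓤 𝒢) {B : Type}
    [Fintype B] (V : B → α → kˣ) (hV : ∀ β, V β ∈ 𝒢) (lev : B → ℕ)
    (hlev : ∀ β β', (∃ c : k, ∀ᶠ t in 𝓤, (V β t : k) = c * V β' t) → lev β = lev β') (g : B → k)
    (h0 : ∀ᶠ t in 𝓤, ∑ β, g β * (V β t : k) = 0) (l : ℕ) :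
    ∀ᶠ t in 𝓤, ∑ β, (if lev β = l then g β * (V β t : k) else 0) = 0 := by
  classical
  let v : B → α → k := fun β t => V β t
  change ∀ β β', (∃ c : k, ∀ᶠ t in 𝓤, v β t = c * v β' t) → lev β = lev β' at hlev
  change ∀ᶠ t in 𝓤, ∑ β, g β * v β t = 0 at h0
  change ∀ᶠ t in 𝓤, ∑ β, (if lev β = l then g β * v β t else 0) = 0
  have hv0 : ∀ β t, v β t ≠ 0 := fun β t => (V β t).ne_zero
  let s : Setoid B := ⟨fun β β' => ∃ c : k, ∀ᶠ t in 𝓤, v β t = c * v β' t,
    ⟨fun β => ⟨1, Eventually.of_forall fun t => (one_mul _).symm⟩,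
    fun {β β'} ⟨c, hc⟩ => by
      have hc0 : c ≠ 0 := by
        rintro rfl
        obtain ⟨t, ht⟩ := hc.exists
        rw [zero_mul] at ht
        exact hv0 _ _ ht
      refine ⟨c⁻¹, ?_⟩
      filter_upwards [hc] with t ht
      rw [ht, inv_mul_cancel_left₀ hc0],
    fun {β β' β''} ⟨c, hc⟩ ⟨c', hc'⟩ => ⟨c * c', by
      filter_upwards [hc, hc'] with t ht ht'
      rw [ht, ht']
      ring⟩⟩⟩
  let Q := Quotient s
  have hQ : Fintype Q := Quotient.fintype s
  have hrep : ∀ β : B, ∃ c : k, ∀ᶠ t in 𝓤, v β t = c * v (Quotient.mk s β).out t := fun β =>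
    (Quotient.exact (Quotient.out_eq (Quotient.mk s β)).symm : s β _)
  choose κ hκ using hrep
  have hall : ∀ᶠ t in 𝓤, ∀ β, v β t = κ β * v (Quotient.mk s β).out t :=
    eventually_all.2 hκ
  let e : Q ≃ Fin (Fintype.card Q) := Fintype.equivFin Q
  have hsum : ∀ (χ : B → k) (t : α), (∀ β, v β t = κ β * v (Quotient.mk s β).out t) →
      ∑ β, χ β * v β t = ∑ q : Q, (∑ β, if Quotient.mk s β = q then χ β * κ β else 0) *
        v q.out t := by
    intro χ t ht
    simp only [Finset.sum_mul]
    rw [Finset.sum_comm]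
    refine Finset.sum_congr rfl fun β _ => ?_
    rw [Finset.sum_eq_single (Quotient.mk s β)]
    · rw [if_pos rfl]
      nth_rw 1 [ht β]
      ring
    · intro q _ hq
      rw [if_neg (fun h => hq h.symm), zero_mul]
    · intro h
      exact absurd (Finset.mem_univ _) h
  have hind := hΓ (Fintype.card Q) (fun i => V (e.symm i).out) (fun i => hV _)
    (fun i j hij c hc => hij (e.symm.injective (by
      rw [← Quotient.out_eq (e.symm i), ← Quotient.out_eq (e.symm j)]
      exact Quotient.sound ⟨c, hc⟩)))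
    (fun i => ∑ β, if Quotient.mk s β = e.symm i then g β * κ β else 0) (by
      filter_upwards [h0, hall] with t h1 h2
      rw [hsum g t h2] at h1
      refine Eq.trans ?_ h1
      exact Equiv.sum_comp e.symm (fun q : Q =>
        (∑ β, if Quotient.mk s β = q then g β * κ β else 0) * v q.out t))
  have hind' : ∀ q : Q, ∑ β, (if Quotient.mk s β = q then g β * κ β else 0) = 0 := by
    intro q
    have := hind (e q)
    rwa [Equiv.symm_apply_apply] at this
  filter_upwards [hall] with t ht
  have h3 : ∀ β, (if lev β = l then g β * v β t else 0) =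
      (if lev β = l then g β else 0) * v β t := by
    intro β
    split_ifs <;> simp
  rw [Finset.sum_congr rfl fun β _ => h3 β, hsum _ t ht]
  refine Finset.sum_eq_zero fun q _ => ?_
  have h4 : ∑ β, (if Quotient.mk s β = q then (if lev β = l then g β else 0) * κ β else 0) =
      if lev q.out = l then ∑ β, (if Quotient.mk s β = q then g β * κ β else 0) else 0 := by
    split_ifs with h
    · refine Finset.sum_congr rfl fun β _ => ?_
      by_cases hβ : Quotient.mk s β = q
      · have h5 : lev β = lev q.out := hlev _ _ (by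
          have := hκ β
          rw [hβ] at this
          exact ⟨_, this⟩)
        rw [if_pos hβ, if_pos hβ, if_pos (h5.trans h)]
      · rw [if_neg hβ, if_neg hβ]
    · refine Finset.sum_eq_zero fun β _ => ?_
      by_cases hβ : Quotient.mk s β = q
      · have h5 : lev β = lev q.out := hlev _ _ (by
          have := hκ β
          rw [hβ] at this
          exact ⟨_, this⟩)
        rw [if_pos hβ, if_neg (fun h6 => h (h5.symm.trans h6)), zero_mul]
      · rw [if_neg hβ]
  rw [h4, hind' q]
  simp

end Pool.Agent.T2H23.LG
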