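import Mathlib
import Pool.Agent.T2H23.LG.Wts
import Pool.Agent.T2H23.EL.Crv

/-!
Points whose coordinates are sums of few elements of a finitely generated group lie on rational
curves.
-/

set_option autoImplicit false

namespace Pool.Agent.T2H23.LG

open Finset Filter Topology MvPolynomial Pool.Agent.T2H23.EL Pool.Agent.TH143.HE
open scoped LinearAlgebra.Projectivization

variable {k : Type} [Field k]

/-- the relations between sequences of units, modulo the constant ones -/
def rel {α ι : Type} [Fintype ι] (𝓤 : Ultrafilter α) (U : ι → α → kˣ) : Submodule ℤ (ι → ℤ) where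
  carrier := {n | ∃ c : kˣ, ∀ᶠ t in 𝓤, ∏ a, U a t ^ n a = c}
  add_mem' := by
    rintro n m ⟨c, hc⟩ ⟨d, hd⟩
    refine ⟨c * d, ?_⟩
    filter_upwards [hc, hd] with t h1 h2
    simp only [Pi.add_apply, zpow_add, Finset.prod_mul_distrib, h1, h2]
  zero_mem' := ⟨1, Eventually.of_forall fun t => by simp⟩
  smul_mem' := by
    rintro m n ⟨c, hc⟩
    refine ⟨c ^ m, ?_⟩
    filter_upwards [hc] with t h1
    simp only [Pi.smul_apply, smul_eq_mul]
    rw [← h1, ← Finset.prod_zpow]
    refine Finset.prod_congr rfl fun a _ => ?_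
    rw [mul_comm, zpow_mul]

theorem finite_pow_eq (m : ℤ) (hm : m ≠ 0) (c : kˣ) : {y : kˣ | y ^ m = c}.Finite := by
  classical
  have hfin : ∀ (q : ℕ) (_ : 0 < q) (d : kˣ), {y : kˣ | y ^ q = d}.Finite := by
    intro q hq d
    have h1 : {y : k | y ^ q = (d : k)}.Finite := by
      refine (((Polynomial.X ^ q - Polynomial.C (d : k)).roots.toFinset).finite_toSet).subset ?_
      intro y hy
      rw [Finset.mem_coe, Multiset.mem_toFinset, Polynomial.mem_roots
        (Polynomial.X_pow_sub_C_ne_zero hq _), Polynomial.IsRoot.def, Polynomial.eval_sub,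
        Polynomial.eval_pow, Polynomial.eval_X, Polynomial.eval_C, sub_eq_zero]
      exact hy
    refine Set.Finite.of_finite_image (f := fun y : kˣ => (y : k)) (h1.subset ?_)
      (Units.val_injective.injOn)
    rintro _ ⟨y, hy, rfl⟩
    show (y : k) ^ q = (d : k)
    rw [← Units.val_pow_eq_pow_val]
    exact congrArg Units.val hy
  rcases Int.lt_or_gt_of_ne hm with h | h
  · refine (hfin m.natAbs (by omega) c⁻¹).subset fun y hy => ?_
    have h1 : (m.natAbs : ℤ) = -m := by omega
    show y ^ m.natAbs = c⁻¹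
    rw [← zpow_natCast, h1, zpow_neg]
    exact congrArg _ hy
  · refine (hfin m.natAbs (by omega) c).subset fun y hy => ?_
    have h1 : (m.natAbs : ℤ) = m := by omega
    show y ^ m.natAbs = c
    rw [← zpow_natCast, h1]
    exact hy

theorem rel_sat {α ι : Type} [Fintype ι] (𝓤 : Ultrafilter α) (U : ι → α → kˣ) (m : ℤ)
    (n : ι → ℤ) (hm : m ≠ 0) (h : m • n ∈ rel 𝓤 U) : n ∈ rel 𝓤 U := by
  obtain ⟨c, hc⟩ := h
  have h1 : ∀ᶠ t in 𝓤, ∃ y ∈ {y : kˣ | y ^ m = c}, ∏ a, U a t ^ n a = y := by
    filter_upwards [hc] with t ht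
    refine ⟨_, ?_, rfl⟩
    show (∏ a, U a t ^ n a) ^ m = c
    rw [← ht, ← Finset.prod_zpow]
    refine Finset.prod_congr rfl fun a _ => ?_
    rw [Pi.smul_apply, smul_eq_mul, mul_comm, zpow_mul]
  rw [Ultrafilter.eventually_exists_mem_iff (finite_pow_eq m hm c)] at h1
  obtain ⟨y, -, hy⟩ := h1
  exact ⟨y, hy⟩

/-- nonnegative weights for sequences of units -/
theorem unit_weights {α ι : Type} [Fintype ι] (𝓤 : Ultrafilter α) (U : ι → α → kˣ) :
    ∃ l : ι → ℕ, (∀ β β' : ι → ℕ, ∑ a, β a = ∑ a, β' a →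
      (∃ c : k, ∀ᶠ t in 𝓤, ∏ a, (U a t : k) ^ β a = c * ∏ a, (U a t : k) ^ β' a) →
      ∑ a, β a * l a = ∑ a, β' a * l a) ∧
      ∀ a b, l a = l b → ∃ c : k, ∀ᶠ t in 𝓤, (U a t : k) = c * U b t := by
  classical
  obtain ⟨l0, h1, h2⟩ := exists_weights (rel 𝓤 U) (rel_sat 𝓤 U)
    ((Finset.univ.image fun p : ι × ι => (Pi.single p.1 (1 : ℤ) - Pi.single p.2 1 : ι → ℤ)).filter
      fun d => d ∉ rel 𝓤 U) (fun d hd => (Finset.mem_filter.1 hd).2)
  set M : ℤ := ∑ a, |l0 a| with hM
  have hM1 : ∀ a, 0 ≤ l0 a + M := by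
    intro a
    have h3 : |l0 a| ≤ M := Finset.single_le_sum (f := fun a => |l0 a|) (fun _ _ => abs_nonneg _)
      (Finset.mem_univ a)
    have := neg_abs_le (l0 a)
    linarith
  have hl : ∀ a, (((l0 a + M).toNat : ℕ) : ℤ) = l0 a + M := fun a => Int.toNat_of_nonneg (hM1 a)
  refine ⟨fun a => (l0 a + M).toNat, ?_, ?_⟩
  · rintro β β' hs ⟨c, hc⟩
    have hc0 : c ≠ 0 := by
      rintro rfl
      obtain ⟨t, ht⟩ := hc.exists
      rw [zero_mul] at ht
      exact Finset.prod_ne_zero_iff.2 (fun a _ => pow_ne_zero _ (U a t).ne_zero) ht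
    have h3 : (fun a => (β a : ℤ) - β' a) ∈ rel 𝓤 U := by
      refine ⟨Units.mk0 c hc0, ?_⟩
      filter_upwards [hc] with t ht
      apply Units.ext
      simp only [zpow_sub, zpow_natCast, Finset.prod_mul_distrib, Finset.prod_inv_distrib,
        Units.val_mul, Units.val_mk0, Units.val_inv_eq_inv_val, Units.coe_prod,
        Units.val_pow_eq_pow_val]
      rw [ht, mul_assoc, mul_inv_cancel₀, mul_one]
      exact Finset.prod_ne_zero_iff.2 (fun a _ => pow_ne_zero _ (U a t).ne_zero)
    have h4 := h1 _ h3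
    have h5 : (∑ a, (β a : ℤ)) = ∑ a, (β' a : ℤ) := by exact_mod_cast hs
    zify
    simp only [hl, mul_add, Finset.sum_add_distrib, ← Finset.sum_mul]
    simp only [sub_mul, Finset.sum_sub_distrib] at h4
    rw [h5]
    linarith
  · intro a b hab
    by_contra hcon
    have h3 : (Pi.single a (1 : ℤ) - Pi.single b 1 : ι → ℤ) ∉ rel 𝓤 U := by
      rintro ⟨c, hc⟩
      apply hcon
      refine ⟨c, ?_⟩
      filter_upwards [hc] with t ht
      have h4 : ∏ i, U i t ^ ((Pi.single a (1 : ℤ) - Pi.single b 1 : ι → ℤ) i) =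
          U a t * (U b t)⁻¹ := by
        simp only [Pi.sub_apply, zpow_sub, Finset.prod_mul_distrib, Finset.prod_inv_distrib]
        congr 1
        · rw [Finset.prod_eq_single a]
          · simp
          · intro i _ hi
            rw [Pi.single_eq_of_ne hi, zpow_zero]
          · intro h
            exact absurd (Finset.mem_univ a) h
        · congr 1
          rw [Finset.prod_eq_single b]
          · simp
          · intro i _ hi
            rw [Pi.single_eq_of_ne hi, zpow_zero]
          · intro h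
            exact absurd (Finset.mem_univ b) h
      rw [h4] at ht
      have h5 : U a t = c * U b t := by rw [← ht, inv_mul_cancel_right]
      rw [h5, Units.val_mul]
    have h4 := h2 _ (Finset.mem_filter.2 ⟨Finset.mem_image.2 ⟨(a, b), Finset.mem_univ _, rfl⟩, h3⟩)
    apply h4
    have h5 : l0 a = l0 b := by
      have h6 : (((l0 a + M).toNat : ℕ) : ℤ) = (((l0 b + M).toNat : ℕ) : ℤ) := by exact_mod_cast hab
      rw [hl, hl] at h6
      linarith
    simp only [Pi.sub_apply, sub_mul, Finset.sum_sub_distrib, Pi.single_apply, ite_mul, one_mul,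
      zero_mul, Finset.sum_ite_eq', Finset.mem_univ, if_true]
    linarith

end Pool.Agent.T2H23.LG
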