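import Mathlib
import Pool.Agent.T2H23.LG.Laur

/-!
Points whose coordinates are sums of few elements of a finitely generated group lie on rational
curves.
-/

set_option autoImplicit false

namespace Pool.Agent.T2H23.LG

open Finset Filter Topology MvPolynomial Pool.Agent.T2H23.EL Pool.Agent.TH143.HE
open scoped LinearAlgebra.Projectivization

variable {k : Type} [Field k] {ι : Type} [Fintype ι]

/-- a polynomial at monomials -/
theorem eval₂_mono (G : MvPolynomial ι k) (u : ι → k) (l : ι → ℕ) :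
    eval₂ Polynomial.C (fun a => Polynomial.C (u a) * Polynomial.X ^ l a) G =
      ∑ β ∈ G.support, Polynomial.C (coeff β G * ∏ a, u a ^ β a) *
        Polynomial.X ^ (∑ a, β a * l a) := by
  rw [eval₂_eq']
  refine Finset.sum_congr rfl fun β _ => ?_
  simp only [mul_pow, Finset.prod_mul_distrib, map_mul, map_prod, map_pow, mul_assoc]
  congr 2
  simp only [← pow_mul, ← Finset.prod_pow_eq_pow_sum]
  refine Finset.prod_congr rfl fun a _ => ?_
  rw [mul_comm]

theorem degree_sum {G : MvPolynomial ι k} {d : ℕ} (hG : G.IsHomogeneous d) {β : ι →₀ ℕ}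
    (hβ : β ∈ G.support) : ∑ a, β a = d := by
  have h1 := hG (mem_support_iff.1 hβ)
  rw [← h1, Finsupp.weight_apply, Finsupp.sum_fintype _ _ fun i => by simp]
  simp

/-- a form which vanishes at the sequence of units vanishes on the curve given by the weights -/
theorem form_curve {α : Type} (𝓤 : Ultrafilter α) {𝒢 : Subgroup (α → kˣ)} (hΓ : Ind 𝓤 𝒢)
    (U : ι → α → kˣ) (hU : ∀ a, U a ∈ 𝒢) {l : ι → ℕ}
    (hl : ∀ β β' : ι → ℕ, ∑ a, β a = ∑ a, β' a →
      (∃ c : k, ∀ᶠ t in 𝓤, ∏ a, (U a t : k) ^ β a = c * ∏ a, (U a t : k) ^ β' a) →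
      ∑ a, β a * l a = ∑ a, β' a * l a)
    {G : MvPolynomial ι k} {d : ℕ} (hG : G.IsHomogeneous d)
    (h0 : ∀ᶠ t in 𝓤, eval (fun a => (U a t : k)) G = 0) :
    ∀ᶠ t in 𝓤, eval₂ Polynomial.C
      (fun a => Polynomial.C (U a t : k) * Polynomial.X ^ l a) G = 0 := by
  classical
  have hsub : ∀ f : (ι →₀ ℕ) → k, ∑ β ∈ G.support, f β = ∑ β : G.support, f β := fun f =>
    (Finset.sum_coe_sort G.support f).symm
  have key : ∀ q : ℕ, ∀ᶠ t in 𝓤, ∑ β : G.support, (if ∑ a, (β : ι →₀ ℕ) a * l a = q then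
      coeff (β : ι →₀ ℕ) G * ∏ a, (U a t : k) ^ (β : ι →₀ ℕ) a else 0) = 0 := by
    have hval : ∀ (β : ι →₀ ℕ) t, (((∏ a, U a ^ β a : α → kˣ) t : kˣ) : k) =
        ∏ a, (U a t : k) ^ β a := fun β t => by
      simp only [Finset.prod_apply, Pi.pow_apply, Units.coe_prod, Units.val_pow_eq_pow_val]
    intro q
    have h1 := levels 𝓤 hΓ (fun (β : G.support) => ∏ a, U a ^ (β : ι →₀ ℕ) a)
      (fun β => 𝒢.prod_mem fun a _ => 𝒢.pow_mem (hU a) _)
      (fun β => ∑ a, (β : ι →₀ ℕ) a * l a) (fun β β' h => by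
        simp only [hval] at h
        exact hl _ _ ((degree_sum hG β.2).trans (degree_sum hG β'.2).symm) h)
      (fun β => coeff (β : ι →₀ ℕ) G) (by
        filter_upwards [h0] with t ht
        simp only [hval]
        rw [← ht, eval_eq', hsub]) q
    simpa only [hval] using h1
  have hfin : ∀ᶠ t in 𝓤, ∀ q ∈ G.support.image fun β => ∑ a, β a * l a,
      ∑ β : G.support, (if ∑ a, (β : ι →₀ ℕ) a * l a = q then
        coeff (β : ι →₀ ℕ) G * ∏ a, (U a t : k) ^ (β : ι →₀ ℕ) a else 0) = 0 :=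
    (eventually_all_finset _).2 fun q _ => key q
  filter_upwards [hfin] with t ht
  rw [eval₂_mono]
  ext q
  rw [Polynomial.finsetSum_coeff, Polynomial.coeff_zero]
  simp only [Polynomial.coeff_C_mul, Polynomial.coeff_X_pow, mul_ite, mul_one, mul_zero]
  by_cases hq : q ∈ G.support.image fun β => ∑ a, β a * l a
  · rw [hsub fun β => if q = ∑ a, β a * l a then coeff β G * ∏ a, (U a t : k) ^ β a else 0]
    refine Eq.trans ?_ (ht q hq)
    refine Finset.sum_congr rfl fun β _ => ?_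
    simp only [eq_comm]
  · refine Finset.sum_eq_zero fun β hβ => ?_
    rw [if_neg]
    rintro rfl
    exact hq (Finset.mem_image_of_mem _ hβ)

/-- the points of a sequence with coordinates which are sums of units lie on rational curves -/
theorem curve_of_sums {α : Type} (𝓤 : Ultrafilter α) {𝒢 : Subgroup (α → kˣ)} (hΓ : Ind 𝓤 𝒢)
    {N r : ℕ} {K : Type} [Field K] {φ : K →+* k} {I I' : Ideal (MvPolynomial (Fin (N + 1)) K)}
    (w : Fin (N + 1) → Fin r → α → k) (U : Fin (N + 1) × Fin r → α → kˣ) (hU : ∀ a, U a ∈ 𝒢)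
    (δ : Fin (N + 1) × Fin r → k) (hwU : ∀ᶠ t in 𝓤, ∀ a, w a.1 a.2 t = δ a * U a t)
    (c : α → ℙ k (Fin (N + 1) → k)) (hc : ∀ᶠ t in 𝓤, Rep (c t) fun j => ∑ i, w j i t)
    (hX : ∀ᶠ t in 𝓤, c t ∈ Pts φ I \ Pts φ I') (hne : ∀ P, ¬ ∀ᶠ t in 𝓤, c t = P) :
    ∃ p, RCur φ I I' p := by
  classical
  obtain ⟨l, hl1, hl2⟩ := unit_weights 𝓤 U
  let p : α → Fin (N + 1) → Polynomial k := fun t j =>
    ∑ i, Polynomial.C (δ (j, i) * U (j, i) t) * Polynomial.X ^ l (j, i)
  -- the forms vanish on the curve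
  let G' : MvPolynomial (Fin (N + 1)) K → MvPolynomial (Fin (N + 1) × Fin r) k := fun G =>
    eval₂ (C.comp φ) (fun j => ∑ i, C (δ (j, i)) * X (j, i)) G
  have hG'hom : ∀ G d, G.IsHomogeneous d → (G' G).IsHomogeneous d := by
    intro G d hG
    have h1 : ∀ j : Fin (N + 1), (∑ i : Fin r, C (δ (j, i)) * X (j, i) :
        MvPolynomial (Fin (N + 1) × Fin r) k).IsHomogeneous 1 := by
      intro j
      refine IsHomogeneous.sum _ _ _ fun i _ => ?_
      simpa using (isHomogeneous_C (Fin (N + 1) × Fin r) (δ (j, i))).mul (isHomogeneous_X k (j, i))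
    have h2 := hG.eval₂ (C.comp φ) (fun j => ∑ i : Fin r, C (δ (j, i)) * X (j, i)) (n := 1)
      (fun x => isHomogeneous_C _ _) h1
    rwa [one_mul] at h2
  have hGe : ∀ G t, (∀ a, w a.1 a.2 t = δ a * U a t) →
      eval (fun a => (U a t : k)) (G' G) = eval₂ φ (fun j => ∑ i, w j i t) G := by
    intro G t ht
    have h1 := eval₂_comp_left (eval (fun a => (U a t : k))) (C.comp φ)
      (fun j => ∑ i : Fin r, C (δ (j, i)) * X (j, i)) G
    change (eval fun a => (U a t : k)) (eval₂ (C.comp φ) _ G) = _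
    rw [h1]
    congr 1
    · ext z
      simp
    · funext j
      simp only [Function.comp, map_sum, map_mul, eval_C, eval_X]
      exact Finset.sum_congr rfl fun i _ => (ht (j, i)).symm
  have hGp : ∀ G t, eval₂ Polynomial.C (fun a => Polynomial.C (U a t : k) * Polynomial.X ^ l a)
      (G' G) = eval₂ (Polynomial.C.comp φ) (p t) G := by
    intro G t
    have h1 := eval₂_comp_left (eval₂Hom Polynomial.C
      (fun a => Polynomial.C (U a t : k) * Polynomial.X ^ l a)) (C.comp φ)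
      (fun j => ∑ i : Fin r, C (δ (j, i)) * X (j, i)) G
    rw [coe_eval₂Hom] at h1
    change eval₂ Polynomial.C _ (eval₂ (C.comp φ) _ G) = _
    rw [h1]
    congr 1
    · ext z
      simp
    · funext j
      simp only [Function.comp, p]
      rw [← coe_eval₂Hom, map_sum]
      refine Finset.sum_congr rfl fun i _ => ?_
      rw [map_mul, coe_eval₂Hom, eval₂_C, eval₂_X, map_mul, mul_assoc]
  obtain ⟨T, hT, hgen⟩ := exists_forms I
  have hcurve : ∀ᶠ t in 𝓤, ∀ G ∈ T, eval₂ (Polynomial.C.comp φ) (p t) G = 0 := by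
    rw [eventually_all_finset]
    intro G hG
    obtain ⟨hGI, d, hGd⟩ := hT G hG
    have h1 := form_curve 𝓤 hΓ U hU hl1 (hG'hom G d hGd) (by
      filter_upwards [hwU, hc, hX] with t ht hc hX
      rw [hGe G t ht]
      exact (mem_pts hc).1 hX.1 G hGI ⟨d, hGd⟩)
    filter_upwards [h1] with t ht
    rw [← hGp]
    exact ht
  -- the curve is not constant
  have hrep : ∀ b : Fin (N + 1) × Fin r, ∃ κ : Fin (N + 1) × Fin r → k, ∀ᶠ t in 𝓤,
      ∀ a, l a = l b → (U a t : k) = κ a * U b t := by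
    intro b
    have h1 : ∀ a, ∃ κ : k, ∀ᶠ t in 𝓤, l a = l b → (U a t : k) = κ * U b t := by
      intro a
      by_cases h : l a = l b
      · obtain ⟨κ, hκ⟩ := hl2 a b h
        exact ⟨κ, hκ.mono fun t ht _ => ht⟩
      · exact ⟨0, Eventually.of_forall fun t h' => absurd h' h⟩
    choose κ hκ using h1
    exact ⟨κ, eventually_all.2 hκ⟩
  have hcoef : ∀ q : ℕ, ∃ (v : Fin (N + 1) → k) (W : α → k), ∀ᶠ t in 𝓤, W t ≠ 0 ∧
      ∀ j, (p t j).coeff q = v j * W t := by
    intro q
    by_cases hq : ∃ b, l b = q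
    · obtain ⟨b, rfl⟩ := hq
      obtain ⟨κ, hκ⟩ := hrep b
      refine ⟨fun j => ∑ i, if l (j, i) = l b then δ (j, i) * κ (j, i) else 0,
        fun t => U b t, ?_⟩
      filter_upwards [hκ] with t ht
      refine ⟨(U b t).ne_zero, fun j => ?_⟩
      simp only [p, Polynomial.finsetSum_coeff, Polynomial.coeff_C_mul, Polynomial.coeff_X_pow,
        Finset.sum_mul]
      refine Finset.sum_congr rfl fun i _ => ?_
      by_cases h : l (j, i) = l b
      · rw [if_pos h.symm, if_pos h, mul_one, ht _ h, mul_assoc]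
      · rw [if_neg (Ne.symm h), if_neg h, mul_zero, zero_mul]
    · refine ⟨fun _ => 0, fun _ => 1, Eventually.of_forall fun t => ⟨one_ne_zero, fun j => ?_⟩⟩
      simp only [p, Polynomial.finsetSum_coeff, Polynomial.coeff_C_mul, Polynomial.coeff_X_pow,
        zero_mul]
      refine Finset.sum_eq_zero fun i _ => ?_
      rw [if_neg, mul_zero]
      intro h
      exact hq ⟨_, h.symm⟩
  choose v W hv using hcoef
  set M : ℕ := ∑ a, l a + 1 with hM
  have hdeg : ∀ t j q, M ≤ q → (p t j).coeff q = 0 := by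
    intro t j q hq
    simp only [p, Polynomial.finsetSum_coeff, Polynomial.coeff_C_mul, Polynomial.coeff_X_pow]
    refine Finset.sum_eq_zero fun i _ => ?_
    rw [if_neg, mul_zero]
    have h1 : l (j, i) ≤ ∑ a, l a := Finset.single_le_sum (f := l) (fun _ _ => Nat.zero_le _)
      (Finset.mem_univ _)
    omega
  have hvM : ∀ᶠ t in 𝓤, ∀ q ∈ Finset.range M, W q t ≠ 0 ∧ ∀ j, (p t j).coeff q = v q j * W q t :=
    (eventually_all_finset _).2 fun q _ => hv q
  have heval : ∀ t j, (∀ a, w a.1 a.2 t = δ a * U a t) → (p t j).eval 1 = ∑ i, w j i t := by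
    intro t j ht
    simp only [p, Polynomial.eval_finsetSum, Polynomial.eval_mul, Polynomial.eval_C,
      Polynomial.eval_pow, Polynomial.eval_X, one_pow, mul_one]
    exact Finset.sum_congr rfl fun i _ => (ht (j, i)).symm
  have hnc : ∃ j j' q q', v q j * v q' j' ≠ v q j' * v q' j := by
    by_contra hcon
    push Not at hcon
    -- a nonzero column
    obtain ⟨t0, ht1, ht2, hct0⟩ := (hvM.and (hwU.and hc)).exists
    obtain ⟨j0, hj0⟩ := Function.ne_iff.1 hct0.1
    have h1 : ∀ t, (∀ a, w a.1 a.2 t = δ a * U a t) →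
        (∀ q ∈ Finset.range M, W q t ≠ 0 ∧ ∀ j, (p t j).coeff q = v q j * W q t) →
        ∀ j, ∑ i, w j i t = ∑ q ∈ Finset.range M, v q j * W q t := by
      intro t h1 h2 j
      rw [← heval t j h1, Polynomial.eval_eq_sum_range' (n := M)]
      · refine Finset.sum_congr rfl fun q hq => ?_
        rw [(h2 q hq).2 j, one_pow, mul_one]
      · by_contra hlt
        push Not at hlt
        have h3 : p t j ≠ 0 := by
          intro h0
          rw [h0, Polynomial.natDegree_zero] at hlt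
          omega
        exact Polynomial.leadingCoeff_ne_zero.2 h3 (hdeg t j _ hlt)
    obtain ⟨q0, hq0⟩ : ∃ q, v q j0 ≠ 0 := by
      by_contra h2
      push Not at h2
      apply hj0
      change ∑ i, w j0 i t0 = 0
      rw [h1 t0 ht2 ht1]
      exact Finset.sum_eq_zero fun q _ => by rw [h2 q, zero_mul]
    have hv0 : v q0 ≠ 0 := fun h => hq0 (congrFun h j0)
    apply hne (Projectivization.mk k (v q0) hv0)
    filter_upwards [hvM, hwU, hc] with t h2 h3 hct
    obtain ⟨h4, h5⟩ := hct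
    rw [h5, Projectivization.mk_eq_mk_iff']
    refine ⟨(∑ i, w j0 i t) / v q0 j0, ?_⟩
    funext j
    rw [Pi.smul_apply, smul_eq_mul, div_mul_eq_mul_div, div_eq_iff hq0, h1 t h3 h2, h1 t h3 h2,
      Finset.sum_mul, Finset.sum_mul]
    refine Finset.sum_congr rfl fun q _ => ?_
    linear_combination W q t * hcon j0 j q q0
  obtain ⟨j, j', q, q', hjq⟩ := hnc
  obtain ⟨t, h1, h2, h3, h4, hct, hXt⟩ :=
    (hcurve.and (hwU.and ((hv q).and ((hv q').and (hc.and hX))))).exists
  refine ⟨p t, ?_, ?_, ?_⟩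
  · intro G hG hGh
    have h5 := hgen (Polynomial k) ⊥ (eval₂Hom (Polynomial.C.comp φ) (p t)) (fun G hG => by
      rw [coe_eval₂Hom, Ideal.mem_bot]
      exact h1 G hG) G hG hGh
    rwa [coe_eval₂Hom, Ideal.mem_bot] at h5
  · have h5 : ¬ Zero φ I' fun j => ∑ i, w j i t := fun h => hXt.2 ((mem_pts hct).2 h)
    unfold EL.Zero at h5
    push Not at h5
    obtain ⟨G, hG, hGh, hne⟩ := h5
    refine ⟨G, hG, hGh, fun h0 => hne ?_⟩
    have h6 := congrArg (Polynomial.eval 1) h0
    rw [Polynomial.eval_zero] at h6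
    rw [← h6]
    have h7 := eval₂_comp_left (Polynomial.evalRingHom (1 : k)) (Polynomial.C.comp φ) (p t) G
    rw [Polynomial.coe_evalRingHom] at h7
    rw [h7]
    congr 1
    · ext z
      simp
    · funext j
      exact (heval t j h2).symm
  · refine ⟨j, j', q, q', fun h => hjq ?_⟩
    rw [h3.2 j, h3.2 j', h4.2 j, h4.2 j'] at h
    apply mul_right_cancel₀ (mul_ne_zero h3.1 h4.1)
    linear_combination h

end Pool.Agent.T2H23.LG
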