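import Mathlib
import Pool.Agent.T2H23.LG.Slow
import Pool.Agent.T2H23.LG.Sums
import Pool.Agent.T2H23.EL.Main

/-!
Rational curves over number fields and the points which are sums of units.
-/

set_option autoImplicit false

namespace Pool.Agent.T2H23.LG

open Finset Filter Topology MvPolynomial Height Pool.Agent.T2H23.EL Pool.Agent.TH143.HE
open scoped LinearAlgebra.Projectivization

variable {N : ℕ} {K : Type} [Field K] {I I' : Ideal (MvPolynomial (Fin (N + 1)) K)}

section

variable [NumberField K]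

theorem ratCurves_of_noRational (h : NoRational I I') (σ : K →+* ℂ) : RatCurvesIn σ I I' := by
  let _ : Algebra K ℂ := σ.toAlgebra
  rw [ratCurvesIn_iff]
  intro p hp
  have hp1 : RCur ((algebraMap K ℂ).comp (RingHom.id K)) I I' p := hp
  obtain ⟨L, _, _, _, p', hp'⟩ := RCur.spec (k := K) (E := ℂ) (RingHom.id K) hp1
  have hchar : CharZero L := charZero_of_injective_algebraMap (algebraMap K L).injective
  have hfin : FiniteDimensional ℚ L := FiniteDimensional.trans ℚ K L
  have hnf : NumberField L := ⟨⟩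
  rw [RingHom.comp_id] at hp'
  exact noLine_iff.1 (h L) _ hp'

theorem noRational_of_rat {σ : K →+* ℂ} (h : RatCurvesIn σ I I') : NoRational I I' := by
  intro L _ _ _
  obtain ⟨e, he⟩ := exists_emb σ L
  rw [noLine_iff]
  intro p hp
  have h3 := hp.map e
  rw [he] at h3
  exact ratCurvesIn_iff.1 h _ h3

end

/-- sums of units on varieties without rational curves -/
theorem sumFinite_of_noRational (h : NoRational I I') : SumFinite I I' := by
  classical
  intro L _ _ _ Γ hΓ r
  by_contra hinf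
  obtain ⟨c, hc⟩ : ∃ c : ℕ → ℙ L (Fin (N + 1) → L), Function.Injective c ∧
      ∀ m, c m ∈ SumPts Γ r ∩ (Pts (algebraMap K L) I \ Pts (algebraMap K L) I') := by
    have h1 : (SumPts Γ r ∩ (Pts (algebraMap K L) I \ Pts (algebraMap K L) I')).Infinite := hinf
    let e := h1.natEmbedding
    exact ⟨fun m => (e m).1, fun a b hab => e.injective (Subtype.ext hab), fun m => (e m).2⟩
  obtain ⟨hinj, hmem⟩ := hc
  choose w hw hrep using fun m => (hmem m).1
  let 𝓤 : Ultrafilter ℕ := hyperfilter ℕ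
  have h0 : ∀ (a : Fin (N + 1) × Fin r) t, ∃ u : Lˣ, u ∈ Γ ∧
      (w t a.1 a.2 ≠ 0 → w t a.1 a.2 = u) := by
    intro a t
    rcases hw t a.1 a.2 with h | ⟨g, hg, h⟩
    · exact ⟨1, Γ.one_mem, fun h' => absurd h h'⟩
    · exact ⟨g, hg, fun _ => h⟩
  choose U hU hUw using h0
  let δ : Fin (N + 1) × Fin r → L := fun a => if ∀ᶠ t in 𝓤, w t a.1 a.2 ≠ 0 then 1 else 0
  have hwU : ∀ᶠ t in 𝓤, ∀ a, (fun j i t => w t j i) a.1 a.2 t = δ a * U a t := by
    rw [eventually_all]
    intro a
    by_cases h : ∀ᶠ t in 𝓤, w t a.1 a.2 ≠ 0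
    · filter_upwards [h] with t ht
      simp only [δ, if_pos h, one_mul]
      exact hUw a t ht
    · have h' := h
      rw [← Ultrafilter.eventually_not] at h'
      filter_upwards [h'] with t ht
      simp only [δ, if_neg h, zero_mul]
      push Not at ht
      exact ht
  obtain ⟨p, hp⟩ := curve_of_sums 𝓤 (ind_seq 𝓤 hΓ) (φ := algebraMap K L) (I := I) (I' := I')
    (fun j i t => w t j i) U (fun a t => hU a t) δ hwU c
    (Eventually.of_forall fun t => hrep t) (Eventually.of_forall fun t => (hmem t).2)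
    (fun P hP => by
      have h1 : {t | c t = P}.Finite := by
        refine Set.Subsingleton.finite fun a ha b hb => hinj ?_
        exact Eq.trans ha (Eq.symm hb)
      exact Filter.notMem_hyperfilter_of_finite h1 hP)
  exact noLine_iff.1 (h L) p hp

theorem slow_of_finite {L : Type} [Field L] [NumberField L] {S : Set (ℙ L (Fin (N + 1) → L))}
    (h : S.Finite) : Slow S := by
  intro ε hε
  refine ⟨S.ncard, fun H hH => ⟨h.subset fun c hc => hc.1, ?_⟩⟩
  have h1 : {c ∈ S | c.mulHeight ≤ H}.ncard ≤ S.ncard := Set.ncard_le_ncard (fun c hc => hc.1) h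
  have h2 : 0 ≤ ε * Real.log H := mul_nonneg hε.le (Real.log_nonneg hH)
  have h3 : ({c ∈ S | c.mulHeight ≤ H}.ncard : ℝ) ≤ S.ncard := by exact_mod_cast h1
  linarith

theorem sumSlow_of_finite (h : SumFinite I I') : SumSlow I I' :=
  fun L _ _ _ Γ hΓ r => slow_of_finite (h L Γ hΓ r)

/-- a finitely generated group which contains `2` and the given elements -/
theorem exists_group {L : Type} [Field L] (h2 : (2 : L) ≠ 0) (A : Finset L) :
    ∃ Γ : Subgroup Lˣ, Γ.FG ∧ Units.mk0 2 h2 ∈ Γ ∧ ∀ a ∈ A, ∀ h : a ≠ 0, Units.mk0 a h ∈ Γ := by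
  classical
  let f : L → Lˣ := fun a => if h : a = 0 then 1 else Units.mk0 a h
  refine ⟨Subgroup.closure ((insert 2 A).image f : Finset Lˣ), ⟨_, rfl⟩, ?_, fun a ha h => ?_⟩
  · apply Subgroup.subset_closure
    rw [Finset.mem_coe, Finset.mem_image]
    exact ⟨2, Finset.mem_insert_self _ _, dif_neg h2⟩
  · apply Subgroup.subset_closure
    rw [Finset.mem_coe, Finset.mem_image]
    exact ⟨a, Finset.mem_insert_of_mem ha, dif_neg h⟩

theorem noRational_of_sumSlow (h : SumSlow I I') : NoRational I I' := by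
  classical
  intro L _ _ _
  rw [noLine_iff]
  intro p hp
  have h20 : (2 : L) ≠ 0 := two_ne_zero
  set D : ℕ := Finset.univ.sup (fun j => (p j).natDegree) + 1 with hDdef
  have hD : ∀ j, (p j).natDegree < D := fun j =>
    Nat.lt_succ_of_le (Finset.le_sup (f := fun j => (p j).natDegree) (Finset.mem_univ j))
  obtain ⟨Γ, hΓ, h2, hA⟩ := exists_group h20
    ((Finset.univ ×ˢ Finset.range D).image fun a : Fin (N + 1) × ℕ => (p a.1).coeff a.2)
  refine slow_contra hp _ (fun m c hc hr => ?_) (h L Γ hΓ D)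
  refine ⟨⟨fun j i => (p j).coeff i * (2 ^ m) ^ (i : ℕ), fun j i => ?_, ?_⟩, hc⟩
  · by_cases h0 : (p j).coeff i = 0
    · left
      change (p j).coeff i * (2 ^ m) ^ (i : ℕ) = 0
      rw [h0, zero_mul]
    · right
      refine ⟨Units.mk0 _ h0 * (Units.mk0 2 h20 ^ m) ^ (i : ℕ), Γ.mul_mem (hA _ ?_ h0)
        (Γ.pow_mem (Γ.pow_mem h2 m) _), ?_⟩
      · exact Finset.mem_image.2 ⟨(j, i), Finset.mem_product.2 ⟨Finset.mem_univ _,
          Finset.mem_range.2 i.2⟩, rfl⟩
      · simp
  · have h3 : (fun j => ∑ i : Fin D, (p j).coeff i * ((2 : L) ^ m) ^ (i : ℕ)) =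
        fun j => (p j).eval ((2 : L) ^ m) := by
      funext j
      rw [Polynomial.eval_eq_sum_range' (hD j), Finset.sum_range]
    rw [h3]
    exact hr

theorem noRational_of_subPolynomial (h : SubPolynomial I I') : NoRational I I' := by
  intro L _ _ _
  rw [noLine_iff]
  intro p hp
  exact poly_contra hp (h L)

theorem subPolynomial_of_finiteness (h : Finiteness I I') : SubPolynomial I I' := by
  intro L _ _ _ ε hε
  have hf := h L
  refine ⟨(Pts (algebraMap K L) I \ Pts (algebraMap K L) I').ncard, fun H hH =>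
    ⟨hf.subset fun c hc => hc.1, ?_⟩⟩
  have h1 := Set.ncard_le_ncard (s := {c ∈ Pts (algebraMap K L) I \ Pts (algebraMap K L) I' |
    c.mulHeight ≤ H}) (fun c hc => hc.1) hf
  have h2 : (1 : ℝ) ≤ H ^ ε := Real.one_le_rpow hH hε.le
  have h3 : ({c ∈ Pts (algebraMap K L) I \ Pts (algebraMap K L) I' | c.mulHeight ≤ H}.ncard : ℝ) ≤
      ((Pts (algebraMap K L) I \ Pts (algebraMap K L) I').ncard : ℝ) := by exact_mod_cast h1
  have h4 : (0 : ℝ) ≤ ((Pts (algebraMap K L) I \ Pts (algebraMap K L) I').ncard : ℝ) :=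
    Nat.cast_nonneg _
  nlinarith

end Pool.Agent.T2H23.LG
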