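import Mathlib
import Pool.Agent.T2H23.LG.Pts
import Pool.Agent.H159R3.Exp.Borel

/-!
Entire curves given by sums of units.
-/

set_option autoImplicit false

namespace Pool.Agent.T2H23.LG

open Finset Filter Topology MvPolynomial Pool.Agent.T2H23.EL Pool.Agent.TH143.HE
open Pool.Agent.TH143.EL (HolMap rep_rep inV_of_punct holMap_ext codis_rep codis_punct codis_of_ev
  rep_iff mero_ne InV)
open scoped LinearAlgebra.Projectivization

variable {N : ℕ}

/-- the logarithm of an entire function without zeros -/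
theorem entire_log {u : ℂ → ℂ} (hu : Differentiable ℂ u) (h0 : ∀ z, u z ≠ 0) :
    ∃ g : ℂ → ℂ, Differentiable ℂ g ∧ ∀ z, u z = Complex.exp (g z) := by
  have hd : Differentiable ℂ (fun z => deriv u z / u z) := by
    intro z
    exact ((hu.deriv).differentiableAt).div hu.differentiableAt (h0 z)
  obtain ⟨g, hg⟩ := hd.isExactOn_univ
  have hgd : ∀ z, HasDerivAt g (deriv u z / u z) z := fun z => hg z (Set.mem_univ z)
  have hD : ∀ z, HasDerivAt (fun z => u z * Complex.exp (-g z)) 0 z := by
    intro z
    refine (((hu z).hasDerivAt).mul ((hgd z).neg.cexp)).congr_deriv ?_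
    have := h0 z
    field_simp
    ring
  have hconst : ∀ z, u z * Complex.exp (-g z) = u 0 * Complex.exp (-g 0) := fun z =>
    is_const_of_deriv_eq_zero (fun z => (hD z).differentiableAt) (fun z => (hD z).deriv) z 0
  set c : ℂ := u 0 * Complex.exp (-g 0) with hc
  have hc0 : c ≠ 0 := mul_ne_zero (h0 0) (Complex.exp_ne_zero _)
  refine ⟨fun z => g z + Complex.log c, fun z => (hgd z).differentiableAt.add_const _, fun z => ?_⟩
  rw [Complex.exp_add, Complex.exp_log hc0, ← hconst z, Complex.exp_neg]
  have := Complex.exp_ne_zero (g z)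
  field_simp

/-- the entire functions without zeros -/
def entG : Subgroup (ℂ → ℂˣ) where
  carrier := {u | Differentiable ℂ fun z => (u z : ℂ)}
  mul_mem' := fun h1 h2 => by
    exact Differentiable.fun_mul h1 h2
  one_mem' := differentiable_const _
  inv_mem' := fun {u} h => by
    have h1 : (fun z => (((u⁻¹ : ℂ → ℂˣ) z : ℂˣ) : ℂ)) = fun z => ((u z : ℂ))⁻¹ := by
      funext z
      rw [Pi.inv_apply, Units.val_inv_eq_inv_val]
    show Differentiable ℂ fun z => (((u⁻¹ : ℂ → ℂˣ) z : ℂˣ) : ℂ)
    rw [h1]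
    exact Differentiable.inv h fun z => (u z).ne_zero

theorem entire_id {F : ℂ → ℂ} (hF : Differentiable ℂ F) {𝓤 : Ultrafilter ℂ}
    (h𝓤 : (𝓤 : Filter ℂ) ≤ codiscrete ℂ) (h : ∀ᶠ z in 𝓤, F z = 0) (z : ℂ) : F z = 0 := by
  have hm : Meromorphic F := fun z => (hF.analyticAt z).meromorphicAt
  have h1 : ∀ᶠ z in codiscrete ℂ, F z = 0 := by
    by_contra hcon
    have h2 := (mero_ne hm hcon).filter_mono h𝓤
    obtain ⟨z, h3, h4⟩ := (h.and h2).exists
    exact h4 h3
  have h2 : ∀ᶠ w in 𝓝[≠] z, F w = 0 := codis_punct h1 z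
  have h3 : F =ᶠ[𝓝[≠] z] fun _ => 0 := h2
  exact ((ContinuousAt.eventuallyEq_nhds_iff_eventuallyEq_nhdsNE hF.continuous.continuousAt
    continuousAt_const).1 h3).self_of_nhds

/-- Borel's theorem -/
theorem ind_ent {𝓤 : Ultrafilter ℂ} (h𝓤 : (𝓤 : Filter ℂ) ≤ codiscrete ℂ) : Ind 𝓤 entG := by
  classical
  intro m u hu hne c hc
  have hu' : ∀ i, Differentiable ℂ fun z => (u i z : ℂ) := hu
  choose g hg hgu using fun i => entire_log (hu' i) fun z => (u i z).ne_zero
  have h0 : ∀ z, ∑ i, c i * Complex.exp (g i z) = 0 := by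
    intro z
    have h1 : Differentiable ℂ fun z => ∑ i, c i * Complex.exp (g i z) :=
      Differentiable.fun_sum fun i _ => (hg i).cexp.const_mul _
    refine entire_id h1 h𝓤 ?_ z
    filter_upwards [hc] with z hz
    simpa only [hgu] using hz
  have h1 := Pool.Agent.H159R3.Exp.borel_spec (B := Fin m → ℂ) g hg (fun i => Pi.single i 1)
    (by
      intro i j a ha
      by_cases hij : i = j
      · subst hij
        have h2 : a = 0 := by
          have := ha 0
          linear_combination -this
        rw [h2, Complex.exp_zero, one_smul]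
      · exfalso
        refine hne i j hij (Complex.exp a) (Eventually.of_forall fun z => ?_)
        rw [hgu, hgu, ha z, Complex.exp_add, mul_comm])
    Finset.univ c h0
  intro i
  have h2 := congrFun h1 i
  rw [Finset.sum_apply, Finset.sum_eq_single i] at h2
  · simpa using h2
  · intro j _ hj
    simp [Pi.single_eq_of_ne hj.symm]
  · intro h
    exact absurd (Finset.mem_univ i) h

variable {K : Type} [Field K] {I I' : Ideal (MvPolynomial (Fin (N + 1)) K)} {σ : K →+* ℂ}

/-- an evaluated form is entire -/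
theorem eval₂_diff {h : Fin (N + 1) → ℂ → ℂ} (hh : ∀ j, Differentiable ℂ (h j))
    (G : MvPolynomial (Fin (N + 1)) K) : Differentiable ℂ fun z => eval₂ σ (fun j => h j z) G := by
  induction G using MvPolynomial.induction_on with
  | C a => simpa only [eval₂_C] using differentiable_const _
  | add p q hp hq => simpa only [eval₂_add] using hp.fun_add hq
  | mul_X p j hp => simpa only [eval₂_mul, eval₂_X] using hp.fun_mul (hh j)

theorem pts_of_codis {f : ℂ → ℙ ℂ (Fin (N + 1) → ℂ)} (hf : Hol f)
    {J : Ideal (MvPolynomial (Fin (N + 1)) K)} (h : ∀ᶠ z in codiscrete ℂ, f z ∈ Pts σ J) (z : ℂ) :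
    f z ∈ Pts σ J := by
  rw [mem_iff]
  refine inV_of_punct (f := f) hf ?_
  filter_upwards [codis_punct h z] with w hw
  exact mem_iff.1 hw

theorem unitHyp_of_rat (h : RatCurvesIn σ I I') : UnitHyperbolic σ I I' := by
  classical
  rintro f ⟨r, u, hu, hrep⟩ ⟨hf, hX, ⟨z1, z2, hnc⟩, ⟨z0, hout⟩⟩
  let 𝓤 : Ultrafilter ℂ := Ultrafilter.of (codiscrete ℂ)
  have h𝓤 : (𝓤 : Filter ℂ) ≤ codiscrete ℂ := Ultrafilter.of_le _
  -- the coordinates are entire
  have hud : ∀ j i, Differentiable ℂ (u j i) := by
    intro j i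
    rcases hu j i with h1 | h1
    · have h2 : u j i = fun _ => 0 := funext h1
      rw [h2]
      exact differentiable_const _
    · exact h1.1
  have hhd : ∀ j, Differentiable ℂ fun z => ∑ i, u j i z := fun j =>
    Differentiable.fun_sum fun i _ => hud j i
  -- the units
  let U : Fin (N + 1) × Fin r → ℂ → ℂˣ := fun a z =>
    if h : ∀ z, u a.1 a.2 z ≠ 0 then Units.mk0 _ (h z) else 1
  let δ : Fin (N + 1) × Fin r → ℂ := fun a => if ∀ z, u a.1 a.2 z ≠ 0 then 1 else 0
  have hU : ∀ a, U a ∈ entG := by
    intro a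
    show Differentiable ℂ fun z => ((U a z : ℂˣ) : ℂ)
    by_cases h : ∀ z, u a.1 a.2 z ≠ 0
    · have h1 : (fun z => ((U a z : ℂˣ) : ℂ)) = u a.1 a.2 := by
        funext z
        simp only [U, dif_pos h, Units.val_mk0]
      rw [h1]
      exact hud _ _
    · have h1 : (fun z => ((U a z : ℂˣ) : ℂ)) = fun _ => 1 := by
        funext z
        simp only [U, dif_neg h, Units.val_one]
      rw [h1]
      exact differentiable_const _
  have hwU : ∀ a z, u a.1 a.2 z = δ a * U a z := by
    intro a z
    by_cases h : ∀ z, u a.1 a.2 z ≠ 0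
    · simp only [δ, U, if_pos h, dif_pos h, Units.val_mk0, one_mul]
    · simp only [δ, if_neg h, zero_mul]
      rcases hu a.1 a.2 with h1 | h1
      · exact h1 z
      · exact absurd h1.2 h
  have hX1 : ∀ᶠ z in 𝓤, f z ∈ Pts σ I \ Pts σ I' := by
    have h1 : ∀ᶠ z in 𝓤, ¬ f z ∈ Pts σ I' := by
      rw [Ultrafilter.eventually_not]
      intro h1
      apply hout
      refine pts_of_codis hf ?_ z0
      have h2 : ∀ G ∈ I', (∃ d, G.IsHomogeneous d) → ∀ z, eval₂ σ (fun j => ∑ i, u j i z) G = 0 := by
        intro G hG hGh z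
        refine entire_id (eval₂_diff hhd G) h𝓤 ?_ z
        filter_upwards [h1, hrep.filter_mono h𝓤] with z hz hz'
        exact (mem_pts hz').1 hz G hG hGh
      filter_upwards [hrep] with z hz
      exact (mem_pts hz).2 fun G hG hGh => h2 G hG hGh z
    filter_upwards [h1] with z hz
    exact ⟨hX z, hz⟩
  have hne : ∀ P, ¬ ∀ᶠ z in 𝓤, f z = P := by
    intro P hP
    apply hnc
    have h2 : ∀ j k z, (∑ i, u j i z) * P.rep k - (∑ i, u k i z) * P.rep j = 0 := by
      intro j k z
      refine entire_id (F := fun z => (∑ i, u j i z) * P.rep k - (∑ i, u k i z) * P.rep j)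
        (((hhd j).mul_const _).sub ((hhd k).mul_const _)) h𝓤 ?_ z
      filter_upwards [hP, hrep.filter_mono h𝓤] with z hz hz'
      rw [hz] at hz'
      have := ((rep_iff hz').1 (rep_rep P)).2 j k
      linear_combination this
    have h3 : ∀ᶠ z in codiscrete ℂ, f z = P := by
      filter_upwards [hrep] with z hz
      refine Pool.Agent.TH143.EL.rep_eq' hz (rep_rep P) fun j k => ?_
      linear_combination h2 j k z
    have h4 : ∀ z, f z = P := by
      intro z
      have hconst : HolMap fun _ : ℂ => P := fun a => ⟨fun j _ => P.rep j,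
        fun j => analyticAt_const, Eventually.of_forall fun _ => rep_rep P⟩
      exact holMap_ext (f := f) (f' := fun _ => P) hf hconst (codis_punct h3 z)
    rw [h4, h4]
  obtain ⟨p, hp⟩ := curve_of_sums 𝓤 (ind_ent h𝓤) (φ := σ) (I := I) (I' := I') u U hU δ
    (Eventually.of_forall fun z a => hwU a z) f (hrep.filter_mono h𝓤) hX1 hne
  exact ratCurvesIn_iff.1 h p hp

/-- a rational curve composed with the exponential function -/
theorem rat_of_unitHyp (h : UnitHyperbolic σ I I') : RatCurvesIn σ I I' := by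
  classical
  rw [ratCurvesIn_iff]
  rintro p ⟨h1, ⟨G, hG, hGh, hGne⟩, ⟨j0, k0, i0, i1, hnc⟩⟩
  let q : Fin (N + 1) → ℂ → ℂ := fun j z => (p j).eval (Complex.exp z)
  have hqd : ∀ j, Differentiable ℂ (q j) := fun j => (p j).differentiable.comp Complex.differentiable_exp
  have hqm : ∀ j, Meromorphic (q j) := fun j z => ((hqd j).analyticAt z).meromorphicAt
  -- polynomials in exp z
  have hcod : ∀ P : Polynomial ℂ, P ≠ 0 → ∀ᶠ z in codiscrete ℂ, P.eval (Complex.exp z) ≠ 0 := by
    intro P hP
    have hd : Differentiable ℂ fun z => P.eval (Complex.exp z) :=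
      P.differentiable.comp Complex.differentiable_exp
    refine mero_ne (fun z => (hd.analyticAt z).meromorphicAt) fun hcon => hP ?_
    have h2 : ∀ z, P.eval (Complex.exp z) = 0 := by
      intro z
      exact entire_id (𝓤 := Ultrafilter.of (codiscrete ℂ)) hd (Ultrafilter.of_le _)
        (hcon.filter_mono (Ultrafilter.of_le _)) z
    apply Polynomial.eq_zero_of_infinite_isRoot
    refine Set.Infinite.mono (s := {(0 : ℂ)}ᶜ) (fun x hx => ?_) (Set.finite_singleton (0 : ℂ)).infinite_compl
    have h3 := h2 (Complex.log x)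
    rw [Complex.exp_log hx] at h3
    exact h3
  obtain ⟨j1, hj1⟩ : ∃ j, p j ≠ 0 := by
    by_contra hcon
    push Not at hcon
    apply hnc
    rw [hcon j0, hcon k0]
  obtain ⟨f, hf, hr⟩ := codis_rep (h := q) hqm ⟨j1, fun h0 => by
    obtain ⟨z, hz1, hz2⟩ := (h0.and (hcod _ hj1)).exists
    exact hz2 hz1⟩
  have hr' : ∀ᶠ z in codiscrete ℂ, Rep (f z) fun j => (p j).eval (Complex.exp z) := hr
  refine h f ?_ ⟨hf, ?_, ?_, ?_⟩
  · set D : ℕ := Finset.univ.sup (fun j => (p j).natDegree) + 1 with hDdef
    have hD : ∀ j, (p j).natDegree < D := fun j =>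
      Nat.lt_succ_of_le (Finset.le_sup (f := fun j => (p j).natDegree) (Finset.mem_univ j))
    refine ⟨D, fun j i z => (p j).coeff i * Complex.exp z ^ (i : ℕ), fun j i => ?_, ?_⟩
    · by_cases h0 : (p j).coeff i = 0
      · left
        intro z
        change (p j).coeff i * Complex.exp z ^ (i : ℕ) = 0
        rw [h0, zero_mul]
      · right
        exact ⟨(Complex.differentiable_exp.pow _).const_mul _, fun z =>
          mul_ne_zero h0 (pow_ne_zero _ (Complex.exp_ne_zero _))⟩
    · filter_upwards [hr'] with z hz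
      have h3 : (fun j => ∑ i : Fin D, (p j).coeff i * Complex.exp z ^ (i : ℕ)) =
          fun j => (p j).eval (Complex.exp z) := by
        funext j
        rw [Polynomial.eval_eq_sum_range' (hD j), Finset.sum_range]
      rw [h3]
      exact hz
  · refine pts_of_codis hf ?_
    filter_upwards [hr'] with z hz
    refine (mem_pts hz).2 fun F hF hFh => ?_
    rw [← Polynomial.eval_zero (x := Complex.exp z), ← h1 F hF hFh]
    have h7 := eval₂_comp_left (Polynomial.evalRingHom (Complex.exp z)) (Polynomial.C.comp σ) p F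
    rw [Polynomial.coe_evalRingHom] at h7
    rw [h7]
    congr 1
    ext x
    simp
  · -- nonconstant
    by_contra hcon
    push Not at hcon
    obtain ⟨w, hw1, hw2⟩ := (hr'.and (hcod _ hj1)).exists
    apply hnc
    have h2 : ∀ j, p j * Polynomial.C ((p j1).eval (Complex.exp w)) =
        p j1 * Polynomial.C ((p j).eval (Complex.exp w)) := by
      intro j
      by_contra hne
      obtain ⟨z, hz1, hz2⟩ := (hr'.and (hcod _ (sub_ne_zero.2 hne))).exists
      apply hz2
      rw [hcon z w] at hz1
      have := ((rep_iff hz1).1 hw1).2 j j1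
      simp only [Polynomial.eval_sub, Polynomial.eval_mul, Polynomial.eval_C]
      linear_combination this
    have h3 : ∀ j i, (p j).coeff i * (p j1).eval (Complex.exp w) =
        (p j1).coeff i * (p j).eval (Complex.exp w) := by
      intro j i
      have := congrArg (fun q => Polynomial.coeff q i) (h2 j)
      simpa only [Polynomial.coeff_mul_C] using this
    apply mul_right_cancel₀ (mul_ne_zero hw2 hw2)
    linear_combination (p k0).coeff i1 * (p j1).eval (Complex.exp w) * h3 j0 i0 -
      (p j0).coeff i1 * (p j1).eval (Complex.exp w) * h3 k0 i0 +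
      (p j1).coeff i0 * (p j0).eval (Complex.exp w) * h3 k0 i1 -
      (p j1).coeff i0 * (p k0).eval (Complex.exp w) * h3 j0 i1
  · by_contra hcon
    push Not at hcon
    obtain ⟨z, hz1, hz2⟩ := (hr'.and (hcod _ hGne)).exists
    apply hz2
    have h7 := eval₂_comp_left (Polynomial.evalRingHom (Complex.exp z)) (Polynomial.C.comp σ) p G
    rw [Polynomial.coe_evalRingHom] at h7
    rw [h7]
    have h8 := (mem_pts hz1).1 (hcon z) G hG hGh
    rw [← h8]
    congr 1
    ext x
    simp

end Pool.Agent.T2H23.LG
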