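import Mathlib
import Pool.Agent.T2H23.LG.Stm

/-!
Definitions: orbits of one-parameter groups of diagonal matrices, special sets, and the equivalence of
the conditions in Lang's conjecture for a projective variety.
-/

set_option autoImplicit false

namespace Pool.Agent.T2H23.LG

open MvPolynomial Filter Pool.Agent.T2H23.EL
open scoped LinearAlgebra.Projectivization

variable {N : ℕ}

section

variable {K : Type} [Field K]

/-- All nonconstant orbits `t ↦ (t ^ b_0 x_0 : … : t ^ b_N x_N)` of the one-parameter groups of
diagonal matrices in `X`, over the field `A`, lie in `Z`. -/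
def OrbitsIn {A : Type} [Field A] (φ : K →+* A) (I I' : Ideal (MvPolynomial (Fin (N + 1)) K)) :
    Prop :=
  ∀ (x : Fin (N + 1) → A) (b : Fin (N + 1) → ℤ), (∃ j k, x j ≠ 0 ∧ x k ≠ 0 ∧ b j ≠ b k) →
    (∀ t : A, t ≠ 0 → Zero φ I fun j => t ^ b j * x j) →
      ∀ t : A, t ≠ 0 → Zero φ I' fun j => t ^ b j * x j

/-- For all finite extensions `L` of `K`, all nonconstant orbits of one-parameter groups of diagonal
matrices in `X`, defined over `L`, lie in `Z`. -/
def NoOrbit (I I' : Ideal (MvPolynomial (Fin (N + 1)) K)) : Prop :=
  ∀ (L : Type) [Field L] [NumberField L] [Algebra K L], OrbitsIn (algebraMap K L) I I'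

/-- Every form in `I'` belongs to `I''`: the variety `Z` of `I'` contains the variety of `I''`. -/
def FormsIn (I' I'' : Ideal (MvPolynomial (Fin (N + 1)) K)) : Prop :=
  ∀ G ∈ I', (∃ d, G.IsHomogeneous d) → G ∈ I''

/-- For all finite extensions `L` of `K`, the number of the points of `X(L)` outside of `Z` of
absolute height at most `B` is `O(B ^ κ)` (the relative height over `L` of these points is at most
`B ^ [L : ℚ]`). -/
def FewPoints (κ : ℝ) (I I' : Ideal (MvPolynomial (Fin (N + 1)) K)) : Prop :=
  ∀ (L : Type) [Field L] [NumberField L] [Algebra K L], ∃ C : ℝ, ∀ B : ℝ, 1 ≤ B →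
    {c ∈ Pts (algebraMap K L) I \ Pts (algebraMap K L) I' |
      c.mulHeight ≤ B ^ Module.finrank ℚ L}.Finite ∧
    ({c ∈ Pts (algebraMap K L) I \ Pts (algebraMap K L) I' |
      c.mulHeight ≤ B ^ Module.finrank ℚ L}.ncard : ℝ) ≤ C * B ^ κ

/-- Lang's equivalence for the projective variety `X` of the ideal `I`, relative to all closed
subsets: There is a closed subset `S` of `X`, defined over `K`, such that for all embeddings `σ` and
all closed sets `Z`, defined over `K`, the following are equivalent: `Z` contains `S`; all nonconstant
entire curves in `X_σ` lie in `Z_σ`; all nonconstant orbits of one-parameter groups of diagonal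
matrices in `X`, defined over number fields, lie in `Z`; so do all rational curves, and all images
of elliptic curves; there are only finitely many points of `X(L)` outside of `Z` which are given by
sums of units with coefficients of small height; or which have homogeneous coordinates in `Γ ∪ {0}`;
and the number of those of height at most `H` is `o(log H)`. These conditions hold if the number of
the points of `X(L)` outside of `Z` of absolute height at most `B` is `O(B ^ κ)`, in particular if
it is finite. -/
def OrbitLang (κ : ℝ) (I : Ideal (MvPolynomial (Fin (N + 1)) K)) : Prop :=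
  ∃ J : Ideal (MvPolynomial (Fin (N + 1)) K), FormsIn I J ∧
    ∀ (σ : K →+* ℂ) (I' : Ideal (MvPolynomial (Fin (N + 1)) K)),
      [FormsIn I' J, Hyperbolic σ I I', NoOrbit I I', NoRational I I', NoGenusOne I I',
        ShortFinite I I', UnitFinite I I', UnitSlow I I'].TFAE ∧
      (FewPoints κ I I' → Hyperbolic σ I I') ∧ (Finiteness I I' → FewPoints κ I I')

end

end Pool.Agent.T2H23.LG
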