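import Pool.Agent.T2H23.LG.Short
import Pool.Agent.T2H23.LG.Pts
import Pool.Agent.T2H23.LG.Ent

/-!
The equivalence of hyperbolicity and finiteness of rational points for sums of units.
-/

set_option autoImplicit false

namespace Pool.Agent.T2H23.LG

open MvPolynomial Filter Pool.Agent.T2H23.EL
open scoped LinearAlgebra.Projectivization

variable {N : ℕ} {K : Type} [Field K] {I I' : Ideal (MvPolynomial (Fin (N + 1)) K)}

theorem sumFinite_of_short (h : ShortFinite I I') : SumFinite I I' := by
  intro L _ _ _ Γ hΓ r
  obtain ⟨δ, hδ, hfin⟩ := h L Γ hΓ r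
  exact hfin.subset (Set.inter_subset_inter_left _ (sumPts_sub hδ))

theorem main [NumberField K] (σ : K →+* ℂ) (I I' : Ideal (MvPolynomial (Fin (N + 1)) K)) :
    [UnitHyperbolic σ I I', NoRational I I', ShortFinite I I', SumFinite I I',
      SumSlow I I'].TFAE ∧
    (Hyperbolic σ I I' → ShortFinite I I') ∧ (Finiteness I I' → SubPolynomial I I') ∧
    (SubPolynomial I I' → ShortFinite I I') := by
  have key : [UnitHyperbolic σ I I', NoRational I I', ShortFinite I I', SumFinite I I',
      SumSlow I I'].TFAE := by
    tfae_have 1 → 2 := fun h => noRational_of_rat (rat_of_unitHyp h)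
    tfae_have 2 → 1 := fun h => unitHyp_of_rat (ratCurves_of_noRational h σ)
    tfae_have 2 → 3 := short_of_noRational
    tfae_have 3 → 4 := sumFinite_of_short
    tfae_have 4 → 5 := sumSlow_of_finite
    tfae_have 5 → 2 := noRational_of_sumSlow
    tfae_finish
  refine ⟨key, fun h => ?_, subPolynomial_of_finiteness, fun h =>
    short_of_noRational (noRational_of_subPolynomial h)⟩
  exact (key.out 0 2).1 fun f _ => h f

end Pool.Agent.T2H23.LG
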