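import Mathlib
import Pool.Agent.T2H23.LG.OStm
import Pool.Agent.T2H23.LG.UMain

/-!
Orbits of one-parameter groups of diagonal matrices.
-/

set_option autoImplicit false

namespace Pool.Agent.T2H23.LG

open MvPolynomial Filter Pool.Agent.T2H23.EL Pool.Agent.TH143.HE
open scoped LinearAlgebra.Projectivization

variable {N : ℕ} {K : Type} [Field K] {I I' : Ideal (MvPolynomial (Fin (N + 1)) K)}

/-- specialization, keeping the supports -/
theorem spec_supp {R : Type} [CommRing R] {k E : Type} [Field k] [Field E] [Algebra k E]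
    (φ : R →+* k) {I I' : Ideal (MvPolynomial (Fin (N + 1)) R)} {p : Fin (N + 1) → Polynomial E}
    (h : RCur ((algebraMap k E).comp φ) I I' p) :
    ∃ (L : Type) (_ : Field L) (_ : Algebra k L) (_ : FiniteDimensional k L)
      (p' : Fin (N + 1) → Polynomial L), RCur ((algebraMap k L).comp φ) I I' p' ∧
        ∀ j i, (p j).coeff i = 0 → (p' j).coeff i = 0 := by
  classical
  obtain ⟨h1, ⟨G', hG', hGh, hne⟩, j, j', i, i', hc⟩ := h
  set cc : E := (p j).coeff i * (p j').coeff i' - (p j').coeff i * (p j).coeff i' with hcc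
  have hcc0 : cc ≠ 0 := sub_ne_zero.2 hc
  let s : Finset E := (Finset.univ.biUnion fun j => (p j).coeffs) ∪
    {cc⁻¹, (eval₂ (Polynomial.C.comp ((algebraMap k E).comp φ)) p G').leadingCoeff⁻¹}
  let A := Algebra.adjoin k (s : Set E)
  have hs : ∀ x ∈ s, x ∈ A := fun x hx => Algebra.subset_adjoin hx
  have hA : Algebra.FiniteType k A :=
    ⟨(Subalgebra.fg_top A).2 ⟨s, rfl⟩⟩
  obtain ⟨m, hm⟩ := Ideal.exists_maximal A
  let _ : Field (A ⧸ m) := Ideal.Quotient.field m
  have hft : Algebra.FiniteType k (A ⧸ m) :=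
    Algebra.FiniteType.of_surjective (Ideal.Quotient.mkₐ k m) Ideal.Quotient.mk_surjective
  have hfin : Module.Finite k (A ⧸ m) := finite_of_finite_type_of_isJacobsonRing k (A ⧸ m)
  let θ : A →ₐ[k] A ⧸ m := Ideal.Quotient.mkₐ k m
  -- lifts
  have hlift : ∀ j, ∃ q : Polynomial A, q.map (algebraMap A E) = p j := by
    intro j
    have h2 : p j ∈ Polynomial.lifts (algebraMap A E) := by
      rw [Polynomial.lifts_iff_coeff_lifts]
      intro t
      by_cases ht : (p j).coeff t = 0
      · exact ⟨0, by rw [ht, map_zero]⟩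
      · refine ⟨⟨(p j).coeff t, hs _ ?_⟩, rfl⟩
        exact Finset.mem_union_left _ (Finset.mem_biUnion.2
          ⟨j, Finset.mem_univ _, Polynomial.coeff_mem_coeffs ht⟩)
    exact (Polynomial.mem_lifts _).1 h2
  choose P hP using hlift
  have hinj : Function.Injective (algebraMap A E) := Subtype.val_injective
  have hcur : ∀ G, (eval₂ (Polynomial.C.comp ((algebraMap k A).comp φ)) P G).map
      (algebraMap A E) = eval₂ (Polynomial.C.comp ((algebraMap k E).comp φ)) p G := by
    intro G
    rw [eval₂_map']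
    congr 1
    funext j
    exact hP j
  have hcur' : ∀ G, (eval₂ (Polynomial.C.comp ((algebraMap k A).comp φ)) P G).map
      (θ : A →+* A ⧸ m) = eval₂ (Polynomial.C.comp ((algebraMap k (A ⧸ m)).comp φ))
        (fun j => (P j).map (θ : A →+* A ⧸ m)) G := by
    intro G
    rw [eval₂_map']
    congr 1
  have hunit : ∀ x : A, ((x : E))⁻¹ ∈ s → (x : E) ≠ 0 → θ x ≠ 0 := by
    intro x hx hx0 h0
    have h2 : x * ⟨_, hs _ hx⟩ = 1 := Subtype.ext (mul_inv_cancel₀ hx0)
    have h3 := congrArg θ h2
    rw [map_mul, h0, zero_mul, map_one] at h3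
    exact zero_ne_one h3
  have hPc : ∀ j i, (((P j).coeff i : A) : E) = (p j).coeff i := by
    intro j i
    rw [← hP j, Polynomial.coeff_map]
    rfl
  refine ⟨A ⧸ m, inferInstance, inferInstance, hfin, fun j => (P j).map (θ : A →+* A ⧸ m),
    ⟨fun G hG hGf => ?_, ⟨G', hG', hGh, ?_⟩, j, j', i, i', ?_⟩, fun l t ht => ?_⟩
  · have h2 : eval₂ (Polynomial.C.comp ((algebraMap k A).comp φ)) P G = 0 := by
      apply Polynomial.map_injective _ hinj
      rw [hcur, h1 G hG hGf, Polynomial.map_zero]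
    rw [← hcur', h2, Polynomial.map_zero]
  · rw [← hcur']
    intro h0
    set q := eval₂ (Polynomial.C.comp ((algebraMap k A).comp φ)) P G' with hq
    have h2 : (q.leadingCoeff : E) =
        (eval₂ (Polynomial.C.comp ((algebraMap k E).comp φ)) p G').leadingCoeff := by
      rw [← hcur, Polynomial.leadingCoeff_map_of_injective hinj]
      rfl
    refine hunit q.leadingCoeff ?_ ?_ ?_
    · rw [h2]
      simp [s]
    · rw [h2]
      exact coeffs_inv hne
    · have h3 := congrArg (fun f => Polynomial.coeff f q.natDegree) h0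
      simp only [Polynomial.coeff_map, Polynomial.coeff_zero] at h3
      exact h3
  · simp only [Polynomial.coeff_map]
    intro h0
    have h2 : (((P j).coeff i * (P j').coeff i' - (P j').coeff i * (P j).coeff i' : A) : E) =
        cc := by
      rw [hcc, ← hPc, ← hPc, ← hPc, ← hPc]
      rfl
    refine hunit ((P j).coeff i * (P j').coeff i' - (P j').coeff i * (P j).coeff i') ?_ ?_ ?_
    · rw [h2]
      simp [s]
    · rw [h2]
      exact hcc0
    · rw [map_sub, map_mul, map_mul, sub_eq_zero]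
      exact h0
  · have h2 : (P l).coeff t = 0 := Subtype.ext ((hPc l t).trans ht)
    rw [Polynomial.coeff_map, h2, map_zero]

/-- the monomial curve -/
noncomputable def mono {A : Type} [Field A] (x : Fin (N + 1) → A) (b : Fin (N + 1) → ℕ) :
    Fin (N + 1) → Polynomial A :=
  fun j => Polynomial.C (x j) * Polynomial.X ^ b j

theorem mono_eval {A : Type} [Field A] (x : Fin (N + 1) → A) (b : Fin (N + 1) → ℕ) (t : A) :
    (fun j => (mono x b j).eval t) = fun j => t ^ b j * x j := by
  funext j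
  unfold mono
  rw [Polynomial.eval_mul, Polynomial.eval_C, Polynomial.eval_pow, Polynomial.eval_X, mul_comm]

theorem mono_coeff {A : Type} [Field A] (x : Fin (N + 1) → A) (b : Fin (N + 1) → ℕ) (j i) :
    (mono x b j).coeff i = if i = b j then x j else 0 := by
  unfold mono
  rw [Polynomial.coeff_C_mul_X_pow]

theorem eval₂_scale {A : Type} [Field A] (φ : K →+* A) {G : MvPolynomial (Fin (N + 1)) K} {d : ℕ}
    (hG : G.IsHomogeneous d) (c : A) (v : Fin (N + 1) → A) :
    eval₂ φ (fun j => c * v j) G = c ^ d * eval₂ φ v G := by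
  rw [eval₂_eq, eval₂_eq, Finset.mul_sum]
  refine Finset.sum_congr rfl fun s hs => ?_
  have h1 : ∑ i ∈ s.support, s i = d := by
    have := hG (mem_support_iff.1 hs)
    rw [Finsupp.weight_apply] at this
    simpa [Finsupp.sum] using this
  simp only [mul_pow, Finset.prod_mul_distrib]
  rw [Finset.prod_pow_eq_pow_sum, h1]
  ring

/-- orbits as monomial curves -/
theorem orbitsIn_iff {A : Type} [Field A] [Infinite A] {φ : K →+* A} :
    OrbitsIn φ I I' ↔ ∀ (x : Fin (N + 1) → A) (b : Fin (N + 1) → ℕ), ¬ RCur φ I I' (mono x b) := by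
  classical
  constructor
  · rintro h x b ⟨h1, ⟨G, hG, hGh, hne⟩, j, k, i, i', hc⟩
    have h2 : ∃ j k, x j ≠ 0 ∧ x k ≠ 0 ∧ (b j : ℤ) ≠ b k := by
      simp only [mono_coeff] at hc
      refine ⟨j, k, ?_, ?_, ?_⟩
      · intro h0
        apply hc
        simp [h0]
      · intro h0
        apply hc
        simp [h0]
      · intro h0
        apply hc
        have h3 : b j = b k := by exact_mod_cast h0
        rw [h3]
        by_cases h4 : i = b k <;> by_cases h5 : i' = b k <;> simp [h4, h5, mul_comm]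
    have h3 : ∀ (J : Ideal (MvPolynomial (Fin (N + 1)) K)) (t : A),
        (Zero φ J fun j => t ^ (b j : ℤ) * x j) ↔ Zero φ J fun j => (mono x b j).eval t := by
      intro J t
      rw [mono_eval]
      simp only [zpow_natCast]
    have h4 : ∀ t : A, t ≠ 0 → Zero φ I' fun j => (mono x b j).eval t := by
      intro t ht
      rw [← h3]
      refine h x (fun j => (b j : ℤ)) h2 (fun s _ => ?_) t ht
      rw [h3]
      intro H hH hHh
      rw [← eval₂_eval, h1 H hH hHh, Polynomial.eval_zero]
    apply hne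
    have h5 : (eval₂ (Polynomial.C.comp φ) (mono x b) G * Polynomial.X) = 0 := by
      apply Polynomial.funext
      intro t
      rw [Polynomial.eval_mul, Polynomial.eval_X, Polynomial.eval_zero]
      by_cases ht : t = 0
      · rw [ht, mul_zero]
      · rw [eval₂_eval, h4 t ht G hG hGh, zero_mul]
    exact (mul_eq_zero.1 h5).resolve_right Polynomial.X_ne_zero
  · rintro h x b ⟨j0, k0, hj0, hk0, hb0⟩ hX
    by_contra hcon
    push Not at hcon
    obtain ⟨t0, ht0, hZ⟩ := hcon
    obtain ⟨M, hM⟩ : ∃ M : ℤ, ∀ j, 0 ≤ b j + M := by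
      refine ⟨∑ j, |b j|, fun j => ?_⟩
      have h1 := Finset.single_le_sum (f := fun j => |b j|) (fun i _ => abs_nonneg _)
        (Finset.mem_univ j)
      have h2 := neg_abs_le (b j)
      linarith
    obtain ⟨b', hb'⟩ : ∃ b' : Fin (N + 1) → ℕ, ∀ j, (b' j : ℤ) = b j + M :=
      ⟨fun j => (b j + M).toNat, fun j => Int.toNat_of_nonneg (hM j)⟩
    have h3 : ∀ t : A, t ≠ 0 → (fun j => (mono x b' j).eval t) = fun j => t ^ M * (t ^ b j * x j) := by
      intro t ht
      rw [mono_eval]
      funext j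
      rw [← mul_assoc, ← zpow_add₀ ht, add_comm M, ← hb', zpow_natCast]
    have h4 : ∀ (G : MvPolynomial (Fin (N + 1)) K) (d : ℕ), G.IsHomogeneous d → ∀ t : A, t ≠ 0 →
        (eval₂ (Polynomial.C.comp φ) (mono x b') G).eval t = (t ^ M) ^ d *
          eval₂ φ (fun j => t ^ b j * x j) G := by
      intro G d hG t ht
      rw [eval₂_eval, h3 t ht, eval₂_scale φ hG]
    refine h x b' ⟨fun G hG hGh => ?_, ?_, ?_⟩
    · obtain ⟨d, hd⟩ := hGh
      have h5 : (eval₂ (Polynomial.C.comp φ) (mono x b') G * Polynomial.X) = 0 := by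
        apply Polynomial.funext
        intro t
        rw [Polynomial.eval_mul, Polynomial.eval_X, Polynomial.eval_zero]
        by_cases ht : t = 0
        · rw [ht, mul_zero]
        · rw [h4 G d hd t ht, hX t ht G hG ⟨d, hd⟩, mul_zero, zero_mul]
      exact (mul_eq_zero.1 h5).resolve_right Polynomial.X_ne_zero
    · unfold Pool.Agent.T2H23.EL.Zero at hZ
      push Not at hZ
      obtain ⟨G, hG, ⟨d, hd⟩, hne⟩ := hZ
      refine ⟨G, hG, ⟨d, hd⟩, fun h0 => ?_⟩
      have h5 := h4 G d hd t0 ht0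
      rw [h0, Polynomial.eval_zero] at h5
      exact mul_ne_zero (pow_ne_zero _ (zpow_ne_zero _ ht0)) hne h5.symm
    · refine ⟨j0, k0, b' j0, b' k0, ?_⟩
      have h5 : b' j0 ≠ b' k0 := by
        intro h5
        apply hb0
        have h6 : (b' j0 : ℤ) = b' k0 := by rw [h5]
        rw [hb', hb'] at h6
        linarith
      simp only [mono_coeff, if_true]
      rw [if_neg h5, zero_mul]
      exact mul_ne_zero hj0 hk0

theorem orbitsIn_of_noOrbit [NumberField K] (h : NoOrbit I I') (σ : K →+* ℂ) :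
    OrbitsIn σ I I' := by
  classical
  let _ : Algebra K ℂ := σ.toAlgebra
  rw [orbitsIn_iff]
  intro x b hp
  have hp1 : RCur ((algebraMap K ℂ).comp (RingHom.id K)) I I' (mono x b) := hp
  obtain ⟨L, _, _, _, p', hp', hsupp⟩ := spec_supp (k := K) (E := ℂ) (RingHom.id K) hp1
  have hchar : CharZero L := charZero_of_injective_algebraMap (algebraMap K L).injective
  have hfin : FiniteDimensional ℚ L := FiniteDimensional.trans ℚ K L
  have hnf : NumberField L := ⟨⟩
  rw [RingHom.comp_id] at hp'
  have h1 : p' = mono (fun j => (p' j).coeff (b j)) b := by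
    funext j
    ext i
    rw [mono_coeff]
    split_ifs with hi
    · rw [hi]
    · refine hsupp j i ?_
      rw [mono_coeff, if_neg hi]
  have h2 := orbitsIn_iff.1 (h L) (fun j => (p' j).coeff (b j)) b
  rw [← h1] at h2
  exact h2 hp'

theorem noOrbit_of_noRational (h : NoRational I I') : NoOrbit I I' := by
  intro L _ _ _
  rw [orbitsIn_iff]
  intro x b
  exact noLine_iff.1 (h L) _

theorem unitFinite_of_sum (h : SumFinite I I') : UnitFinite I I' := fun L _ _ _ Γ hΓ => h L Γ hΓ 1

theorem unitSlow_of_finite (h : UnitFinite I I') : UnitSlow I I' :=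
  fun L _ _ _ Γ hΓ => slow_of_finite (h L Γ hΓ)

theorem noOrbit_of_unitSlow (h : UnitSlow I I') : NoOrbit I I' := by
  classical
  intro L _ _ _
  rw [orbitsIn_iff]
  intro x b hp
  have h20 : (2 : L) ≠ 0 := two_ne_zero
  obtain ⟨Γ, hΓ, h2Γ, hcΓ⟩ := exists_group h20 (Finset.univ.image x)
  refine slow_contra hp (SumPts Γ 1 ∩ (Pts (algebraMap K L) I \ Pts (algebraMap K L) I'))
    (fun m c hc hr => ⟨?_, hc⟩) (h L Γ hΓ)
  rw [mono_eval] at hr
  refine ⟨fun j _ => ((2 : L) ^ m) ^ b j * x j, fun j i => ?_, ?_⟩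
  · by_cases hx : x j = 0
    · left
      change ((2 : L) ^ m) ^ b j * x j = 0
      rw [hx, mul_zero]
    · right
      refine ⟨(Units.mk0 2 h20) ^ (m * b j) * Units.mk0 (x j) hx,
        Γ.mul_mem (Γ.pow_mem h2Γ _) (hcΓ _ (Finset.mem_image_of_mem _ (Finset.mem_univ _)) hx), ?_⟩
      change ((2 : L) ^ m) ^ b j * x j = _
      rw [Units.val_mul, Units.val_pow_eq_pow_val, Units.val_mk0, Units.val_mk0, pow_mul]
  · have h3 : (fun j => ∑ _i : Fin 1, ((2 : L) ^ m) ^ b j * x j) =
        fun j => ((2 : L) ^ m) ^ b j * x j := by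
      funext j
      rw [Fin.sum_univ_one]
    rw [h3]
    exact hr

end Pool.Agent.T2H23.LG
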