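import Mathlib
import Pool.Agent.T2H23.LG.OStm

/-!
Definitions: lines, and the varieties of the vectors whose powers are values of polynomials.
-/

set_option autoImplicit false

namespace Pool.Agent.T2H23.LG

open MvPolynomial Filter Pool.Agent.T2H23.EL
open scoped LinearAlgebra.Projectivization

variable {N : ℕ}

section

variable {K : Type} [Field K]

/-- All lines in `X`, over the field `A`, lie in `Z`. -/
def LinesIn {A : Type} [Field A] (φ : K →+* A) (I I' : Ideal (MvPolynomial (Fin (N + 1)) K)) :
    Prop :=
  ∀ p q : Fin (N + 1) → A, LinearIndependent A ![p, q] →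
    (∀ s t : A, Zero φ I (s • p + t • q)) → ∀ s t : A, Zero φ I' (s • p + t • q)

/-- For all finite extensions `L` of `K`, all lines in `X` which are defined over `L` lie in `Z`. -/
def NoLines (I I' : Ideal (MvPolynomial (Fin (N + 1)) K)) : Prop :=
  ∀ (L : Type) [Field L] [NumberField L] [Algebra K L], LinesIn (algebraMap K L) I I'

/-- For all finite extensions `L` of `K`, the number of the points of `X(L)` outside of `Z` of
absolute height at most `B` is `o(B ^ 2)` (the relative height over `L` of these points is at most
`H = B ^ [L : ℚ]`). -/
def SubQuadratic (I I' : Ideal (MvPolynomial (Fin (N + 1)) K)) : Prop :=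
  ∀ (L : Type) [Field L] [NumberField L] [Algebra K L] (ε : ℝ), 0 < ε → ∃ C : ℝ, ∀ B : ℝ, 1 ≤ B →
    {c ∈ Pts (algebraMap K L) I \ Pts (algebraMap K L) I' |
      c.mulHeight ≤ B ^ Module.finrank ℚ L}.Finite ∧
    ({c ∈ Pts (algebraMap K L) I \ Pts (algebraMap K L) I' |
      c.mulHeight ≤ B ^ Module.finrank ℚ L}.ncard : ℝ) ≤ ε * B ^ 2 + C

/-- The ideal generated by the `∑ l_i x_i ^ m` for the linear relations `∑ l_i H(a_i) = 0` between
the values at the `a_i` of the polynomials `H` of degree at most `n`: it defines the projective
variety of the vectors `x` for which there is a polynomial `H` of degree at most `n` with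
`x_i ^ m = H(a_i)` for all `i`. For `m = n = 2` and `a_i = i` this is Büchi's surface. -/
noncomputable def powerValues (a : Fin (N + 1) → K) (n m : ℕ) :
    Ideal (MvPolynomial (Fin (N + 1)) K) :=
  Ideal.span {G | ∃ l : Fin (N + 1) → K, (∀ j ≤ n, ∑ i, l i * a i ^ j = 0) ∧
    G = ∑ i, C (l i) * X i ^ m}

/-- Lang's equivalence for the projective variety `X` of the ideal `I`, relative to all closed
subsets, if all entire curves lie in the closure of the union of the lines: There is a closed subset
`S` of `X`, defined over `K`, such that for all embeddings `σ` and all closed sets `Z`, defined over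
`K`, the following are equivalent: `Z` contains `S`; all nonconstant entire curves in `X_σ` lie in
`Z_σ`; all lines in `X` which are defined over number fields lie in `Z`; so do all rational curves,
and all images of elliptic curves; there are only finitely many points of `X(L)` outside of `Z` which
are given by sums of units with coefficients of small height; or by sums of units; and the number of
those of height at most `H` is `o(log H)`. These conditions hold if the number of the points of
`X(L)` outside of `Z` of absolute height at most `B` is `o(B ^ 2)`, in particular if it is finite. -/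
def LineLang (I : Ideal (MvPolynomial (Fin (N + 1)) K)) : Prop :=
  ∃ J : Ideal (MvPolynomial (Fin (N + 1)) K), FormsIn I J ∧
    ∀ (σ : K →+* ℂ) (I' : Ideal (MvPolynomial (Fin (N + 1)) K)),
      [FormsIn I' J, Hyperbolic σ I I', NoLines I I', NoRational I I', NoGenusOne I I',
        ShortFinite I I', SumFinite I I', SumSlow I I'].TFAE ∧
      (SubQuadratic I I' → Hyperbolic σ I I') ∧ (Finiteness I I' → SubQuadratic I I')

end

end Pool.Agent.T2H23.LG
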