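import Mathlib
import Pool.Agent.T2H23.LG.Many

/-!
The number of the points of bounded height on lines.
-/

set_option autoImplicit false

namespace Pool.Agent.T2H23.LG

open Finset Filter Topology MvPolynomial Height Pool.Agent.T2H23.EL Pool.Agent.TH143.HE
open scoped LinearAlgebra.Projectivization

variable {L : Type} [Field L] [NumberField L] {N : ℕ}

theorem totalWeight_eq : totalWeight L = Module.finrank ℚ L := by
  have h1 := NumberField.prod_archAbsVal_eq (K := L) (M := ℕ) fun _ => 2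
  rw [Multiset.map_const', Multiset.prod_replicate, Finset.prod_pow_eq_pow_sum,
    NumberField.InfinitePlace.sum_mult_eq] at h1
  exact Nat.pow_right_injective le_rfl h1

/-- vectors with the entries `0` and `1` -/
theorem height_ind {ι : Type} [Finite ι] (P : ι → Prop) [DecidablePred P] :
    mulHeight (fun i => if P i then (1 : L) else 0) ≤ 1 := by
  have h1 : (fun i => if P i then (1 : L) else 0) =
      (![0, 1] : Fin 2 → L) ∘ fun i => if P i then 1 else 0 := by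
    funext i
    simp only [Function.comp]
    split_ifs <;> rfl
  rw [h1]
  refine (mulHeight_comp_le _ _).trans ?_
  have h2 : mulHeight (![0, 1] : Fin 2 → L) = mulHeight₁ (0 : L) := by
    rw [mulHeight₁_eq_mulHeight]
  rw [h2, mulHeight₁_zero]

theorem height_pair {s t T : ℕ} (hT : 0 < T) (hs : s ≤ T) (ht : t ≤ T) :
    mulHeight (![(t : L), (s : L)] : Fin 2 → L) ≤ (T : ℝ) ^ totalWeight L := by
  classical
  have : Nonempty (Fin T) := ⟨⟨0, hT⟩⟩
  let P : Fin 2 × Fin T → Prop := fun a => (a.2 : ℕ) < (![t, s] : Fin 2 → ℕ) a.1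
  have h1 := mulHeight_linearMap_apply_le (fun a => if P a then (1 : L) else 0)
    (fun _ : Fin T => (1 : L))
  have h2 : (fun j => ∑ i, (if P (j, i) then (1 : L) else 0) * 1) =
      (![(t : L), (s : L)] : Fin 2 → L) := by
    funext j
    simp only [mul_one]
    rw [Finset.sum_boole]
    have h3 : ∀ u : ℕ, u ≤ T → (Finset.univ.filter fun i : Fin T => (i : ℕ) < u).card = u := by
      intro u hu
      rw [Fin.card_filter_val_lt]
      omega
    fin_cases j
    · change ((Finset.univ.filter fun i : Fin T => (i : ℕ) < t).card : L) = (t : L)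
      rw [h3 t ht]
    · change ((Finset.univ.filter fun i : Fin T => (i : ℕ) < s).card : L) = (s : L)
      rw [h3 s hs]
  rw [h2] at h1
  refine h1.trans ?_
  have h3 := height_ind (L := L) P
  have h4 : mulHeight (fun _ : Fin T => (1 : L)) ≤ 1 := by
    have := height_ind (L := L) (ι := Fin T) fun _ => True
    simp at this ⊢
  rw [Nat.card_eq_fintype_card, Fintype.card_fin]
  have h5 : (0 : ℝ) ≤ (T : ℝ) ^ totalWeight L := by positivity
  have h6 := mulHeight_pos (fun a => if P a then (1 : L) else 0)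
  have h7 := mulHeight_pos (fun _ : Fin T => (1 : L))
  calc (T : ℝ) ^ totalWeight L * mulHeight (fun a => if P a then (1 : L) else 0) *
        mulHeight (fun _ : Fin T => (1 : L)) ≤ (T : ℝ) ^ totalWeight L * 1 * 1 := by gcongr
    _ = _ := by ring

theorem height_ratio {s t T : ℕ} (hs0 : 0 < s) (hs : s ≤ T) (ht : t ≤ T) :
    mulHeight₁ ((t : L) / s) ≤ (T : ℝ) ^ totalWeight L := by
  have hs1 : (s : L) ≠ 0 := Nat.cast_ne_zero.2 hs0.ne'
  rw [mulHeight₁_eq_mulHeight]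
  have h1 : (![(t : L) / s, 1] : Fin 2 → L) = (s : L)⁻¹ • ![(t : L), (s : L)] := by
    funext j
    fin_cases j
    · simp [div_eq_inv_mul]
    · simp [inv_mul_cancel₀ hs1]
  rw [h1, mulHeight_smul_eq_mulHeight _ (inv_ne_zero hs1)]
  exact height_pair (by omega) hs ht

/-- the coprime pairs -/
def cop (T : ℕ) : Finset (ℕ × ℕ) :=
  (Finset.Ioc 0 T ×ˢ Finset.Ioc 0 T).filter fun a => Nat.Coprime a.1 a.2

theorem sum_sq (T : ℕ) (hT : 1 ≤ T) :
    ∑ d ∈ Finset.Icc 2 T, 1 / (d : ℝ) ^ 2 ≤ 2 / 3 - 1 / ((T : ℝ) + 1 / 2) := by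
  induction T with
  | zero => omega
  | succ T ih =>
    rcases Nat.eq_zero_or_pos T with rfl | hT
    · norm_num
    · rw [← Finset.insert_Icc_right_eq_Icc_add_one (by omega), Finset.sum_insert (by simp)]
      have h1 := ih hT
      have h2 : 1 / ((T + 1 : ℕ) : ℝ) ^ 2 ≤ 1 / ((T : ℝ) + 1 / 2) -
          1 / (((T + 1 : ℕ) : ℝ) + 1 / 2) := by
        have h3 : (0 : ℝ) < (T : ℝ) := by exact_mod_cast hT
        push_cast
        rw [div_sub_div _ _ (by positivity) (by positivity), div_le_div_iff₀ (by positivity)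
          (by positivity)]
        nlinarith
      linarith

theorem cop_card (T : ℕ) (hT : 1 ≤ T) : (T : ℝ) ^ 2 / 3 ≤ ((cop T).card : ℝ) := by
  classical
  set P : Finset (ℕ × ℕ) := Finset.Ioc 0 T ×ˢ Finset.Ioc 0 T with hP
  have h1 : P.filter (fun a => ¬ Nat.Coprime a.1 a.2) ⊆ (Finset.Icc 2 T).biUnion fun d =>
      ((Finset.Ioc 0 T).filter fun x => d ∣ x) ×ˢ ((Finset.Ioc 0 T).filter fun x => d ∣ x) := by
    rintro ⟨s, t⟩ hst
    rw [Finset.mem_filter, hP, Finset.mem_product] at hst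
    obtain ⟨⟨hs, ht⟩, hg⟩ := hst
    simp only at hs ht hg
    rw [Finset.mem_biUnion]
    have hgpos : 0 < Nat.gcd s t := Nat.gcd_pos_of_pos_left _ (Finset.mem_Ioc.1 hs).1
    refine ⟨Nat.gcd s t, ?_, ?_⟩
    · rw [Finset.mem_Icc]
      refine ⟨?_, (Nat.le_of_dvd (Finset.mem_Ioc.1 hs).1 (Nat.gcd_dvd_left s t)).trans
        (Finset.mem_Ioc.1 hs).2⟩
      have : Nat.gcd s t ≠ 1 := hg
      omega
    · rw [Finset.mem_product, Finset.mem_filter, Finset.mem_filter]
      exact ⟨⟨hs, Nat.gcd_dvd_left s t⟩, ht, Nat.gcd_dvd_right s t⟩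
  have h2 : ((P.filter (fun a => ¬ Nat.Coprime a.1 a.2)).card : ℝ) ≤ (T : ℝ) ^ 2 * (2 / 3) := by
    have h3 : (P.filter (fun a => ¬ Nat.Coprime a.1 a.2)).card ≤
        ∑ d ∈ Finset.Icc 2 T, (T / d) * (T / d) := by
      refine (Finset.card_le_card h1).trans (Finset.card_biUnion_le.trans (le_of_eq ?_))
      refine Finset.sum_congr rfl fun d _ => ?_
      rw [Finset.card_product, Nat.Ioc_filter_dvd_card_eq_div]
    have h4 : ((∑ d ∈ Finset.Icc 2 T, (T / d) * (T / d) : ℕ) : ℝ) ≤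
        ∑ d ∈ Finset.Icc 2 T, (T : ℝ) ^ 2 * (1 / (d : ℝ) ^ 2) := by
      push_cast
      refine Finset.sum_le_sum fun d _ => ?_
      have h5 : ((T / d : ℕ) : ℝ) ≤ (T : ℝ) / d := Nat.cast_div_le
      have h6 : (0 : ℝ) ≤ ((T / d : ℕ) : ℝ) := Nat.cast_nonneg _
      calc ((T / d : ℕ) : ℝ) * ((T / d : ℕ) : ℝ) ≤ ((T : ℝ) / d) * ((T : ℝ) / d) := by gcongr
        _ = _ := by ring
    have h5 := sum_sq T hT
    have h6 : (0 : ℝ) ≤ 1 / ((T : ℝ) + 1 / 2) := by positivity
    calc ((P.filter (fun a => ¬ Nat.Coprime a.1 a.2)).card : ℝ) ≤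
          ((∑ d ∈ Finset.Icc 2 T, (T / d) * (T / d) : ℕ) : ℝ) := by exact_mod_cast h3
      _ ≤ _ := h4
      _ = (T : ℝ) ^ 2 * ∑ d ∈ Finset.Icc 2 T, 1 / (d : ℝ) ^ 2 := by rw [Finset.mul_sum]
      _ ≤ (T : ℝ) ^ 2 * (2 / 3) := by
        refine mul_le_mul_of_nonneg_left ?_ (by positivity)
        linarith
  have h3 : (cop T).card + (P.filter (fun a => ¬ Nat.Coprime a.1 a.2)).card = T * T := by
    have h4 := Finset.card_filter_add_card_filter_not (s := P)
      (p := fun a : ℕ × ℕ => Nat.Coprime a.1 a.2)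
    rw [hP, Finset.card_product, Nat.card_Ioc, Nat.sub_zero] at h4
    exact h4
  have h4 : ((cop T).card : ℝ) + ((P.filter (fun a => ¬ Nat.Coprime a.1 a.2)).card : ℝ) =
      (T : ℝ) * T := by exact_mod_cast h3
  nlinarith

omit [NumberField L] in
theorem ratio_inj [CharZero L] {T : ℕ} :
    Set.InjOn (fun a : ℕ × ℕ => (a.2 : L) / a.1) (cop T : Set (ℕ × ℕ)) := by
  rintro ⟨s, t⟩ h1 ⟨s', t'⟩ h2 h
  rw [Finset.mem_coe, cop, Finset.mem_filter, Finset.mem_product, Finset.mem_Ioc,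
    Finset.mem_Ioc] at h1 h2
  obtain ⟨⟨⟨hs, -⟩, ⟨ht, -⟩⟩, hc⟩ := h1
  obtain ⟨⟨⟨hs', -⟩, ⟨ht', -⟩⟩, hc'⟩ := h2
  simp only at h hs ht hc hs' ht' hc'
  rw [div_eq_div_iff (Nat.cast_ne_zero.2 hs.ne') (Nat.cast_ne_zero.2 hs'.ne')] at h
  have h3 : t * s' = t' * s := by exact_mod_cast h
  have h4 : s ∣ s' := hc.dvd_of_dvd_mul_left (⟨t', by rw [h3]; ring⟩ : s ∣ t * s')
  have h5 : s' ∣ s := hc'.dvd_of_dvd_mul_left (⟨t, by rw [← h3]; ring⟩ : s' ∣ t' * s)
  have h6 : s = s' := Nat.dvd_antisymm h4 h5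
  subst h6
  have h7 : t = t' := Nat.eq_of_mul_eq_mul_right hs h3
  rw [h7]

end Pool.Agent.T2H23.LG
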