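import Mathlib
import Pool.Agent.T2H23.LG.PStm
import Pool.Agent.T2H23.LG.Quad
import Pool.Agent.T2H23.LG.Orb

/-!
Lines.
-/

set_option autoImplicit false

namespace Pool.Agent.T2H23.LG

open Finset Filter Topology MvPolynomial Height Pool.Agent.T2H23.EL Pool.Agent.TH143.HE
open scoped LinearAlgebra.Projectivization

variable {N : ℕ} {K : Type} [Field K] {I I' : Ideal (MvPolynomial (Fin (N + 1)) K)}

/-- the points of a rational curve of degree at most `D` -/
theorem many_le {L : Type} [Field L] [NumberField L] {φ : K →+* L}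
    {p : Fin (N + 1) → Polynomial L} (h : RCur φ I I' p) {D : ℕ}
    (hD : ∀ j, (p j).natDegree ≤ D) :
    ∃ (E : Finset L) (C : ℝ), 1 ≤ C ∧
      (∀ t ∉ E, ∃ hne : (fun j => (p j).eval t) ≠ 0,
        Projectivization.mk L _ hne ∈ Pts φ I \ Pts φ I' ∧
        (Projectivization.mk L _ hne).mulHeight ≤ C * mulHeight₁ t ^ D) ∧
      ∀ t ∉ E, ∃ T : Finset L, T.card ≤ D ∧ ∀ s, (∀ j k, (p j).eval s * (p k).eval t =
        (p k).eval s * (p j).eval t) → s ∈ T := by
  classical
  obtain ⟨h1, ⟨G, hG, hGh, hGne⟩, ⟨j0, k0, i, i', hnc⟩⟩ := h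
  obtain ⟨C, hC, hht⟩ := curve_height hD
  have hp0 : ∃ j, p j ≠ 0 := by
    by_contra hcon
    push Not at hcon
    apply hnc
    rw [hcon j0, hcon k0]
  obtain ⟨j1, hj1⟩ := hp0
  -- a nonzero minor of coefficients gives a nonconstant curve
  refine ⟨(p j1).roots.toFinset ∪ (eval₂ (Polynomial.C.comp φ) p G).roots.toFinset, C,
    hC, fun t ht => ?_, fun t ht => ?_⟩
  · rw [Finset.notMem_union] at ht
    have ht1 : (p j1).eval t ≠ 0 := fun h0 => ht.1 (Multiset.mem_toFinset.2
      ((Polynomial.mem_roots hj1).2 h0))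
    have ht2 : (eval₂ (Polynomial.C.comp φ) p G).eval t ≠ 0 := fun h0 => ht.2
      (Multiset.mem_toFinset.2 ((Polynomial.mem_roots hGne).2 h0))
    have hne : (fun j => (p j).eval t) ≠ 0 := fun h0 => ht1 (congrFun h0 j1)
    refine ⟨hne, ⟨(mem_pts ⟨hne, rfl⟩).2 fun F hF hFh => ?_, fun h0 => ?_⟩, ?_⟩
    · rw [← LG.eval_eval₂, h1 F hF hFh, Polynomial.eval_zero]
    · apply ht2
      rw [LG.eval_eval₂]
      exact (mem_pts ⟨hne, rfl⟩).1 h0 G hG hGh
    · rw [Projectivization.mulHeight_mk]
      exact hht t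
  · rw [Finset.notMem_union] at ht
    have ht1 : (p j1).eval t ≠ 0 := fun h0 => ht.1 (Multiset.mem_toFinset.2
      ((Polynomial.mem_roots hj1).2 h0))
    obtain ⟨j, k, hjk⟩ : ∃ j k, p j * Polynomial.C ((p k).eval t) -
        p k * Polynomial.C ((p j).eval t) ≠ 0 := by
      by_contra hcon
      push Not at hcon
      apply hnc
      have h2 : ∀ j i, (p j).coeff i * (p j1).eval t = (p j1).coeff i * (p j).eval t := by
        intro j i
        have := congrArg (fun q => Polynomial.coeff q i) (hcon j j1)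
        simp only [Polynomial.coeff_sub, Polynomial.coeff_mul_C, Polynomial.coeff_zero] at this
        linear_combination this
      apply mul_right_cancel₀ (mul_ne_zero ht1 ht1)
      linear_combination (p k0).coeff i' * (p j1).eval t * h2 j0 i -
        (p j0).coeff i' * (p j1).eval t * h2 k0 i +
        (p j1).coeff i * (p j0).eval t * h2 k0 i' - (p j1).coeff i * (p k0).eval t * h2 j0 i'
    refine ⟨(p j * Polynomial.C ((p k).eval t) - p k * Polynomial.C ((p j).eval t)).roots.toFinset,
      ?_, fun s hs => ?_⟩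
    · refine (Multiset.toFinset_card_le _).trans ((Polynomial.card_roots' _).trans ?_)
      refine (Polynomial.natDegree_sub_le _ _).trans (max_le ?_ ?_)
      · exact (Polynomial.natDegree_mul_C_le _ _).trans (hD j)
      · exact (Polynomial.natDegree_mul_C_le _ _).trans (hD k)
    · rw [Multiset.mem_toFinset, Polynomial.mem_roots hjk, Polynomial.IsRoot.def,
        Polynomial.eval_sub, Polynomial.eval_mul, Polynomial.eval_mul, Polynomial.eval_C,
        Polynomial.eval_C, hs j k, sub_self]

/-- many points of bounded height -/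
theorem count_set {L : Type} [Field L] [NumberField L] {φ : K →+* L}
    {p : Fin (N + 1) → Polynomial L} (h : RCur φ I I' p) {D : ℕ}
    (hD : ∀ j, (p j).natDegree ≤ D) :
    ∃ (m0 : ℕ) (C : ℝ), 1 ≤ C ∧ ∀ (A : Finset L) (h : ℝ), (∀ t ∈ A, mulHeight₁ t ≤ h) →
      {c ∈ Pts φ I \ Pts φ I' | c.mulHeight ≤ C * h ^ D}.Finite →
      (A.card : ℝ) ≤
        D * ({c ∈ Pts φ I \ Pts φ I' | c.mulHeight ≤ C * h ^ D}.ncard : ℝ) + m0 := by
  classical
  obtain ⟨E, C, hC, h1, h2⟩ := many_le h hD
  refine ⟨E.card, C, hC, fun A h hh hF => ?_⟩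
  choose hne hX hht using fun (t : {t // t ∉ E}) => h1 t.1 t.2
  let c : {t // t ∉ E} → ℙ L (Fin (N + 1) → L) := fun t => Projectivization.mk L _ (hne t)
  set A' : Finset {t // t ∉ E} := (A \ E).attach.image fun t =>
    ⟨t.1, (Finset.mem_sdiff.1 t.2).2⟩ with hA'
  have hA'mem : ∀ t ∈ A', t.1 ∈ A := by
    intro t ht
    rw [hA', Finset.mem_image] at ht
    obtain ⟨t', -, rfl⟩ := ht
    exact (Finset.mem_sdiff.1 t'.2).1
  have hA'card : (A \ E).card = A'.card := by
    rw [hA', Finset.card_image_of_injective, Finset.card_attach]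
    intro a b hab
    have hab' := congrArg (fun x : {t // t ∉ E} => x.1) hab
    exact Subtype.ext hab'
  have himg : (A'.image c : Set _) ⊆ {c ∈ Pts φ I \ Pts φ I' | c.mulHeight ≤ C * h ^ D} := by
    intro q hq
    rw [Finset.mem_coe, Finset.mem_image] at hq
    obtain ⟨t, ht, rfl⟩ := hq
    refine ⟨hX t, (hht t).trans ?_⟩
    have h3 := hh t.1 (hA'mem t ht)
    have h4 : (0 : ℝ) ≤ mulHeight₁ t.1 := (mulHeight₁_pos _).le
    exact mul_le_mul_of_nonneg_left (pow_le_pow_left₀ h4 h3 D) (by linarith)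
  have h3 : (A'.image c).card ≤ {c ∈ Pts φ I \ Pts φ I' | c.mulHeight ≤ C * h ^ D}.ncard := by
    rw [← Set.ncard_coe_finset]
    exact Set.ncard_le_ncard himg hF
  have h4 : A'.card ≤ D * (A'.image c).card := by
    refine Finset.card_le_mul_card_image A' D fun q hq => ?_
    obtain ⟨t, ht, rfl⟩ := Finset.mem_image.1 hq
    obtain ⟨T, hT, hTs⟩ := h2 t.1 t.2
    refine le_trans ?_ hT
    refine Finset.card_le_card_of_injOn (fun t => t.1) (fun x hx => ?_)
      Subtype.val_injective.injOn
    rw [Finset.coe_filter, Set.mem_ofPred_eq] at hx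
    obtain ⟨-, hx2⟩ := hx
    apply hTs
    simp only [c, Projectivization.mk_eq_mk_iff'] at hx2
    obtain ⟨a, ha⟩ := hx2
    intro j k
    have e1 := congrFun ha j
    have e2 := congrFun ha k
    simp only [Pi.smul_apply, smul_eq_mul] at e1 e2
    rw [← e1, ← e2]
    ring
  have h5 : A.card ≤ (A \ E).card + E.card := by
    have := Finset.le_card_sdiff E A
    omega
  have h6 : A.card ≤ D * {c ∈ Pts φ I \ Pts φ I' | c.mulHeight ≤ C * h ^ D}.ncard + E.card := by
    have := Nat.mul_le_mul_left D h3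
    omega
  exact_mod_cast h6

/-- the line through two points -/
noncomputable def lin {A : Type} [Field A] (p q : Fin (N + 1) → A) :
    Fin (N + 1) → Polynomial A :=
  fun j => Polynomial.C (p j) + Polynomial.C (q j) * Polynomial.X

theorem lin_eval {A : Type} [Field A] (p q : Fin (N + 1) → A) (t : A) :
    (fun j => (lin p q j).eval t) = p + t • q := by
  funext j
  unfold lin
  simp only [Polynomial.eval_add, Polynomial.eval_C, Polynomial.eval_mul, Polynomial.eval_X,
    Pi.add_apply, Pi.smul_apply, smul_eq_mul]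
  ring

theorem lin_coeff {A : Type} [Field A] (p q : Fin (N + 1) → A) (j : Fin (N + 1)) (i : ℕ) :
    (lin p q j).coeff i = if i = 0 then p j else if i = 1 then q j else 0 := by
  unfold lin
  rw [Polynomial.coeff_add, Polynomial.coeff_C, Polynomial.coeff_C_mul, Polynomial.coeff_X]
  by_cases h0 : i = 0
  · subst h0
    simp
  · by_cases h1 : i = 1
    · subst h1
      simp
    · rw [if_neg h0, if_neg h0, if_neg h1, if_neg (fun h => h1 h.symm)]
      simp

theorem lin_deg {A : Type} [Field A] (p q : Fin (N + 1) → A) (j : Fin (N + 1)) :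
    (lin p q j).natDegree ≤ 1 := by
  rw [Polynomial.natDegree_le_iff_coeff_eq_zero]
  intro i hi
  rw [lin_coeff, if_neg (by omega), if_neg (by omega)]

theorem indep_iff {A : Type} [Field A] (p q : Fin (N + 1) → A) :
    LinearIndependent A ![p, q] ↔ ∃ j k, p j * q k ≠ p k * q j := by
  constructor
  · intro h
    by_contra hcon
    push Not at hcon
    rw [LinearIndependent.pair_iff] at h
    by_cases hq : q = 0
    · have := h 0 1 (by rw [hq]; simp)
      exact one_ne_zero this.2
    · obtain ⟨k, hk⟩ := Function.ne_iff.1 hq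
      have := h (q k) (-(p k)) (by
        funext j
        simp only [Pi.add_apply, Pi.smul_apply, smul_eq_mul, Pi.zero_apply]
        linear_combination hcon j k)
      exact hk this.1
  · rintro ⟨j, k, h⟩
    rw [LinearIndependent.pair_iff]
    intro s t hst
    have e1 := congrFun hst j
    have e2 := congrFun hst k
    simp only [Pi.add_apply, Pi.smul_apply, smul_eq_mul, Pi.zero_apply] at e1 e2
    have hd : p j * q k - p k * q j ≠ 0 := sub_ne_zero.2 h
    constructor
    · apply (mul_eq_zero.1 (show s * (p j * q k - p k * q j) = 0 by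
        linear_combination q k * e1 - q j * e2)).resolve_right hd
    · apply (mul_eq_zero.1 (show t * (p j * q k - p k * q j) = 0 by
        linear_combination p j * e2 - p k * e1)).resolve_right hd

/-- forms vanishing on the affine part of a line -/
theorem line_ext {A : Type} [Field A] [Infinite A] {φ : K →+* A}
    {J : Ideal (MvPolynomial (Fin (N + 1)) K)} {p q : Fin (N + 1) → A}
    (h : ∀ t : A, Zero φ J (p + t • q)) (s t : A) : Zero φ J (s • p + t • q) := by
  intro G hG hGh
  obtain ⟨d, hd⟩ := hGh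
  have h1 : ∀ s : A, s ≠ 0 → eval₂ φ (s • p + t • q) G = 0 := by
    intro s hs
    have h2 : (s • p + t • q) = fun j => s * (p + (t / s) • q) j := by
      funext j
      simp only [Pi.add_apply, Pi.smul_apply, smul_eq_mul]
      field_simp
    rw [h2, eval₂_scale φ hd, h (t / s) G hG ⟨d, hd⟩, mul_zero]
  have h2 : ∀ s : A, (eval₂ (Polynomial.C.comp φ) (lin (t • q) p) G).eval s =
      eval₂ φ (s • p + t • q) G := by
    intro s
    rw [Pool.Agent.TH143.HE.eval₂_eval, lin_eval, add_comm (t • q)]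
  have h3 : eval₂ (Polynomial.C.comp φ) (lin (t • q) p) G * Polynomial.X = 0 := by
    apply Polynomial.funext
    intro s
    rw [Polynomial.eval_mul, Polynomial.eval_X, Polynomial.eval_zero]
    by_cases hs : s = 0
    · rw [hs, mul_zero]
    · rw [h2, h1 s hs, zero_mul]
  have h4 := (mul_eq_zero.1 h3).resolve_right Polynomial.X_ne_zero
  rw [← h2, h4, Polynomial.eval_zero]

theorem linesIn_iff {A : Type} [Field A] [Infinite A] {φ : K →+* A} :
    LinesIn φ I I' ↔ ∀ p q : Fin (N + 1) → A, ¬ RCur φ I I' (lin p q) := by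
  constructor
  · rintro h p q ⟨h1, ⟨G, hG, hGh, hne⟩, j, k, i, i', hc⟩
    have hind : LinearIndependent A ![p, q] := by
      rw [indep_iff]
      by_contra hcon
      push Not at hcon
      apply hc
      simp only [lin_coeff]
      split_ifs <;> first | ring1 | linear_combination hcon j k | linear_combination -(hcon j k)
    have hX : ∀ t : A, Zero φ I (p + t • q) := by
      intro t H hH hHh
      have h2 := congrArg (Polynomial.eval t) (h1 H hH hHh)
      rwa [Pool.Agent.TH143.HE.eval₂_eval, lin_eval, Polynomial.eval_zero] at h2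
    apply hne
    apply Polynomial.funext
    intro t
    rw [Pool.Agent.TH143.HE.eval₂_eval, lin_eval, Polynomial.eval_zero]
    have h2 := h p q hind (line_ext hX) 1 t G hG hGh
    rwa [one_smul] at h2
  · intro h p q hind hX
    have key : ∀ t : A, Zero φ I' (p + t • q) := by
      by_contra hcon
      push Not at hcon
      obtain ⟨t, ht⟩ := hcon
      unfold Pool.Agent.T2H23.EL.Zero at ht
      push Not at ht
      obtain ⟨G, hG, hGh, hne⟩ := ht
      refine h p q ⟨fun H hH hHh => ?_, ⟨G, hG, hGh, fun h0 => ?_⟩, ?_⟩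
      · apply Polynomial.funext
        intro t
        rw [Pool.Agent.TH143.HE.eval₂_eval, lin_eval, Polynomial.eval_zero]
        have h2 := hX 1 t H hH hHh
        rwa [one_smul] at h2
      · apply hne
        have h2 := congrArg (Polynomial.eval t) h0
        rwa [Pool.Agent.TH143.HE.eval₂_eval, lin_eval, Polynomial.eval_zero] at h2
      · obtain ⟨j, k, hjk⟩ := (indep_iff p q).1 hind
        refine ⟨j, k, 0, 1, ?_⟩
        simp only [lin_coeff, if_true, if_neg one_ne_zero]
        exact hjk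
    exact line_ext key

theorem linesIn_of_noLines [NumberField K] (h : NoLines I I') (σ : K →+* ℂ) :
    LinesIn σ I I' := by
  classical
  let _ : Algebra K ℂ := σ.toAlgebra
  rw [linesIn_iff]
  intro p q hp
  have hp1 : RCur ((algebraMap K ℂ).comp (RingHom.id K)) I I' (lin p q) := hp
  obtain ⟨L, _, _, _, p', hp', hsupp⟩ := spec_supp (k := K) (E := ℂ) (RingHom.id K) hp1
  have hchar : CharZero L := charZero_of_injective_algebraMap (algebraMap K L).injective
  have hfin : FiniteDimensional ℚ L := FiniteDimensional.trans ℚ K L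
  have hnf : NumberField L := ⟨⟩
  rw [RingHom.comp_id] at hp'
  have h1 : p' = lin (fun j => (p' j).coeff 0) fun j => (p' j).coeff 1 := by
    funext j
    ext i
    rw [lin_coeff]
    split_ifs with h0 h1
    · rw [h0]
    · rw [h1]
    · refine hsupp j i ?_
      rw [lin_coeff, if_neg h0, if_neg h1]
  have h2 := linesIn_iff.1 (h L) (fun j => (p' j).coeff 0) fun j => (p' j).coeff 1
  rw [← h1] at h2
  exact h2 hp'

theorem noLines_of_noRational (h : NoRational I I') : NoLines I I' := by
  intro L _ _ _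
  rw [linesIn_iff]
  intro p q
  exact noLine_iff.1 (h L) _

/-- too many points on a line -/
theorem noLines_of_subQuadratic (h : SubQuadratic I I') : NoLines I I' := by
  classical
  intro L _ _ _
  rw [linesIn_iff]
  intro p q hp
  obtain ⟨m0, C, hC, hcount⟩ := count_set hp (D := 1) (lin_deg p q)
  set w : ℕ := Module.finrank ℚ L with hw
  have hw0 : 0 < w := Module.finrank_pos
  -- `C ≤ c ^ w`
  obtain ⟨c, hc1, hc⟩ : ∃ c : ℝ, 1 ≤ c ∧ C ≤ c ^ w :=
    ⟨C, hC, le_self_pow₀ hC hw0.ne'⟩
  obtain ⟨C', hC'⟩ := h L (1 / (6 * c ^ 2)) (by positivity)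
  have key : ∀ T : ℕ, 1 ≤ T → (T : ℝ) ^ 2 / 6 ≤ C' + m0 := by
    intro T hT
    have hT1 : (1 : ℝ) ≤ T := by exact_mod_cast hT
    have hB : (1 : ℝ) ≤ c * T := by nlinarith
    obtain ⟨h1, h2⟩ := hC' (c * T) hB
    have h3 : C * ((T : ℝ) ^ w) ^ 1 ≤ (c * T) ^ w := by
      rw [pow_one, mul_pow]
      exact mul_le_mul_of_nonneg_right hc (by positivity)
    have hsub : {c ∈ Pts (algebraMap K L) I \ Pts (algebraMap K L) I' |
        c.mulHeight ≤ C * ((T : ℝ) ^ w) ^ 1} ⊆
        {q ∈ Pts (algebraMap K L) I \ Pts (algebraMap K L) I' |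
          q.mulHeight ≤ (c * T) ^ w} := fun x hx => ⟨hx.1, hx.2.trans h3⟩
    have h4 := hcount ((cop T).image fun a : ℕ × ℕ => (a.2 : L) / a.1) ((T : ℝ) ^ w)
      (fun t ht => by
        obtain ⟨⟨s, t⟩, hst, rfl⟩ := Finset.mem_image.1 ht
        rw [cop, Finset.mem_filter, Finset.mem_product, Finset.mem_Ioc, Finset.mem_Ioc] at hst
        rw [hw, ← totalWeight_eq]
        exact height_ratio hst.1.1.1 hst.1.1.2 hst.1.2.2) (h1.subset hsub)
    rw [Finset.card_image_of_injOn ratio_inj] at h4
    have h5 := cop_card T hT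
    have h6 := Set.ncard_le_ncard hsub h1
    have h7 : ({c ∈ Pts (algebraMap K L) I \ Pts (algebraMap K L) I' |
        c.mulHeight ≤ C * ((T : ℝ) ^ w) ^ 1}.ncard : ℝ) ≤
        ({q ∈ Pts (algebraMap K L) I \ Pts (algebraMap K L) I' |
          q.mulHeight ≤ (c * T) ^ w}.ncard : ℝ) := by exact_mod_cast h6
    have h8 : 1 / (6 * c ^ 2) * (c * T) ^ 2 = (T : ℝ) ^ 2 / 6 := by
      have : c ≠ 0 := by positivity
      field_simp
    push_cast at h4
    rw [h8] at h2
    linarith
  obtain ⟨T, hT⟩ := exists_nat_gt (6 * (C' + m0))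
  have h1 := key (T + 1) (by omega)
  have h2 : (T : ℝ) ≤ (((T + 1 : ℕ) : ℝ)) ^ 2 := by
    push_cast
    have : (0 : ℝ) ≤ T := Nat.cast_nonneg _
    nlinarith
  linarith

theorem subQuadratic_of_finiteness (h : Finiteness I I') : SubQuadratic I I' := by
  intro L _ _ _ ε hε
  have hf := h L
  refine ⟨(Pts (algebraMap K L) I \ Pts (algebraMap K L) I').ncard, fun B hB =>
    ⟨hf.subset fun c hc => hc.1, ?_⟩⟩
  have h1 := Set.ncard_le_ncard (s := {c ∈ Pts (algebraMap K L) I \ Pts (algebraMap K L) I' |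
    c.mulHeight ≤ B ^ Module.finrank ℚ L}) (fun c hc => hc.1) hf
  have h3 : ({c ∈ Pts (algebraMap K L) I \ Pts (algebraMap K L) I' |
      c.mulHeight ≤ B ^ Module.finrank ℚ L}.ncard : ℝ) ≤
      ((Pts (algebraMap K L) I \ Pts (algebraMap K L) I').ncard : ℝ) := by exact_mod_cast h1
  have h4 : 0 ≤ ε * B ^ 2 := by positivity
  linarith

end Pool.Agent.T2H23.LG
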