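import Mathlib
import Pool.Agent.T2H23.LG.Line

/-!
The number of the points of bounded height on orbits.
-/

set_option autoImplicit false

namespace Pool.Agent.T2H23.LG

open Finset Filter Topology MvPolynomial Height Pool.Agent.T2H23.EL Pool.Agent.TH143.HE
open scoped LinearAlgebra.Projectivization

variable {N : ℕ} {K : Type} [Field K] {I I' : Ideal (MvPolynomial (Fin (N + 1)) K)}

/-- rational curves of degree at most `D` have more than `B ^ κ` points if `D κ < 2` -/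
theorem few_contra {L : Type} [Field L] [NumberField L] [Algebra K L]
    {p : Fin (N + 1) → Polynomial L} (hp : RCur (algebraMap K L) I I' p) {D : ℕ}
    (hD : ∀ j, (p j).natDegree ≤ D) {κ : ℝ} (hκ0 : 0 ≤ κ) (hκ : D * κ < 2)
    (h : FewPoints κ I I') : False := by
  classical
  obtain ⟨m0, C, hC, hcount⟩ := count_set hp hD
  set w : ℕ := Module.finrank ℚ L with hw
  have hw0 : 0 < w := Module.finrank_pos
  obtain ⟨c, hc1, hc⟩ : ∃ c : ℝ, 1 ≤ c ∧ C ≤ c ^ w :=
    ⟨C, hC, le_self_pow₀ hC hw0.ne'⟩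
  obtain ⟨C', hC'⟩ := h L
  have key : ∀ T : ℕ, 1 ≤ T → (T : ℝ) ^ 2 / 3 ≤ D * (C' * c ^ κ * (T : ℝ) ^ (D * κ)) + m0 := by
    intro T hT
    have hT1 : (1 : ℝ) ≤ T := by exact_mod_cast hT
    have hTD : (1 : ℝ) ≤ (T : ℝ) ^ D := one_le_pow₀ hT1
    have hB : (1 : ℝ) ≤ c * (T : ℝ) ^ D := by nlinarith
    obtain ⟨h1, h2⟩ := hC' (c * (T : ℝ) ^ D) hB
    have h3 : C * ((T : ℝ) ^ w) ^ D ≤ (c * (T : ℝ) ^ D) ^ w := by
      rw [mul_pow, ← pow_mul, ← pow_mul, mul_comm D w]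
      exact mul_le_mul_of_nonneg_right hc (by positivity)
    have hsub : {c ∈ Pts (algebraMap K L) I \ Pts (algebraMap K L) I' |
        c.mulHeight ≤ C * ((T : ℝ) ^ w) ^ D} ⊆
        {q ∈ Pts (algebraMap K L) I \ Pts (algebraMap K L) I' |
          q.mulHeight ≤ (c * (T : ℝ) ^ D) ^ w} := fun x hx => ⟨hx.1, hx.2.trans h3⟩
    have h4 := hcount ((cop T).image fun a : ℕ × ℕ => (a.2 : L) / a.1) ((T : ℝ) ^ w)
      (fun t ht => by
        obtain ⟨⟨s, t⟩, hst, rfl⟩ := Finset.mem_image.1 ht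
        rw [cop, Finset.mem_filter, Finset.mem_product, Finset.mem_Ioc, Finset.mem_Ioc] at hst
        rw [hw, ← totalWeight_eq]
        exact height_ratio hst.1.1.1 hst.1.1.2 hst.1.2.2) (h1.subset hsub)
    rw [Finset.card_image_of_injOn ratio_inj] at h4
    have h5 := cop_card T hT
    have h6 := Set.ncard_le_ncard hsub h1
    have h7 : ({c ∈ Pts (algebraMap K L) I \ Pts (algebraMap K L) I' |
        c.mulHeight ≤ C * ((T : ℝ) ^ w) ^ D}.ncard : ℝ) ≤
        ({q ∈ Pts (algebraMap K L) I \ Pts (algebraMap K L) I' |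
          q.mulHeight ≤ (c * (T : ℝ) ^ D) ^ w}.ncard : ℝ) := by exact_mod_cast h6
    have h8 : C' * (c * (T : ℝ) ^ D) ^ κ = C' * c ^ κ * (T : ℝ) ^ (D * κ) := by
      rw [Real.mul_rpow (by linarith) (by positivity), ← Real.rpow_natCast,
        ← Real.rpow_mul (by linarith)]
      ring
    rw [h8] at h2
    have h9 := mul_le_mul_of_nonneg_left (h7.trans h2) (Nat.cast_nonneg D)
    linarith
  -- growth
  set A : ℝ := D * (|C'| * c ^ κ) + m0 with hA
  have hA0 : 0 ≤ A := by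
    have h1 : (0 : ℝ) ≤ c ^ κ := by positivity
    have h2 : (0 : ℝ) ≤ D := Nat.cast_nonneg _
    have h3 : (0 : ℝ) ≤ m0 := Nat.cast_nonneg _
    have h4 := abs_nonneg C'
    positivity
  have key2 : ∀ T : ℕ, 1 ≤ T → (T : ℝ) ^ (2 - D * κ) ≤ 3 * A := by
    intro T hT
    have hT1 : (1 : ℝ) ≤ T := by exact_mod_cast hT
    have h1 := key T hT
    have h2 : (1 : ℝ) ≤ (T : ℝ) ^ (D * κ) :=
      Real.one_le_rpow hT1 (mul_nonneg (Nat.cast_nonneg _) hκ0)
    have h3 : (T : ℝ) ^ 2 / 3 ≤ A * (T : ℝ) ^ (D * κ) := by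
      have h4 : C' * c ^ κ * (T : ℝ) ^ (D * κ) ≤ |C'| * c ^ κ * (T : ℝ) ^ (D * κ) := by
        have := le_abs_self C'
        gcongr
      have h5 : (0 : ℝ) ≤ D := Nat.cast_nonneg _
      have h6 : (0 : ℝ) ≤ m0 := Nat.cast_nonneg _
      have h7 := mul_le_mul_of_nonneg_left h4 h5
      have h8 : (m0 : ℝ) ≤ m0 * (T : ℝ) ^ (D * κ) := le_mul_of_one_le_right h6 h2
      rw [hA]
      nlinarith
    rw [Real.rpow_sub (by linarith), Real.rpow_two, div_le_iff₀ (by positivity)]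
    nlinarith
  have h2 : Tendsto (fun T : ℕ => (T : ℝ) ^ (2 - D * κ)) atTop atTop :=
    (tendsto_rpow_atTop (by linarith)).comp tendsto_natCast_atTop_atTop
  obtain ⟨T, hT1, hT2⟩ := ((h2.eventually_gt_atTop (3 * A)).and (eventually_ge_atTop 1)).exists
  exact absurd (key2 T hT2) (not_le.2 hT1)

theorem fewPoints_of_finiteness {κ : ℝ} (hκ : 0 ≤ κ) (h : Finiteness I I') :
    FewPoints κ I I' := by
  intro L _ _ _
  have hf := h L
  refine ⟨(Pts (algebraMap K L) I \ Pts (algebraMap K L) I').ncard, fun B hB =>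
    ⟨hf.subset fun c hc => hc.1, ?_⟩⟩
  have h1 := Set.ncard_le_ncard (s := {c ∈ Pts (algebraMap K L) I \ Pts (algebraMap K L) I' |
    c.mulHeight ≤ B ^ Module.finrank ℚ L}) (fun c hc => hc.1) hf
  have h3 : ({c ∈ Pts (algebraMap K L) I \ Pts (algebraMap K L) I' |
      c.mulHeight ≤ B ^ Module.finrank ℚ L}.ncard : ℝ) ≤
      ((Pts (algebraMap K L) I \ Pts (algebraMap K L) I').ncard : ℝ) := by exact_mod_cast h1
  refine h3.trans (le_mul_of_one_le_right (Nat.cast_nonneg _) (Real.one_le_rpow hB hκ))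

end Pool.Agent.T2H23.LG
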