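import Mathlib
import Pool.Agent.T2H23.LG.Unit

/-!
Sequences of units of a number field are linearly independent over the sequences of small height.
-/

set_option autoImplicit false

namespace Pool.Agent.T2H23.LG

open Finset Filter Topology NumberField IsDedekindDomain Height
open Pool.Agent.W180.OP (Pl av wt nrm le_nrm nrm_pos exists_nrm fv fv_support_finite wt_nonneg)
open Pool.Agent.R405 (Good exists_good schF)

variable {k : Type} [Field k] [NumberField k]

/-- the sequence has heights which are small compared with `Nn` -/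
def Negl {α : Type} (𝓤 : Ultrafilter α) (Nn : α → ℝ) (a : α → k) : Prop :=
  ∀ ε : ℝ, 0 < ε → ∀ᶠ t in 𝓤, logHeight₁ (a t) ≤ ε * Nn t

theorem Big.mono {S S' : Finset (Pl k)} {Γ : Subgroup kˣ} (h : Big S Γ) (hS : S ⊆ S') :
    Big S' Γ := ⟨fun w => hS (h.1 w), fun v hv g hg => h.2 v (fun h' => hv (hS h')) g hg⟩

/-- a larger set of places for finitely many additional elements -/
theorem exists_bigger {S : Finset (Pl k)} {Γ : Subgroup kˣ} (hS : Big S Γ) (A : Finset kˣ) :
    ∃ (S' : Finset (Pl k)) (Γ' : Subgroup kˣ), S ⊆ S' ∧ Γ ≤ Γ' ∧ (∀ a ∈ A, a ∈ Γ') ∧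
      Big S' Γ' := by
  classical
  obtain ⟨S1, hS1⟩ := exists_bigS (Γ := Subgroup.closure (A : Set kˣ)) ⟨A, rfl⟩
  refine ⟨S ∪ S1, Γ ⊔ Subgroup.closure (A : Set kˣ), Finset.subset_union_left, le_sup_left,
    fun a ha => ?_, fun w => Finset.mem_union_left _ (hS.1 w), fun v hv g hg => ?_⟩
  · exact (le_sup_right : _ ≤ Γ ⊔ _) (Subgroup.subset_closure (Finset.mem_coe.2 ha))
  · rw [Finset.notMem_union] at hv
    obtain ⟨a, ha, b, hb, rfl⟩ := Subgroup.mem_sup.1 hg
    rw [Units.val_mul, map_mul, hS.2 v hv.1 a ha, hS1.2 v hv.2 b hb, mul_one]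

omit [NumberField k] in
theorem nrm_pair (f : AbsoluteValue k ℝ) (c : k) : nrm f ![c, 1] = max (f c) 1 := by
  apply le_antisymm
  · refine ciSup_le fun j => ?_
    fin_cases j
    · exact le_max_left _ _
    · simp
  · refine max_le (le_nrm f ![c, 1] 0) ?_
    have := le_nrm f ![c, 1] 1
    simpa using this

theorem height_one {S : Finset (Pl k)} {Γ : Subgroup kˣ} (hS : Big S Γ) {c : kˣ} (hc : c ∈ Γ) :
    logHeight₁ (c : k) = ∑ p ∈ S, wt p * Real.log (max (av p (c : k)) 1) := by
  rw [logHeight₁_eq_logHeight, height_eq hS two_pos ![(c : k), 1] (fun j => by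
    fin_cases j
    · exact ⟨c, hc, rfl⟩
    · exact ⟨1, Γ.one_mem, by simp⟩)]
  exact Finset.sum_congr rfl fun p _ => by rw [nrm_pair]

/-- the part of the height at the places in `S` -/
theorem part_le {S : Finset (Pl k)} {Γ : Subgroup kˣ} (hS : Big S Γ) (c : kˣ) :
    ∑ p ∈ S, wt p * Real.log (av p (c : k)) ≤ logHeight₁ (c : k) := by
  obtain ⟨S', Γ', hSS, -, hc, hS'⟩ := exists_bigger hS {c}
  rw [height_one hS' (hc c (Finset.mem_singleton_self c))]
  refine le_trans (Finset.sum_le_sum fun p _ => mul_le_mul_of_nonneg_left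
    (Real.log_le_log ((av p).pos c.ne_zero) (le_max_left _ 1)) (wt_nonneg p)) ?_
  exact Finset.sum_le_sum_of_subset_of_nonneg hSS fun p _ _ =>
    mul_nonneg (wt_nonneg p) (Real.log_nonneg (le_max_right _ _))

theorem part_prod {S : Finset (Pl k)} {Γ : Subgroup kˣ} (hS : Big S Γ) (c : kˣ) {g : kˣ}
    (hg : g ∈ Γ) : ∑ p ∈ S, wt p * Real.log (av p ((c : k) * g)) ≤ logHeight₁ (c : k) := by
  have h1 : ∑ p ∈ S, wt p * Real.log (av p ((c : k) * g)) =
      ∑ p ∈ S, wt p * Real.log (av p (c : k)) + ∑ p ∈ S, wt p * Real.log (av p (g : k)) := by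
    rw [← Finset.sum_add_distrib]
    refine Finset.sum_congr rfl fun p _ => ?_
    rw [map_mul, Real.log_mul ((AbsoluteValue.ne_zero_iff _).2 c.ne_zero)
      ((AbsoluteValue.ne_zero_iff _).2 g.ne_zero)]
    ring
  rw [h1, prod_eq hS hg, add_zero]
  exact part_le hS c

/-- the height is almost concentrated at the places in `S` -/
theorem height_le {S : Finset (Pl k)} {Γ : Subgroup kˣ} (hS : Big S Γ) {n : ℕ} (hn : 0 < n)
    (c g : Fin n → kˣ) (hg : ∀ j, g j ∈ Γ) :
    logHeight (fun j => (c j : k) * g j) ≤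
      ∑ p ∈ S, wt p * Real.log (nrm (av p) fun j => (c j : k) * g j) +
        ∑ j, logHeight₁ (c j : k) := by
  classical
  obtain ⟨S', Γ', hSS, hΓ, hc, hS'⟩ := exists_bigger hS (Finset.univ.image c)
  have hc' : ∀ j, c j ∈ Γ' := fun j => hc _ (Finset.mem_image_of_mem _ (Finset.mem_univ j))
  set x : Fin n → k := fun j => (c j : k) * g j with hx
  have hx0 : x ≠ 0 := fun h => by
    have := congrFun h ⟨0, hn⟩
    exact mul_ne_zero (c _).ne_zero (g _).ne_zero this
  rw [height_eq hS' hn x (fun j => ⟨c j * g j, Γ'.mul_mem (hc' j) (hΓ (hg j)), by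
    rw [Units.val_mul]⟩), ← Finset.sum_sdiff hSS, add_comm]
  refine add_le_add le_rfl ?_
  have h1 : ∀ j, logHeight₁ (c j : k) = ∑ p ∈ S', wt p * Real.log (max (av p (c j : k)) 1) :=
    fun j => height_one hS' (hc' j)
  have h2 : ∑ j, logHeight₁ (c j : k) = ∑ p ∈ S', ∑ j, wt p * Real.log (max (av p (c j : k)) 1) := by
    rw [Finset.sum_comm]
    exact Finset.sum_congr rfl fun j _ => h1 j
  rw [h2]
  have hnn : ∀ p j, 0 ≤ wt p * Real.log (max (av p (c j : k)) 1) := fun p j =>
    mul_nonneg (wt_nonneg p) (Real.log_nonneg (le_max_right _ _))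
  refine le_trans (Finset.sum_le_sum fun p hp => ?_) (Finset.sum_le_sum_of_subset_of_nonneg
    Finset.sdiff_subset fun p _ _ => Finset.sum_nonneg fun j _ => hnn p j)
  rw [Finset.mem_sdiff] at hp
  rcases p with w | v
  · exact absurd (hS.1 w) hp.2
  · obtain ⟨j, hj⟩ := exists_nrm (av (Sum.inr v)) hn x
    rw [← hj]
    have h3 : av (Sum.inr v) (x j) = av (Sum.inr v) (c j : k) := by
      have h4 : av (Sum.inr v : Pl k) (g j : k) = 1 := hS.2 v hp.2 (g j) (hg j)
      rw [hx]
      simp only [map_mul]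
      rw [h4, mul_one]
    rw [h3]
    refine le_trans ?_ (Finset.single_le_sum (fun j _ => hnn (Sum.inr v) j) (Finset.mem_univ j))
    exact mul_le_mul_of_nonneg_left (Real.log_le_log ((av _).pos (c j).ne_zero) (le_max_left _ _))
      (wt_nonneg _)

section

variable {α : Type} {𝓤 : Ultrafilter α} {Nn : α → ℝ}

theorem Negl.mul {a b : α → k} (ha : Negl 𝓤 Nn a) (hb : Negl 𝓤 Nn b) :
    Negl 𝓤 Nn fun t => a t * b t := by
  intro ε hε
  filter_upwards [ha (ε / 2) (by positivity), hb (ε / 2) (by positivity)] with t h1 h2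
  have := logHeight₁_mul_le (a t) (b t)
  linarith

theorem Negl.inv {a : α → k} (ha : Negl 𝓤 Nn a) : Negl 𝓤 Nn fun t => (a t)⁻¹ := by
  intro ε hε
  filter_upwards [ha ε hε] with t h1
  rwa [logHeight₁_inv]

theorem Negl.neg {a : α → k} (ha : Negl 𝓤 Nn a) : Negl 𝓤 Nn fun t => -(a t) := by
  intro ε hε
  filter_upwards [ha ε hε] with t h1
  rwa [logHeight₁_neg]

theorem Negl.const (hN : Tendsto Nn 𝓤 atTop) (c : k) : Negl 𝓤 Nn fun _ => c := by
  intro ε hε
  filter_upwards [hN.eventually_ge_atTop (logHeight₁ c / ε)] with t ht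
  rw [div_le_iff₀ hε] at ht
  linarith

theorem Negl.add (hN : Tendsto Nn 𝓤 atTop) {a b : α → k} (ha : Negl 𝓤 Nn a) (hb : Negl 𝓤 Nn b) :
    Negl 𝓤 Nn fun t => a t + b t := by
  intro ε hε
  set C : ℝ := totalWeight k * Real.log 2 with hC
  filter_upwards [ha (ε / 4) (by positivity), hb (ε / 4) (by positivity),
    hN.eventually_ge_atTop (C / (ε / 2))] with t h1 h2 h3
  have h4 := logHeight₁_add_le (a t) (b t)
  rw [div_le_iff₀ (by positivity)] at h3
  linarith

theorem Negl.congr {a b : α → k} (ha : Negl 𝓤 Nn a) (h : ∀ᶠ t in 𝓤, a t = b t) :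
    Negl 𝓤 Nn b := by
  intro ε hε
  filter_upwards [ha ε hε, h] with t h1 h2
  rwa [← h2]

end

/-- sequences of elements of `Γ` whose quotients do not have small heights are linearly independent
over the sequences of small height -/
theorem indepS {α : Type} (𝓤 : Ultrafilter α) {Γ : Subgroup kˣ} (hΓ : Γ.FG) {Nn : α → ℝ}
    (hNn : Tendsto Nn 𝓤 atTop) :
    ∀ (m : ℕ) (u : Fin m → α → kˣ), (∀ i t, u i t ∈ Γ) →
      (∀ i j, i ≠ j → ¬ Negl 𝓤 Nn fun t => (u i t : k) / u j t) →
      ∀ c : Fin m → α → k, (∀ i, Negl 𝓤 Nn (c i)) → (∀ᶠ t in 𝓤, ∑ i, c i t * (u i t : k) = 0) →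
        ∀ i, ∀ᶠ t in 𝓤, c i t = 0 := by
  classical
  intro m
  induction m using Nat.strong_induction_on with
  | _ m ih =>
  intro u hu hne c hneg hc
  by_contra hcon
  rw [not_forall] at hcon
  obtain ⟨i0, hi0⟩ := hcon
  -- all coefficients are nonzero
  have hall : ∀ i, ∀ᶠ t in 𝓤, c i t ≠ 0 := by
    by_contra hz
    rw [not_forall] at hz
    obtain ⟨i1, hi1⟩ := hz
    have hi1' : ∀ᶠ t in 𝓤, c i1 t = 0 := by
      by_contra h0
      rw [← Ultrafilter.eventually_not] at h0
      exact hi1 h0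
    let A : Finset (Fin m) := Finset.univ.filter fun i => ¬ ∀ᶠ t in 𝓤, c i t = 0
    have hA : A.card < m := by
      have h1 : A.card < (Finset.univ : Finset (Fin m)).card :=
        Finset.card_lt_card (Finset.ssubset_univ_iff.2 fun h => by
          have h2 : i1 ∈ A := by rw [h]; exact Finset.mem_univ _
          exact (Finset.mem_filter.1 h2).2 hi1')
      rwa [Finset.card_univ, Fintype.card_fin] at h1
    let e := A.equivFin
    have hout : ∀ᶠ t in 𝓤, ∀ i, i ∉ A → c i t = 0 := by
      rw [eventually_all]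
      intro i
      by_cases hi : i ∈ A
      · exact Eventually.of_forall fun t h => absurd hi h
      · have h5 : ∀ᶠ t in 𝓤, c i t = 0 := by
          by_contra h5
          exact hi (Finset.mem_filter.2 ⟨Finset.mem_univ _, h5⟩)
        exact h5.mono fun t ht _ => ht
    have h2 := ih A.card hA (fun i => u (e.symm i)) (fun i t => hu _ t) (fun i j hij => hne _ _
      (fun h => hij (e.symm.injective (Subtype.ext h)))) (fun i => c (e.symm i))
      (fun i => hneg _) (by
        filter_upwards [hc, hout] with t ht hto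
        refine Eq.trans ?_ ht
        have h3 : ∑ i, c (e.symm i) t * (u (e.symm i) t : k) = ∑ i : A, c i t * (u i t : k) :=
          Equiv.sum_comp e.symm (fun i : A => c i t * (u i t : k))
        rw [h3, Finset.sum_coe_sort A (fun i => c i t * (u i t : k))]
        refine Finset.sum_subset (Finset.subset_univ A) fun i _ hi => ?_
        rw [hto i hi, zero_mul])
    have h3 := h2 (e ⟨i0, Finset.mem_filter.2 ⟨Finset.mem_univ _, hi0⟩⟩)
    rw [Equiv.symm_apply_apply] at h3
    exact hi0 h3
  -- the number of terms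
  obtain ⟨n, rfl⟩ : ∃ n, m = n + 1 := ⟨m - 1, by have := i0.2; omega⟩
  rcases Nat.lt_or_ge n 2 with hn2 | hn2
  · interval_cases n
    · obtain ⟨t, ht, ht0⟩ := (hc.and (hall 0)).exists
      rw [Fin.sum_univ_one] at ht
      exact mul_ne_zero ht0 (u 0 t).ne_zero ht
    · apply hne 0 1 (by decide)
      refine (((hneg 1).neg).mul (hneg 0).inv).congr ?_
      filter_upwards [hc, hall 0] with t ht h0
      rw [Fin.sum_univ_two] at ht
      have h1 := (u 1 t).ne_zero
      field_simp
      linear_combination -ht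
  -- the points
  have hn0 : 0 < n := by omega
  obtain ⟨M, hfd, hgal, hi, ⟨φ⟩⟩ := Pool.Agent.R405.exists_big k
  let _ : NumberField M := ⟨⟩
  let _ : Algebra k M := φ.toAlgebra
  obtain ⟨S, hS⟩ := exists_bigS hΓ
  choose f hf using fun v : Pl k => exists_good (K := M) v
  -- nonzero coefficients
  let cc : Fin (n + 1) → α → kˣ := fun i t => if h : c i t = 0 then 1 else Units.mk0 _ h
  have hcc : ∀ᶠ t in 𝓤, ∀ i, c i t = cc i t := by
    rw [eventually_all]
    intro i
    filter_upwards [hall i] with t ht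
    simp only [cc, dif_neg ht, Units.val_mk0]
  have hccN : ∀ i, Negl 𝓤 Nn fun t => (cc i t : k) := fun i =>
    (hneg i).congr (hcc.mono fun t ht => ht i)
  let x : α → Fin n → k := fun t j => (cc j.castSucc t : k) * u j.castSucc t
  have hx0 : ∀ t j, x t j ≠ 0 := fun t j => mul_ne_zero (Units.ne_zero _) (Units.ne_zero _)
  let y : α → k := fun t => (cc (Fin.last n) t : k) * u (Fin.last n) t
  have hy0 : ∀ t, y t ≠ 0 := fun t => mul_ne_zero (Units.ne_zero _) (Units.ne_zero _)
  have hsum : ∀ᶠ t in 𝓤, ∑ j, x t j = - y t := by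
    filter_upwards [hc, hcc] with t ht hct
    rw [Fin.sum_univ_castSucc] at ht
    simp only [hct] at ht
    exact eq_neg_of_add_eq_zero_left ht
  -- the heights tend to infinity
  have hlow : ∃ ε1 : ℝ, 0 < ε1 ∧ ∀ᶠ t in 𝓤, ε1 * Nn t ≤ logHeight (x t) := by
    have h1 := hne (⟨0, by omega⟩ : Fin n).castSucc (⟨1, by omega⟩ : Fin n).castSucc (by
      intro h
      simp [Fin.ext_iff] at h)
    unfold Negl at h1
    push Not at h1
    obtain ⟨ε1, hε1, h1⟩ := h1
    refine ⟨ε1 / 2, by positivity, ?_⟩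
    filter_upwards [h1, hccN (⟨0, by omega⟩ : Fin n).castSucc (ε1 / 4) (by positivity),
      hccN (⟨1, by omega⟩ : Fin n).castSucc (ε1 / 4) (by positivity)] with t h2 h3 h4
    have e1 : (u (⟨0, by omega⟩ : Fin n).castSucc t : k) / u (⟨1, by omega⟩ : Fin n).castSucc t =
        (x t ⟨0, by omega⟩ / x t ⟨1, by omega⟩) * ((cc (⟨1, by omega⟩ : Fin n).castSucc t : k) *
          ((cc (⟨0, by omega⟩ : Fin n).castSucc t : k))⁻¹) := by
      have e2 := (cc (⟨0, by omega⟩ : Fin n).castSucc t).ne_zero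
      have e3 := (cc (⟨1, by omega⟩ : Fin n).castSucc t).ne_zero
      have e4 := (u (⟨1, by omega⟩ : Fin n).castSucc t).ne_zero
      simp only [x]
      field_simp
    rw [e1] at h2
    have h5 := logHeight₁_mul_le (x t ⟨0, by omega⟩ / x t ⟨1, by omega⟩)
      ((cc (⟨1, by omega⟩ : Fin n).castSucc t : k) *
        ((cc (⟨0, by omega⟩ : Fin n).castSucc t : k))⁻¹)
    have h6 := logHeight₁_mul_le (cc (⟨1, by omega⟩ : Fin n).castSucc t : k)
        ((cc (⟨0, by omega⟩ : Fin n).castSucc t : k))⁻¹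
    rw [logHeight₁_inv] at h6
    have h7 : logHeight₁ (x t ⟨0, by omega⟩ / x t ⟨1, by omega⟩) ≤ logHeight (x t) := by
      rw [logHeight₁_div_eq_logHeight]
      have h8 : ![x t ⟨0, by omega⟩, x t ⟨1, by omega⟩] = x t ∘ ![⟨0, by omega⟩, ⟨1, by omega⟩] := by
        funext i
        fin_cases i <;> rfl
      rw [h8]
      exact logHeight_comp_le _ _
    linarith
  obtain ⟨ε1, hε1, hlow⟩ := hlow
  have hN : Tendsto (fun t => logHeight (x t)) 𝓤 atTop :=
    tendsto_atTop_mono' _ hlow (hNn.const_mul_atTop hε1)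
  -- no linear relations
  have hind : ∀ d : Fin n → M, d ≠ 0 → ∀ᶠ t in 𝓤, ∑ j, d j * algebraMap k M (x t j) ≠ 0 := by
    intro d hd
    obtain ⟨j0, hj0⟩ := Function.ne_iff.1 hd
    change ∀ᶠ t in 𝓤, ¬ ∑ j, d j * algebraMap k M (x t j) = 0
    rw [Ultrafilter.eventually_not]
    intro h0
    obtain ⟨l, hl⟩ := Module.Projective.exists_dual_ne_zero k (V := M) (x := d j0) hj0
    have h1 := ih n (Nat.lt_succ_self n) (fun j t => u j.castSucc t) (fun j t => hu _ t)
      (fun i j hij => hne _ _ (fun h => hij (Fin.castSucc_injective n h)))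
      (fun j t => l (d j) * cc j.castSucc t) (fun j => (Negl.const hNn _).mul (hccN _)) (by
        filter_upwards [h0] with t ht
        have h1 := congrArg l ht
        rw [map_sum, map_zero] at h1
        rw [← h1]
        refine Finset.sum_congr rfl fun j _ => ?_
        rw [mul_comm (d j), ← Algebra.smul_def, map_smul, smul_eq_mul]
        simp only [x]
        ring) j0
    obtain ⟨t, ht⟩ := h1.exists
    exact mul_ne_zero hl (Units.ne_zero _) ht
  -- the largest coordinates
  have hmax : ∀ v : Pl k, ∃ a : Fin n, ∀ᶠ t in 𝓤, av v (x t a) = nrm (av v) (x t) := by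
    intro v
    rw [← Ultrafilter.eventually_exists_iff]
    exact Eventually.of_forall fun t => exists_nrm (av v) hn0 (x t)
  choose a ha using hmax
  let B : Pl k → Fin n → Fin n → M := fun v b j => if b = a v then 1 else if b = j then 1 else 0
  have hB : ∀ v b t, b ≠ a v → ∑ j, B v b j * algebraMap k M (x t j) = algebraMap k M (x t b) := by
    intro v b t hb
    rw [Finset.sum_eq_single b]
    · simp only [B, if_neg hb, if_true, one_mul]
    · intro j _ hj
      simp only [B, if_neg hb, if_neg hj.symm, zero_mul]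
    · intro h
      exact absurd (Finset.mem_univ b) h
  have hBa : ∀ v t, ∑ j, x t j = - y t → ∑ j, B v (a v) j * algebraMap k M (x t j) =
      algebraMap k M (-(y t)) := by
    intro v t ht
    rw [← ht, map_sum]
    refine Finset.sum_congr rfl fun j _ => ?_
    simp only [B, if_true, one_mul]
  have hdet : ∀ v ∈ S, (Matrix.of (B v)).det ≠ 0 := by
    intro v _ h0
    obtain ⟨z, hz0, hz⟩ := Matrix.exists_mulVec_eq_zero_iff.2 h0
    apply hz0
    have h1 : ∀ b, ∑ j, B v b j * z j = 0 := fun b => congrFun hz b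
    have h2 : ∀ b, b ≠ a v → z b = 0 := by
      intro b hb
      have h3 := h1 b
      rw [Finset.sum_eq_single b] at h3
      · simpa only [B, if_neg hb, if_true, one_mul] using h3
      · intro j _ hj
        simp only [B, if_neg hb, if_neg hj.symm, zero_mul]
      · intro h
        exact absurd (Finset.mem_univ b) h
    funext b
    by_cases hb : b = a v
    · subst hb
      have h3 := h1 (a v)
      rw [Finset.sum_eq_single (a v)] at h3
      · simp only [B, if_true, one_mul] at h3
        exact h3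
      · intro j _ hj
        rw [h2 j hj, mul_zero]
      · intro h
        exact absurd (Finset.mem_univ (a v)) h
    · exact h2 b hb
  have hsch := schF hi (𝓤 : Filter α) hn0 S f (fun v _ => hf v) B hdet x hN hind (1 / 2) (by norm_num)
  have hamax : ∀ᶠ t in 𝓤, ∀ v ∈ S, av v (x t (a v)) = nrm (av v) (x t) :=
    (Filter.eventually_all_finset S).2 fun v _ => ha v
  -- the heights of the coefficients are small
  set η : ℝ := ε1 / (4 * ((n + 2) * (n + 2))) with hη
  have hη0 : 0 < η := by positivity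
  have hsmall : ∀ᶠ t in 𝓤, ∀ i, logHeight₁ (cc i t : k) ≤ η * Nn t :=
    eventually_all.2 fun i => hccN i η hη0
  obtain ⟨t, h1, h2, h3, h4, h5, h6⟩ := (hsch.and (hamax.and (hsum.and (hsmall.and
    (hlow.and (hNn.eventually_gt_atTop 0)))))).exists
  have key : ∀ v ∈ S, ∑ b, (Real.log (nrm (av v) (x t)) -
      Real.log (f v (∑ j, B v b j * algebraMap k M (x t j)))) =
        (n + 1) * Real.log (nrm (av v) (x t)) - ∑ b, Real.log (av v (x t b)) -
          Real.log (av v (y t)) := by
    intro v hv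
    have e1 : ∀ b, Real.log (f v (∑ j, B v b j * algebraMap k M (x t j))) =
        Real.log (av v (x t b)) + if b = a v then (Real.log (av v (y t)) -
          Real.log (nrm (av v) (x t))) else 0 := by
      intro b
      by_cases hb : b = a v
      · subst hb
        rw [hBa v t h3, (hf v).ext, AbsoluteValue.map_neg, if_pos rfl, h2 v hv]
        ring
      · rw [hB v b t hb, (hf v).ext, if_neg hb, add_zero]
    rw [Finset.sum_sub_distrib, Finset.sum_congr rfl fun b _ => e1 b, Finset.sum_add_distrib,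
      Finset.sum_ite_eq' Finset.univ (a v), if_pos (Finset.mem_univ _), Finset.sum_const,
      Finset.card_univ, Fintype.card_fin, nsmul_eq_mul]
    ring
  rw [Finset.sum_congr rfl fun v hv => by rw [key v hv]] at h1
  have hh := height_le hS hn0 (fun j : Fin n => cc j.castSucc t) (fun j : Fin n => u j.castSucc t)
    (fun j => hu _ t)
  change logHeight (x t) ≤ ∑ p ∈ S, wt p * Real.log (nrm (av p) (x t)) +
    ∑ j : Fin n, logHeight₁ (cc j.castSucc t : k) at hh
  have e2 : ∑ v ∈ S, wt v * ((n + 1) * Real.log (nrm (av v) (x t)) -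
      ∑ b, Real.log (av v (x t b)) - Real.log (av v (y t))) =
        (n + 1) * (∑ v ∈ S, wt v * Real.log (nrm (av v) (x t))) -
          ∑ b, (∑ v ∈ S, wt v * Real.log (av v (x t b))) -
            ∑ v ∈ S, wt v * Real.log (av v (y t)) := by
    have e3 : ∀ v, wt v * ((n + 1) * Real.log (nrm (av v) (x t)) -
        ∑ b, Real.log (av v (x t b)) - Real.log (av v (y t))) =
        (n + 1) * (wt v * Real.log (nrm (av v) (x t))) - ∑ b, wt v * Real.log (av v (x t b)) -
          wt v * Real.log (av v (y t)) := by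
      intro v
      rw [← Finset.mul_sum]
      ring
    rw [Finset.sum_congr rfl fun v _ => e3 v, Finset.sum_sub_distrib, Finset.sum_sub_distrib,
      ← Finset.mul_sum, Finset.sum_comm]
  rw [e2] at h1
  have e4 : ∀ b : Fin n, ∑ v ∈ S, wt v * Real.log (av v (x t b)) ≤ η * Nn t := fun b =>
    (part_prod hS _ (hu _ t)).trans (h4 _)
  have e5 : ∑ v ∈ S, wt v * Real.log (av v (y t)) ≤ η * Nn t :=
    (part_prod hS _ (hu _ t)).trans (h4 _)
  have e6 : ∑ b : Fin n, (∑ v ∈ S, wt v * Real.log (av v (x t b))) ≤ n * (η * Nn t) := by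
    refine (Finset.sum_le_sum fun b _ => e4 b).trans (le_of_eq ?_)
    rw [Finset.sum_const, Finset.card_univ, Fintype.card_fin, nsmul_eq_mul]
  have e7 : ∑ j : Fin n, logHeight₁ (cc j.castSucc t : k) ≤ n * (η * Nn t) := by
    refine (Finset.sum_le_sum fun b _ => h4 _).trans (le_of_eq ?_)
    rw [Finset.sum_const, Finset.card_univ, Fintype.card_fin, nsmul_eq_mul]
  have hnn : (0 : ℝ) ≤ n := Nat.cast_nonneg _
  have e8 : (n + 1) * (logHeight (x t) - n * (η * Nn t)) ≤
      (n + 1) * (∑ v ∈ S, wt v * Real.log (nrm (av v) (x t))) :=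
    mul_le_mul_of_nonneg_left (by linarith) (by linarith)
  have e9 : (1 / 2) * logHeight (x t) ≤ ((n + 1) * n + n + 1) * (η * Nn t) := by linarith
  have e10 : ((n : ℝ) + 1) * n + n + 1 ≤ (n + 2) * (n + 2) := by nlinarith
  have e11 : ((n : ℝ) + 2) * (n + 2) * (η * Nn t) = ε1 * Nn t / 4 := by
    rw [hη]
    have : ((n : ℝ) + 2) ≠ 0 := by positivity
    field_simp
  have e12 : (1 / 2) * logHeight (x t) ≤ ε1 * Nn t / 4 := by
    rw [← e11]
    exact e9.trans (mul_le_mul_of_nonneg_right e10 (by positivity))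
  have e13 : 0 < ε1 * Nn t := by positivity
  linarith

end Pool.Agent.T2H23.LG
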