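import Mathlib
import Pool.Agent.T2H23.LG.Negl
import Pool.Agent.T2H23.LG.Abs
import Pool.Agent.T2H23.LG.Stm

/-!
Points whose coordinates are short sums of units with coefficients of small height, on varieties
without rational curves.
-/

set_option autoImplicit false

namespace Pool.Agent.T2H23.LG

open Finset Filter Topology MvPolynomial Height Pool.Agent.T2H23.EL Pool.Agent.TH143.HE
open scoped LinearAlgebra.Projectivization

variable {k : Type} [Field k] [NumberField k] {α : Type}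

/-- the germs of the sequences of small height -/
def negK (k : Type) [Field k] [NumberField k] (𝓤 : Ultrafilter α) (Nn : α → ℝ)
    (hN : Tendsto Nn 𝓤 atTop) : Subfield (Germ (𝓤 : Filter α) k) where
  carrier := {g | ∃ a : α → k, g = (a : Germ (𝓤 : Filter α) k) ∧ Negl 𝓤 Nn a}
  mul_mem' := by
    rintro _ _ ⟨a, rfl, ha⟩ ⟨b, rfl, hb⟩
    exact ⟨fun t => a t * b t, rfl, ha.mul hb⟩
  one_mem' := ⟨fun _ => 1, rfl, Negl.const hN 1⟩
  add_mem' := by
    rintro _ _ ⟨a, rfl, ha⟩ ⟨b, rfl, hb⟩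
    exact ⟨fun t => a t + b t, rfl, Negl.add hN ha hb⟩
  zero_mem' := ⟨fun _ => 0, rfl, Negl.const hN 0⟩
  neg_mem' := by
    rintro _ ⟨a, rfl, ha⟩
    exact ⟨fun t => -(a t), rfl, ha.neg⟩
  inv_mem' := by
    rintro _ ⟨a, rfl, ha⟩
    exact ⟨fun t => (a t)⁻¹, rfl, ha.inv⟩

/-- the germs of the sequences of elements of `Γ` -/
def unitG (𝓤 : Ultrafilter α) (Γ : Subgroup kˣ) : Subgroup (Germ (𝓤 : Filter α) k)ˣ where
  carrier := {g | ∃ u : α → kˣ, (∀ t, u t ∈ Γ) ∧ (g : Germ (𝓤 : Filter α) k) = (fun t => (u t : k) :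
    α → k)}
  mul_mem' := by
    rintro g h ⟨u, hu, hg⟩ ⟨v, hv, hh⟩
    exact ⟨fun t => u t * v t, fun t => Γ.mul_mem (hu t) (hv t), by
      rw [Units.val_mul, hg, hh]
      rfl⟩
  one_mem' := ⟨fun _ => 1, fun _ => Γ.one_mem, rfl⟩
  inv_mem' := by
    rintro g ⟨u, hu, hg⟩
    refine ⟨fun t => (u t)⁻¹, fun t => Γ.inv_mem (hu t), ?_⟩
    rw [Units.val_inv_eq_inv_val, hg]
    simp only [Units.val_inv_eq_inv_val]
    rfl

theorem coe_sum {ι : Type} (s : Finset ι) (𝓤 : Ultrafilter α) (f : ι → α → k) :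
    ∑ i ∈ s, (f i : Germ (𝓤 : Filter α) k) = ((fun t => ∑ i ∈ s, f i t : α → k) :
      Germ (𝓤 : Filter α) k) := by
  classical
  have h1 := map_sum (Germ.coeRingHom (𝓤 : Filter α) (R := k)) f s
  have h2 : (∑ i ∈ s, f i : α → k) = fun t => ∑ i ∈ s, f i t := by
    funext t
    rw [Finset.sum_apply]
  rw [h2] at h1
  exact h1.symm

theorem ind_negl (𝓤 : Ultrafilter α) {Nn : α → ℝ} (hN : Tendsto Nn 𝓤 atTop) {Γ : Subgroup kˣ}
    (hΓ : Γ.FG) : Abs.Ind (negK k 𝓤 Nn hN) (unitG 𝓤 Γ) := by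
  intro m u hu hne c hc
  choose w hw huw using hu
  have hc' : ∀ i, ∃ a : α → k, ((c i : negK k 𝓤 Nn hN) : Germ (𝓤 : Filter α) k) =
      (a : Germ (𝓤 : Filter α) k) ∧ Negl 𝓤 Nn a := fun i => (c i).2
  choose a ha hna using hc'
  have h1 := indepS 𝓤 hΓ hN m w hw (fun i j hij hneg => by
    refine hne i j hij ⟨_, ⟨_, rfl, hneg⟩⟩ ?_
    rw [huw i, huw j]
    change ((fun t => (w i t : k) : α → k) : Germ (𝓤 : Filter α) k) =
      ((fun t => ((w i t : k) / w j t) * w j t : α → k) : Germ (𝓤 : Filter α) k)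
    congr 1
    funext t
    rw [div_mul_cancel₀ _ (w j t).ne_zero]) a hna (by
      have h2 : ∑ i, (((fun t => a i t * (w i t : k) : α → k)) : Germ (𝓤 : Filter α) k) = 0 := by
        rw [← hc]
        refine Finset.sum_congr rfl fun i _ => ?_
        rw [huw i]
        change _ = ((c i : negK k 𝓤 Nn hN) : Germ (𝓤 : Filter α) k) * _
        rw [ha i]
        rfl
      rw [coe_sum] at h2
      exact Germ.coe_eq.1 h2)
  intro i
  apply Subtype.ext
  rw [ha i]
  exact Germ.coe_eq.2 (h1 i)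

theorem sat_negl (𝓤 : Ultrafilter α) {Nn : α → ℝ} (hN : Tendsto Nn 𝓤 atTop) {Γ : Subgroup kˣ} :
    Abs.Sat (negK k 𝓤 Nn hN) (unitG 𝓤 Γ) := by
  rintro g ⟨u, hu, hg⟩ m hm ⟨⟨_, a, rfl, ha⟩, h1⟩
  have h2 : ((g ^ m : (Germ (𝓤 : Filter α) k)ˣ) : Germ (𝓤 : Filter α) k) =
      ((fun t => (u t : k) ^ m : α → k) : Germ (𝓤 : Filter α) k) := by
    rw [Units.val_zpow_eq_zpow_val, hg]
    rfl
  rw [h2] at h1
  have h3 : ∀ᶠ t in 𝓤, (u t : k) ^ m = a t := Germ.coe_eq.1 h1
  refine ⟨⟨g, (fun t => (u t : k)), hg, fun ε hε => ?_⟩, rfl⟩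
  filter_upwards [h3, ha ε hε] with t h4 h5
  rw [← h4, logHeight₁_zpow] at h5
  have h6 : (1 : ℝ) ≤ (m.natAbs : ℝ) := by
    exact_mod_cast Int.natAbs_pos.2 hm
  have h7 := zero_le_logHeight₁ (u t : k)
  nlinarith

/-- points of bounded height -/
theorem northcott {N : ℕ} (B : ℝ) : {c : ℙ k (Fin (N + 1) → k) | c.mulHeight ≤ B}.Finite := by
  classical
  have h1 : {v : Fin (N + 1) → k | ∀ j, v j ∈ {y : k | mulHeight₁ y ≤ B}}.Finite := by
    have := Set.Finite.pi (t := fun _ : Fin (N + 1) => {y : k | mulHeight₁ y ≤ B})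
      (fun _ => NumberField.finite_setOfPred_mulHeight₁_le k B)
    simpa [Set.pi] using this
  let f : (Fin (N + 1) → k) → ℙ k (Fin (N + 1) → k) := fun v =>
    if h : v ≠ 0 then Projectivization.mk k v h else Projectivization.mk k (fun _ => 1)
      (fun h => one_ne_zero (congrFun h 0))
  refine (h1.image f).subset ?_
  intro c hc
  obtain ⟨i0, hi0⟩ := Function.ne_iff.1 c.rep_nonzero
  have hi0' : c.rep i0 ≠ 0 := hi0
  have hv : (fun j => c.rep j / c.rep i0) ≠ 0 := fun h => by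
    have := congrFun h i0
    simp only [Pi.zero_apply, div_self hi0'] at this
    exact one_ne_zero this
  refine ⟨fun j => c.rep j / c.rep i0, fun j => ?_, ?_⟩
  · show mulHeight₁ _ ≤ B
    rw [mulHeight₁_div_eq_mulHeight]
    have h8 : ![c.rep j, c.rep i0] = c.rep ∘ ![j, i0] := by
      funext i
      fin_cases i <;> rfl
    rw [h8]
    refine (mulHeight_comp_le _ _).trans ?_
    rw [← Projectivization.mulHeight_mk c.rep_nonzero, c.mk_rep]
    exact hc
  · simp only [f, dif_pos hv]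
    conv_rhs => rw [← c.mk_rep]
    rw [Projectivization.mk_eq_mk_iff']
    exact ⟨(c.rep i0)⁻¹, by
      funext j
      rw [Pi.smul_apply, smul_eq_mul, div_eq_inv_mul]⟩

/-- the height of a vector is at most the product of the heights of the coordinates -/
theorem height_prod {N : ℕ} (b : Fin N → k) : logHeight b ≤ ∑ j, logHeight₁ (b j) := by
  classical
  have h1 := logHeight_fun_prod_eq (K := k) (α := Fin N) (ι := fun _ => Fin 2)
    (x := fun j => ![b j, 1]) (fun _ h => by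
      have := congrFun h 1
      simp at this)
  have h2 : b = (fun I : Fin N → Fin 2 => ∏ a, (![b a, 1] : Fin 2 → k) (I a)) ∘
      fun j a => if a = j then 0 else 1 := by
    funext j
    simp only [Function.comp]
    rw [Finset.prod_eq_single j]
    · simp
    · intro a _ ha
      rw [if_neg ha]
      rfl
    · intro h
      exact absurd (Finset.mem_univ j) h
  conv_lhs => rw [h2]
  refine (logHeight_comp_le _ _).trans ?_
  rw [h1]
  exact le_of_eq (Finset.sum_congr rfl fun j _ => (logHeight₁_eq_logHeight _).symm)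

end Pool.Agent.T2H23.LG
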