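import Mathlib
import Pool.Agent.T2H23.LG.Orb
import Pool.Agent.R869.WTor
import Pool.Agent.R869.SDir

/-!
Entire curves: homogeneous coordinates without common zeros; varieties whose entire curves lie on
orbits of one-parameter groups of diagonal matrices.
-/

set_option autoImplicit false

namespace Pool.Agent.T2H23.LG

open MvPolynomial Filter Set Topology Pool.Agent.T2H23.EL Pool.Agent.TH143.HE
open scoped LinearAlgebra.Projectivization
open Pool.Agent.Y190.OP (HolP Phi zero_free Phi_inj Phi_smul)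

variable {N : ℕ}

theorem rep_scale {A : Type} [Field A] {p : ℙ A (Fin (N + 1) → A)} {v : Fin (N + 1) → A}
    (h : Rep p v) {c : A} (hc : c ≠ 0) : Rep p (c • v) := by
  obtain ⟨h0, rfl⟩ := h
  refine ⟨smul_ne_zero hc h0, ?_⟩
  rw [Projectivization.mk_eq_mk_iff']
  exact ⟨c⁻¹, by rw [smul_smul, inv_mul_cancel₀ hc, one_smul]⟩

theorem rep_self {A : Type} [Field A] (p : ℙ A (Fin (N + 1) → A)) : Rep p p.rep :=
  ⟨p.rep_nonzero, p.mk_rep.symm⟩

/-- coordinates without common zeros -/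
theorem hol_lift {f : ℂ → ℙ ℂ (Fin (N + 1) → ℂ)} (hf : Hol f) :
    ∃ g : ℂ → Fin (N + 1) → ℂ, Differentiable ℂ g ∧ ∀ z, Rep (f z) (g z) := by
  have hH : HolP univ fun t => Phi (f t).rep := by
    intro t0 _
    obtain ⟨ψ, hψ, hev⟩ := hf t0
    have h1 : ∀ᶠ t in 𝓝 t0, ∀ j, AnalyticAt ℂ (ψ j) t :=
      eventually_all.2 fun j => (hψ j).eventually_analyticAt
    obtain ⟨V, hVsub, hV, hzV⟩ := _root_.mem_nhds_iff.1 (h1.and hev)
    refine ⟨V, fun t j => ψ j t, hV, hzV, fun t ht => ?_, fun t ht => ?_⟩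
    · refine DifferentiableAt.differentiableWithinAt (differentiableAt_pi.2 fun j => ?_)
      exact ((hVsub ht).1 j).differentiableAt
    · obtain ⟨h4, h5⟩ := (hVsub ht).2
      refine ⟨h4, ?_⟩
      change Phi (f t).rep = Phi (fun j => ψ j t)
      rw [h5]
      obtain ⟨a, ha⟩ := Projectivization.exists_smul_eq_mk_rep ℂ _ h4
      have ha' : (Projectivization.mk ℂ _ h4).rep = (a : ℂ) • (fun j => ψ j t) := ha.symm
      rw [ha', Phi_smul a.ne_zero]
  obtain ⟨g, hg, hg0, hgφ⟩ := zero_free hH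
  refine ⟨g, hg, fun z => ?_⟩
  obtain ⟨c, hc, hc'⟩ := Phi_inj (Projectivization.rep_nonzero _) (hg0 z) (hgφ z)
  rw [hc']
  exact rep_scale (rep_self _) hc

/-- the product of entire functions which do not vanish identically -/
theorem exists_ne_two {f g : ℂ → ℂ} (hf : Differentiable ℂ f) (hg : Differentiable ℂ g)
    (hf0 : ∃ z, f z ≠ 0) (hg0 : ∃ z, g z ≠ 0) : ∃ z, f z * g z ≠ 0 := by
  by_contra hcon
  push Not at hcon
  have hfa : AnalyticOnNhd ℂ f univ := fun z _ => hf.analyticAt z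
  have hga : AnalyticOnNhd ℂ g univ := fun z _ => hg.analyticAt z
  obtain ⟨z0, hz0⟩ := hf0
  obtain ⟨z1, hz1⟩ := hg0
  have h1 : ∀ᶠ z in 𝓝 z0, f z ≠ 0 := (hf.continuous.continuousAt).eventually_ne hz0
  have h2 : ∀ᶠ z in 𝓝 z0, g z = 0 := by
    filter_upwards [h1] with z hz
    exact (mul_eq_zero.1 (hcon z)).resolve_left hz
  exact hz1 (hga.eqOn_zero_of_preconnected_of_eventuallyEq_zero isPreconnected_univ
    (mem_univ z0) h2 (mem_univ z1))

/-- All points of each entire curve in `{F = 0}` are on nonconstant orbits of one-parameter groups of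
diagonal matrices in `{F = 0}`. -/
def Swept {ι : Type} (F : ι → MvPolynomial (Fin (N + 1)) ℂ) : Prop :=
  ∀ f, Pool.Agent.H159R3.GGLLog.EntireCurve ∅ F f → ∃ b : Fin (N + 1) → ℤ,
    (∃ j l, b j ≠ b l ∧ (∃ z, f z j ≠ 0) ∧ ∃ z, f z l ≠ 0) ∧
      ∀ z, Pool.Agent.R869.Wd.OrbitIn F b (f z)

variable {K : Type} [Field K]

theorem eval_map' {A : Type} [Field A] (φ : K →+* A) (v : Fin (N + 1) → A)
    (G : MvPolynomial (Fin (N + 1)) K) : eval v (map φ G) = eval₂ φ v G := by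
  rw [eval_map]

/-- forms in the ideal generated by forms -/
theorem zero_span {A : Type} [CommRing A] {φ : K →+* A} {ι : Type}
    {F : ι → MvPolynomial (Fin (N + 1)) K} {v : Fin (N + 1) → A} (h : ∀ e, eval₂ φ v (F e) = 0) :
    Zero φ (Ideal.span (Set.range F)) v := by
  intro G hG _
  have h1 : Ideal.span (Set.range F) ≤ RingHom.ker (eval₂Hom φ v) := by
    rw [Ideal.span_le]
    rintro _ ⟨e, rfl⟩
    exact h e
  exact h1 hG

theorem hyperbolic_of_orbits {σ : K →+* ℂ} {ι : Type} {F : ι → MvPolynomial (Fin (N + 1)) K}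
    (hF : ∀ e, ∃ d, (F e).IsHomogeneous d) (hS : Swept fun e => map σ (F e))
    {I' : Ideal (MvPolynomial (Fin (N + 1)) K)} (h : OrbitsIn σ (Ideal.span (Set.range F)) I') :
    Hyperbolic σ (Ideal.span (Set.range F)) I' := by
  classical
  rintro f ⟨hf, hX, ⟨z1, z2, hnc⟩, ⟨z0, hout⟩⟩
  obtain ⟨g, hg, hrep⟩ := hol_lift hf
  have hgF : ∀ z e, eval (g z) (map σ (F e)) = 0 := by
    intro z e
    rw [eval_map]
    exact (mem_pts (hrep z)).1 (hX z) _ (Ideal.subset_span ⟨e, rfl⟩) (hF e)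
  have hcurve : Pool.Agent.H159R3.GGLLog.EntireCurve ∅ (fun e => map σ (F e)) g := by
    refine ⟨hg, fun z => ⟨(hrep z).1, fun j hj => absurd hj (Set.notMem_empty j), hgF z⟩, z1, z2,
      fun c hc => hnc ?_⟩
    have hc0 : c ≠ 0 := by
      rintro rfl
      rw [zero_smul] at hc
      exact (hrep z1).1 hc
    obtain ⟨h1, h2⟩ := hrep z1
    obtain ⟨h3, h4⟩ := hrep z2
    rw [h2, h4, Projectivization.mk_eq_mk_iff']
    exact ⟨c, hc.symm⟩
  obtain ⟨b, ⟨j, l, hjl, hj, hl⟩, horb⟩ := hS g hcurve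
  have hout' : ∃ G ∈ I', (∃ d, G.IsHomogeneous d) ∧ eval₂ σ (g z0) G ≠ 0 := by
    by_contra hcon
    push Not at hcon
    exact hout ((mem_pts (hrep z0)).2 fun G hG hGh => hcon G hG hGh)
  obtain ⟨G, hG, hGh, hGne⟩ := hout'
  have hgj : ∀ i, Differentiable ℂ fun z => g z i := fun i => differentiable_pi.1 hg i
  have hGd : Differentiable ℂ fun z => eval₂ σ (g z) G := eval₂_diff hgj G
  obtain ⟨z, hz⟩ := exists_ne_two ((hgj j).mul (hgj l)) hGd
    (exists_ne_two (hgj j) (hgj l) hj hl) ⟨z0, hGne⟩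
  have hz1 : g z j * g z l ≠ 0 := left_ne_zero_of_mul hz
  have hz2 : eval₂ σ (g z) G ≠ 0 := right_ne_zero_of_mul hz
  have h5 := h (g z) b ⟨j, l, left_ne_zero_of_mul hz1, right_ne_zero_of_mul hz1, hjl⟩
    (fun t ht => zero_span fun e => by
      have h6 := horb z t ht e
      rwa [eval_map] at h6) 1 one_ne_zero
  apply hz2
  have h6 := h5 G hG hGh
  simpa only [one_zpow, one_mul] using h6

end Pool.Agent.T2H23.LG
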