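import Mathlib
import Pool.Agent.T2H23.LG.Zfree
import Pool.Agent.T2H23.LG.Few
import Pool.Agent.R869.SPtd
import Pool.Agent.R869.UAll
import Pool.Agent.R869.SLoc

/-!
Lang's equivalence for varieties whose entire curves lie on orbits.
-/

set_option autoImplicit false

namespace Pool.Agent.T2H23.LG

open MvPolynomial Filter Set Topology Pool.Agent.T2H23.EL Pool.Agent.TH143.HE
open scoped LinearAlgebra.Projectivization

variable {N : ℕ} {K : Type} [Field K]

/-- the polynomials which vanish on the orbits -/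
def orbIdeal (I : Ideal (MvPolynomial (Fin (N + 1)) K)) : Ideal (MvPolynomial (Fin (N + 1)) K) where
  carrier := {G | ∀ (L : Type) [Field L] [NumberField L] [Algebra K L] (x : Fin (N + 1) → L)
    (b : Fin (N + 1) → ℤ), (∃ j k, x j ≠ 0 ∧ x k ≠ 0 ∧ b j ≠ b k) →
    (∀ t : L, t ≠ 0 → Zero (algebraMap K L) I fun j => t ^ b j * x j) →
      ∀ t : L, t ≠ 0 → eval₂ (algebraMap K L) (fun j => t ^ b j * x j) G = 0}
  add_mem' := by
    intro G H hG hH L _ _ _ x b h1 h2 t ht
    rw [eval₂_add, hG L x b h1 h2 t ht, hH L x b h1 h2 t ht, add_zero]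
  zero_mem' := by
    intro L _ _ _ x b h1 h2 t ht
    rw [eval₂_zero]
  smul_mem' := by
    intro c G hG L _ _ _ x b h1 h2 t ht
    rw [smul_eq_mul, eval₂_mul, hG L x b h1 h2 t ht, mul_zero]

theorem formsIn_iff (I I' : Ideal (MvPolynomial (Fin (N + 1)) K)) :
    FormsIn I' (orbIdeal I) ↔ NoOrbit I I' := by
  constructor
  · intro h L _ _ _ x b h1 h2 t ht G hG hGh
    exact h G hG hGh L x b h1 h2 t ht
  · intro h G hG hGh L _ _ _ x b h1 h2 t ht
    exact h L x b h1 h2 t ht G hG hGh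

theorem formsIn_self (I : Ideal (MvPolynomial (Fin (N + 1)) K)) : FormsIn I (orbIdeal I) :=
  (formsIn_iff I I).2 fun _ _ _ _ _ _ _ h => h

/-- All points of each entire curve in `{F = 0}` are on nonconstant orbits of one-parameter groups of
diagonal matrices in `{F = 0}`, with exponents in `B`. -/
def SweptB {ι : Type} (F : ι → MvPolynomial (Fin (N + 1)) ℂ) (B : Finset (Fin (N + 1) → ℤ)) :
    Prop :=
  ∀ f, Pool.Agent.H159R3.GGLLog.EntireCurve ∅ F f → ∃ b ∈ B,
    (∃ j l, b j ≠ b l ∧ (∃ z, f z j ≠ 0) ∧ ∃ z, f z l ≠ 0) ∧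
      ∀ z, Pool.Agent.R869.Wd.OrbitIn F b (f z)

/-- All nonconstant orbits with exponents in `B` lie in `Z`. -/
def OrbitsInB {A : Type} [Field A] (φ : K →+* A) (I I' : Ideal (MvPolynomial (Fin (N + 1)) K))
    (B : Finset (Fin (N + 1) → ℤ)) : Prop :=
  ∀ (x : Fin (N + 1) → A), ∀ b ∈ B, (∃ j k, x j ≠ 0 ∧ x k ≠ 0 ∧ b j ≠ b k) →
    (∀ t : A, t ≠ 0 → Zero φ I fun j => t ^ b j * x j) →
      ∀ t : A, t ≠ 0 → Zero φ I' fun j => t ^ b j * x j

theorem hyperbolic_of_orbitsB {σ : K →+* ℂ} {ι : Type} {F : ι → MvPolynomial (Fin (N + 1)) K}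
    (hF : ∀ e, ∃ d, (F e).IsHomogeneous d) {B : Finset (Fin (N + 1) → ℤ)}
    (hS : SweptB (fun e => map σ (F e)) B)
    {I' : Ideal (MvPolynomial (Fin (N + 1)) K)}
    (h : OrbitsInB σ (Ideal.span (Set.range F)) I' B) :
    Hyperbolic σ (Ideal.span (Set.range F)) I' := by
  classical
  rintro f ⟨hf, hX, ⟨z1, z2, hnc⟩, ⟨z0, hout⟩⟩
  obtain ⟨g, hg, hrep⟩ := hol_lift hf
  have hgF : ∀ z e, eval (g z) (map σ (F e)) = 0 := by
    intro z e
    rw [eval_map]
    exact (mem_pts (hrep z)).1 (hX z) _ (Ideal.subset_span ⟨e, rfl⟩) (hF e)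
  have hcurve : Pool.Agent.H159R3.GGLLog.EntireCurve ∅ (fun e => map σ (F e)) g := by
    refine ⟨hg, fun z => ⟨(hrep z).1, fun j hj => absurd hj (Set.notMem_empty j), hgF z⟩, z1, z2,
      fun c hc => hnc ?_⟩
    have hc0 : c ≠ 0 := by
      rintro rfl
      rw [zero_smul] at hc
      exact (hrep z1).1 hc
    obtain ⟨h1, h2⟩ := hrep z1
    obtain ⟨h3, h4⟩ := hrep z2
    rw [h2, h4, Projectivization.mk_eq_mk_iff']
    exact ⟨c, hc.symm⟩
  obtain ⟨b, hb, ⟨j, l, hjl, hj, hl⟩, horb⟩ := hS g hcurve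
  have hout' : ∃ G ∈ I', (∃ d, G.IsHomogeneous d) ∧ eval₂ σ (g z0) G ≠ 0 := by
    by_contra hcon
    push Not at hcon
    exact hout ((mem_pts (hrep z0)).2 fun G hG hGh => hcon G hG hGh)
  obtain ⟨G, hG, hGh, hGne⟩ := hout'
  have hgj : ∀ i, Differentiable ℂ fun z => g z i := fun i => differentiable_pi.1 hg i
  have hGd : Differentiable ℂ fun z => eval₂ σ (g z) G := eval₂_diff hgj G
  obtain ⟨z, hz⟩ := exists_ne_two ((hgj j).mul (hgj l)) hGd
    (exists_ne_two (hgj j) (hgj l) hj hl) ⟨z0, hGne⟩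
  have hz1 : g z j * g z l ≠ 0 := left_ne_zero_of_mul hz
  have hz2 : eval₂ σ (g z) G ≠ 0 := right_ne_zero_of_mul hz
  have h5 := h (g z) b hb ⟨j, l, left_ne_zero_of_mul hz1, right_ne_zero_of_mul hz1, hjl⟩
    (fun t ht => zero_span fun e => by
      have h6 := horb z t ht e
      rwa [eval_map] at h6) 1 one_ne_zero
  apply hz2
  have h6 := h5 G hG hGh
  simpa only [one_zpow, one_mul] using h6

/-- the exponents are bounded by `δ` after a translation -/
def Bounded (B : Finset (Fin (N + 1) → ℤ)) (δ : ℕ) : Prop :=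
  ∀ b ∈ B, ∃ (M : ℤ) (b' : Fin (N + 1) → ℕ), ∀ j, (b' j : ℤ) = b j + M ∧ b' j ≤ δ

theorem exists_bounded (B : Finset (Fin (N + 1) → ℤ)) : ∃ δ, Bounded B δ := by
  classical
  refine ⟨∑ b ∈ B, ∑ j, 2 * (b j).natAbs, fun b hb => ?_⟩
  refine ⟨∑ j, ((b j).natAbs : ℤ), fun j => (b j + ∑ j, ((b j).natAbs : ℤ)).toNat, fun j => ?_⟩
  have h1 : ((b j).natAbs : ℤ) ≤ ∑ j, ((b j).natAbs : ℤ) :=
    Finset.single_le_sum (f := fun j => ((b j).natAbs : ℤ)) (fun i _ => by positivity)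
      (Finset.mem_univ j)
  have h2 : 0 ≤ b j + ∑ j, ((b j).natAbs : ℤ) := by omega
  refine ⟨Int.toNat_of_nonneg h2, ?_⟩
  have h3 : (∑ j, 2 * (b j).natAbs) ≤ ∑ b ∈ B, ∑ j, 2 * (b j).natAbs :=
    Finset.single_le_sum (f := fun b : Fin (N + 1) → ℤ => ∑ j, 2 * (b j).natAbs)
      (fun i _ => Nat.zero_le _) hb
  refine le_trans ?_ h3
  rw [← Finset.mul_sum]
  have h4 : ((∑ j, (b j).natAbs : ℕ) : ℤ) = ∑ j, ((b j).natAbs : ℤ) := by push_cast; rfl
  change (b j + ∑ j, ((b j).natAbs : ℤ)).toNat ≤ 2 * ∑ j, (b j).natAbs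
  rw [← h4] at h1 ⊢
  omega

theorem orbitsInB_of {A : Type} [Field A] [Infinite A] {φ : K →+* A}
    {I I' : Ideal (MvPolynomial (Fin (N + 1)) K)} {B : Finset (Fin (N + 1) → ℤ)} {δ : ℕ}
    (hB : Bounded B δ)
    (h : ∀ (x : Fin (N + 1) → A) (b : Fin (N + 1) → ℕ), (∀ j, b j ≤ δ) →
      ¬ RCur φ I I' (mono x b)) : OrbitsInB φ I I' B := by
  classical
  rintro x b hb ⟨j0, k0, hj0, hk0, hb0⟩ hX
  by_contra hcon
  push Not at hcon
  obtain ⟨t0, ht0, hZ⟩ := hcon
  obtain ⟨M, b', hb'⟩ := hB b hb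
  have h3 : ∀ t : A, t ≠ 0 → (fun j => (mono x b' j).eval t) = fun j => t ^ M * (t ^ b j * x j) := by
    intro t ht
    rw [mono_eval]
    funext j
    rw [← mul_assoc, ← zpow_add₀ ht, add_comm M, ← (hb' j).1, zpow_natCast]
  have h4 : ∀ (G : MvPolynomial (Fin (N + 1)) K) (d : ℕ), G.IsHomogeneous d → ∀ t : A, t ≠ 0 →
      (eval₂ (Polynomial.C.comp φ) (mono x b') G).eval t = (t ^ M) ^ d *
        eval₂ φ (fun j => t ^ b j * x j) G := by
    intro G d hG t ht
    rw [Pool.Agent.TH143.HE.eval₂_eval, h3 t ht, eval₂_scale φ hG]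
  refine h x b' (fun j => (hb' j).2) ⟨fun G hG hGh => ?_, ?_, ?_⟩
  · obtain ⟨d, hd⟩ := hGh
    have h5 : (eval₂ (Polynomial.C.comp φ) (mono x b') G * Polynomial.X) = 0 := by
      apply Polynomial.funext
      intro t
      rw [Polynomial.eval_mul, Polynomial.eval_X, Polynomial.eval_zero]
      by_cases ht : t = 0
      · rw [ht, mul_zero]
      · rw [h4 G d hd t ht, hX t ht G hG ⟨d, hd⟩, mul_zero, zero_mul]
    exact (mul_eq_zero.1 h5).resolve_right Polynomial.X_ne_zero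
  · unfold Pool.Agent.T2H23.EL.Zero at hZ
    push Not at hZ
    obtain ⟨G, hG, ⟨d, hd⟩, hne⟩ := hZ
    refine ⟨G, hG, ⟨d, hd⟩, fun h0 => ?_⟩
    have h5 := h4 G d hd t0 ht0
    rw [h0, Polynomial.eval_zero] at h5
    exact mul_ne_zero (pow_ne_zero _ (zpow_ne_zero _ ht0)) hne h5.symm
  · refine ⟨j0, k0, b' j0, b' k0, ?_⟩
    have h5 : b' j0 ≠ b' k0 := by
      intro h5
      apply hb0
      have h6 : (b' j0 : ℤ) = b' k0 := by rw [h5]
      rw [(hb' j0).1, (hb' k0).1] at h6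
      linarith
    simp only [mono_coeff, if_true]
    rw [if_neg h5, zero_mul]
    exact mul_ne_zero hj0 hk0

/-- specialization of the orbits with bounded exponents -/
theorem mono_spec [NumberField K] {I I' : Ideal (MvPolynomial (Fin (N + 1)) K)} {δ : ℕ}
    (h : ∀ (L : Type) [Field L] [NumberField L] [Algebra K L] (x : Fin (N + 1) → L)
      (b : Fin (N + 1) → ℕ), (∀ j, b j ≤ δ) → ¬ RCur (algebraMap K L) I I' (mono x b))
    (σ : K →+* ℂ) (x : Fin (N + 1) → ℂ) (b : Fin (N + 1) → ℕ) (hb : ∀ j, b j ≤ δ) :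
    ¬ RCur σ I I' (mono x b) := by
  classical
  let _ : Algebra K ℂ := σ.toAlgebra
  intro hp
  have hp1 : RCur ((algebraMap K ℂ).comp (RingHom.id K)) I I' (mono x b) := hp
  obtain ⟨L, _, _, _, p', hp', hsupp⟩ := spec_supp (k := K) (E := ℂ) (RingHom.id K) hp1
  have hchar : CharZero L := charZero_of_injective_algebraMap (algebraMap K L).injective
  have hfin : FiniteDimensional ℚ L := FiniteDimensional.trans ℚ K L
  have hnf : NumberField L := ⟨⟩
  rw [RingHom.comp_id] at hp'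
  have h1 : p' = mono (fun j => (p' j).coeff (b j)) b := by
    funext j
    ext i
    rw [mono_coeff]
    split_ifs with hi
    · rw [hi]
    · refine hsupp j i ?_
      rw [mono_coeff, if_neg hi]
  have h2 := h L (fun j => (p' j).coeff (b j)) b hb
  rw [← h1] at h2
  exact h2 hp'

/-- **Lang's equivalence** for varieties whose entire curves lie on orbits. -/
theorem orbitLang_of [NumberField K] {ι : Type} {F : ι → MvPolynomial (Fin (N + 1)) K}
    (hF : ∀ e, ∃ d, (F e).IsHomogeneous d) {B : Finset (Fin (N + 1) → ℤ)} {δ : ℕ}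
    (hB : Bounded B δ) (hS : ∀ σ : K →+* ℂ, SweptB (fun e => map σ (F e)) B)
    {κ : ℝ} (hκ0 : 0 ≤ κ) (hκ : δ * κ < 2) :
    OrbitLang κ (Ideal.span (Set.range F)) := by
  refine ⟨orbIdeal _, formsIn_self _, fun σ I' => ?_⟩
  set I : Ideal (MvPolynomial (Fin (N + 1)) K) := Ideal.span (Set.range F) with hI
  obtain ⟨E1, E2, -⟩ := EL.main σ I I'
  have h52 : NoOrbit I I' → Hyperbolic σ I I' := fun h =>
    hyperbolic_of_orbitsB hF (hS σ) fun x b _ => orbitsIn_of_noOrbit h σ x b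
  have key : [FormsIn I' (orbIdeal I), Hyperbolic σ I I', NoOrbit I I', NoRational I I',
      NoGenusOne I I', ShortFinite I I', UnitFinite I I', UnitSlow I I'].TFAE := by
    tfae_have 1 ↔ 3 := formsIn_iff I I'
    tfae_have 2 → 5 := fun h => (E1.out 0 3).1 fun f _ => h f
    tfae_have 5 → 4 := fun h L _ _ _ => (h L).1
    tfae_have 4 → 6 := short_of_noRational
    tfae_have 6 → 7 := fun h => unitFinite_of_sum (sumFinite_of_short h)
    tfae_have 7 → 8 := unitSlow_of_finite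
    tfae_have 8 → 3 := noOrbit_of_unitSlow
    tfae_have 3 → 2 := h52
    tfae_finish
  refine ⟨key, fun h => ?_, fewPoints_of_finiteness hκ0⟩
  refine hyperbolic_of_orbitsB hF (hS σ) (orbitsInB_of hB fun x b hb => ?_)
  refine mono_spec (δ := δ) (fun L _ _ _ x b hb hp => ?_) σ x b hb
  refine few_contra hp (D := δ) (fun j => ?_) hκ0 hκ h
  exact (Polynomial.natDegree_C_mul_X_pow_le _ _).trans (hb j)

/-- the one-parameter groups for sets of exponents -/
theorem exists_groups {ι : Type} [Finite ι] (T : ι → Finset (Fin (N + 1) →₀ ℕ)) :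
    ∃ (B : Finset (Fin (N + 1) → ℤ)) (δ : ℕ), Bounded B δ ∧
      ∀ (κ : Type) (F : κ → MvPolynomial (Fin (N + 1)) ℂ) (s M : ℕ),
        (∀ e, ∃ i, (F e).support ⊆ T i) → Pool.Agent.R869.Wd.Sys ∅ F s M → SweptB F B := by
  classical
  obtain ⟨B, hB⟩ := Pool.Agent.R869.Wd.exists_dirs T
  obtain ⟨δ, hδ⟩ := exists_bounded B
  refine ⟨B, δ, hδ, fun κ F s M hT hC => ?_⟩
  choose i hi using hT
  obtain ⟨-, h, -⟩ := Pool.Agent.R869.Wd.dirs hC (T := fun e => T (i e)) hi (B := B) fun b => by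
    obtain ⟨b', hb', h1, h2⟩ := hB b
    exact ⟨b', hb', h1, fun e => h2 (i e)⟩
  exact h

theorem exists_kappa (δ : ℕ) : ∃ κ : ℝ, 0 < κ ∧ δ * κ < 2 := by
  refine ⟨1 / ((δ : ℝ) + 1), by positivity, ?_⟩
  rw [mul_one_div, div_lt_iff₀ (by positivity)]
  have : (0 : ℝ) ≤ δ := Nat.cast_nonneg _
  linarith

theorem supp_map (σ : K →+* ℂ) (F : MvPolynomial (Fin (N + 1)) K) :
    (map σ F).support = F.support := support_map_of_injective F σ.injective

theorem sys_map {n s M : ℕ} {ι : Type} {T : ι → Finset (Fin (n + 1) →₀ ℕ)}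
    {F : ι → MvPolynomial (Fin (n + 1)) K}
    (hF : ∀ e, ∃ d, (F e).IsHomogeneous d) (hs : 1 ≤ s) (hcard : ∀ e, (T e).card ≤ s)
    (hT : ∀ e, (F e).support ⊆ T e) (hW : Pool.Agent.R869.Wd.WideT ∅ T M)
    (hM : n * (s * ((s - 1) * (s - 2) / 2)) < M) (σ : K →+* ℂ) :
    Pool.Agent.R869.Wd.Sys ∅ (fun e => map σ (F e)) s M where
  form := fun e => by
    obtain ⟨d, hd⟩ := hF e
    exact ⟨d, hd.map σ⟩
  pos := hs
  card := fun e => by
    rw [supp_map]
    exact (Finset.card_le_card (hT e)).trans (hcard e)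
  wide := Pool.Agent.R869.Wd.wide_of_wideT hW fun e => (supp_map σ (F e)).subset.trans (hT e)
  num := by
    rw [Pool.Agent.R869.Wd.tri_choose]
    refine lt_of_le_of_lt (le_of_eq ?_) hM
    ring

/-- the coefficient vectors stay linearly independent -/
theorem genCoeffs_map {m n : ℕ} {F : Fin m → MvPolynomial (Fin (n + 1)) K}
    {T : Finset (Fin (n + 1) →₀ ℕ)} (h : Pool.Agent.R869.Wd.GenCoeffs F T) (σ : K →+* ℂ) :
    Pool.Agent.R869.Wd.GenCoeffs (fun e => map σ (F e)) T := by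
  classical
  intro S hS hc
  have h1 := h S hS hc
  obtain ⟨g, hg⟩ := LinearMap.exists_leftInverse_of_injective _ (LinearMap.ker_eq_bot.2 h1)
  have h2 : ∀ α : S, ∃ c : Fin m → K, ∀ β : S, ∑ e, c e * (F e).coeff (β : Fin (n + 1) →₀ ℕ) =
      if α = β then 1 else 0 := by
    intro α
    refine ⟨fun e => g (Pi.single e 1) α, fun β => ?_⟩
    have h3 : g (fun e => (F e).coeff (β : Fin (n + 1) →₀ ℕ)) = Finsupp.single β 1 := by
      have h4 := LinearMap.congr_fun hg (Finsupp.single β 1)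
      rw [LinearMap.comp_apply, Finsupp.linearCombination_single, one_smul] at h4
      exact h4
    have h5 : (fun e => (F e).coeff (β : Fin (n + 1) →₀ ℕ)) =
        ∑ e, (F e).coeff (β : Fin (n + 1) →₀ ℕ) • (Pi.single e 1 : Fin m → K) := by
      funext e'
      simp [Finset.sum_apply, Pi.single_apply]
    have h6 := DFunLike.congr_fun h3 α
    rw [h5, map_sum, Finsupp.finsetSum_apply, Finsupp.single_apply] at h6
    simp only [map_smul, Finsupp.smul_apply, smul_eq_mul] at h6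
    simp only [eq_comm (a := α)]
    rw [← h6]
    exact Finset.sum_congr rfl fun e _ => mul_comm _ _
  rw [Fintype.linearIndependent_iff]
  intro x hx α
  obtain ⟨c, hc⟩ := h2 α
  have h3 : ∀ e, ∑ β : S, x β * σ ((F e).coeff (β : Fin (n + 1) →₀ ℕ)) = 0 := by
    intro e
    have h4 := congrFun hx e
    simp only [Finset.sum_apply, Pi.smul_apply, smul_eq_mul, Pi.zero_apply, coeff_map] at h4
    exact h4
  calc x α = ∑ β : S, x β * σ (if α = β then 1 else 0) := by
        rw [Finset.sum_eq_single α]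
        · rw [if_pos rfl, map_one, mul_one]
        · intro β _ hβ
          rw [if_neg (Ne.symm hβ), map_zero, mul_zero]
        · intro h
          exact absurd (Finset.mem_univ _) h
    _ = ∑ β : S, x β * ∑ e, σ (c e) * σ ((F e).coeff (β : Fin (n + 1) →₀ ℕ)) := by
        refine Finset.sum_congr rfl fun β _ => ?_
        rw [← hc β, map_sum]
        simp only [map_mul]
    _ = ∑ e, σ (c e) * ∑ β : S, x β * σ ((F e).coeff (β : Fin (n + 1) →₀ ℕ)) := by
        simp only [Finset.mul_sum]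
        rw [Finset.sum_comm]
        refine Finset.sum_congr rfl fun e _ => Finset.sum_congr rfl fun β _ => ?_
        ring
    _ = 0 := by simp only [h3, mul_zero, Finset.sum_const_zero]

/-- hyperbolicity with homogeneous coordinates -/
theorem hyperbolic_iff {ι : Type} {F : ι → MvPolynomial (Fin (N + 1)) K}
    (hF : ∀ e, ∃ d, (F e).IsHomogeneous d) (σ : K →+* ℂ) :
    Hyperbolic σ (Ideal.span (Set.range F)) ⊤ ↔
      Pool.Agent.H159R3.GGLLog.SpH ∅ (fun e => map σ (F e)) = ∅ := by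
  classical
  rw [Pool.Agent.R869.Wd.brody_iff]
  constructor
  · intro h g hg hg0 hgF z w
    by_contra hcon
    push Not at hcon
    have hrep : ∀ z, Rep (Projectivization.mk ℂ (g z) (hg0 z)) (g z) := fun z => ⟨hg0 z, rfl⟩
    refine h (fun z => Projectivization.mk ℂ (g z) (hg0 z)) ⟨fun a => ?_, fun z => ?_,
      ⟨z, w, fun h0 => ?_⟩, ⟨z, fun h0 => ?_⟩⟩
    · refine ⟨fun j z => g z j, fun j => ?_, Eventually.of_forall fun z => hrep z⟩
      exact (differentiable_pi.1 hg j).analyticAt a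
    · rw [mem_pts (hrep z)]
      exact zero_span fun e => by
        have := hgF z e
        rwa [eval_map] at this
    · rw [Projectivization.mk_eq_mk_iff'] at h0
      obtain ⟨c, hc⟩ := h0
      exact hcon c hc.symm
    · rw [mem_pts (hrep z)] at h0
      have h1 := h0 1 Submodule.mem_top ⟨0, isHomogeneous_one _ _⟩
      rw [eval₂_one] at h1
      exact one_ne_zero h1
  · rintro h f ⟨hf, hX, ⟨z1, z2, hnc⟩, -⟩
    obtain ⟨g, hg, hrep⟩ := hol_lift hf
    obtain ⟨c, hc⟩ := h g hg (fun z => (hrep z).1) (fun z e => by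
      rw [eval_map]
      exact (mem_pts (hrep z)).1 (hX z) _ (Ideal.subset_span ⟨e, rfl⟩) (hF e)) z1 z2
    apply hnc
    obtain ⟨h1, h2⟩ := hrep z1
    obtain ⟨h3, h4⟩ := hrep z2
    rw [h2, h4, Projectivization.mk_eq_mk_iff']
    exact ⟨c, hc.symm⟩

end Pool.Agent.T2H23.LG
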