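import Mathlib
import Pool.Agent.T2H23.LG.Line
import Pool.Agent.T2H23.LG.LClass
import Pool.Agent.Y190.SN.Pt

/-!
Lang's equivalence for varieties whose entire curves lie in the closure of the union of the lines.
-/

set_option autoImplicit false

namespace Pool.Agent.T2H23.LG

open MvPolynomial Filter Set Topology Pool.Agent.T2H23.EL Pool.Agent.TH143.HE
open scoped LinearAlgebra.Projectivization

variable {N : ℕ} {K : Type} [Field K]

/-- the polynomials which vanish on the lines -/
def lineIdeal (I : Ideal (MvPolynomial (Fin (N + 1)) K)) : Ideal (MvPolynomial (Fin (N + 1)) K) where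
  carrier := {G | ∀ (L : Type) [Field L] [NumberField L] [Algebra K L] (p q : Fin (N + 1) → L),
    LinearIndependent L ![p, q] → (∀ s t : L, Zero (algebraMap K L) I (s • p + t • q)) →
      ∀ s t : L, eval₂ (algebraMap K L) (s • p + t • q) G = 0}
  add_mem' := by
    intro G H hG hH L _ _ _ p q h1 h2 s t
    rw [eval₂_add, hG L p q h1 h2 s t, hH L p q h1 h2 s t, add_zero]
  zero_mem' := by
    intro L _ _ _ p q h1 h2 s t
    rw [eval₂_zero]
  smul_mem' := by
    intro c G hG L _ _ _ p q h1 h2 s t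
    rw [smul_eq_mul, eval₂_mul, hG L p q h1 h2 s t, mul_zero]

theorem formsIn_line (I I' : Ideal (MvPolynomial (Fin (N + 1)) K)) :
    FormsIn I' (lineIdeal I) ↔ NoLines I I' := by
  constructor
  · intro h L _ _ _ p q h1 h2 s t G hG hGh
    exact h G hG hGh L p q h1 h2 s t
  · intro h G hG hGh L _ _ _ p q h1 h2 s t
    exact h L p q h1 h2 s t G hG hGh

theorem formsIn_line_self (I : Ideal (MvPolynomial (Fin (N + 1)) K)) :
    FormsIn I (lineIdeal I) :=
  (formsIn_line I I).2 fun _ _ _ _ _ _ _ h => h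

/-- the forms of an ideal, over the complex numbers -/
noncomputable def formsOf (σ : K →+* ℂ) (I : Ideal (MvPolynomial (Fin (N + 1)) K)) :
    {G : MvPolynomial (Fin (N + 1)) K // G ∈ I ∧ ∃ d, G.IsHomogeneous d} →
      MvPolynomial (Fin (N + 1)) ℂ := fun G => map σ G.1

theorem hyperbolic_of_lines {σ : K →+* ℂ} {I I' : Ideal (MvPolynomial (Fin (N + 1)) K)}
    (hS : Pool.Agent.H159R3.GGLLog.SpH ∅ (formsOf σ I) ⊆
      Pool.Agent.W602.GT.SpLine (formsOf σ I)) (h : LinesIn σ I I') :
    Hyperbolic σ I I' := by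
  classical
  rintro f ⟨hf, hX, ⟨z1, z2, hnc⟩, ⟨z0, hout⟩⟩
  obtain ⟨g, hg, hrep⟩ := hol_lift hf
  have hgF : ∀ z e, eval (g z) (formsOf σ I e) = 0 := by
    intro z e
    unfold formsOf
    rw [eval_map]
    exact (mem_pts (hrep z)).1 (hX z) _ e.2.1 e.2.2
  have hcurve : Pool.Agent.H159R3.GGLLog.EntireCurve ∅ (formsOf σ I) g := by
    refine ⟨hg, fun z => ⟨(hrep z).1, fun j hj => absurd hj (Set.notMem_empty j), hgF z⟩, z1, z2,
      fun c hc => hnc ?_⟩
    have hc0 : c ≠ 0 := by
      rintro rfl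
      rw [zero_smul] at hc
      exact (hrep z1).1 hc
    obtain ⟨h1, h2⟩ := hrep z1
    obtain ⟨h3, h4⟩ := hrep z2
    rw [h2, h4, Projectivization.mk_eq_mk_iff']
    exact ⟨c, hc.symm⟩
  apply hout
  rw [mem_pts (hrep z0)]
  intro G hG hGh
  have h1 : g z0 ∈ Pool.Agent.H159R3.GGLLog.SpH ∅ (formsOf σ I) :=
    ⟨hcurve.2.1 z0, fun P _ hP => hP g hcurve z0⟩
  obtain ⟨d, hd⟩ := hGh
  have h2 := (hS h1).2 (map σ G) ⟨d, hd.map σ⟩ fun a b hab c c' => by
    have h3 := h a b hab.1 (fun s t H hH hHh => by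
      have h4 := hab.2 s t ⟨H, hH, hHh⟩
      unfold Pool.Agent.W602.GT.val formsOf at h4
      rw [MvPolynomial.aeval_def, eval₂_map] at h4
      exact h4) c c' G hG ⟨d, hd⟩
    unfold Pool.Agent.W602.GT.val
    rw [MvPolynomial.aeval_def, eval₂_map]
    exact h3
  unfold Pool.Agent.W602.GT.val at h2
  rw [MvPolynomial.aeval_def, eval₂_map] at h2
  exact h2

/-- **Lang's equivalence** for varieties whose entire curves lie in the closure of the lines. -/
theorem lineLang_of [NumberField K] {I : Ideal (MvPolynomial (Fin (N + 1)) K)}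
    (hS : ∀ σ : K →+* ℂ, Pool.Agent.H159R3.GGLLog.SpH ∅ (formsOf σ I) ⊆
      Pool.Agent.W602.GT.SpLine (formsOf σ I)) : LineLang I := by
  refine ⟨lineIdeal _, formsIn_line_self _, fun σ I' => ?_⟩
  obtain ⟨E1, E2, -⟩ := EL.main σ I I'
  have h52 : NoLines I I' → Hyperbolic σ I I' := fun h =>
    hyperbolic_of_lines (hS σ) (linesIn_of_noLines h σ)
  have key : [FormsIn I' (lineIdeal I), Hyperbolic σ I I', NoLines I I', NoRational I I',
      NoGenusOne I I', ShortFinite I I', SumFinite I I', SumSlow I I'].TFAE := by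
    tfae_have 1 ↔ 3 := formsIn_line I I'
    tfae_have 2 → 5 := fun h => (E1.out 0 3).1 fun f _ => h f
    tfae_have 5 → 4 := fun h L _ _ _ => (h L).1
    tfae_have 4 → 6 := short_of_noRational
    tfae_have 6 → 7 := sumFinite_of_short
    tfae_have 7 → 8 := sumSlow_of_finite
    tfae_have 8 → 4 := noRational_of_sumSlow
    tfae_have 4 → 3 := noLines_of_noRational
    tfae_have 3 → 2 := h52
    tfae_finish
  exact ⟨key, fun h => (key.out 2 1).1 (noLines_of_subQuadratic h), subQuadratic_of_finiteness⟩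

end Pool.Agent.T2H23.LG
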