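import Mathlib
import Pool.Agent.T2H23.LG.PClass

/-!
Lang's equivalence for the closed subvarieties of the varieties of the vectors whose powers are values
of polynomials.
-/

set_option autoImplicit false

namespace Pool.Agent.T2H23.LG

open MvPolynomial Filter Set Topology Pool.Agent.T2H23.EL Pool.Agent.TH143.HE
open scoped LinearAlgebra.Projectivization

variable {N : ℕ} {K : Type} [Field K]

theorem rel_form (l : Fin (N + 1) → K) (m : ℕ) :
    (∑ i, C (l i) * X i ^ m : MvPolynomial (Fin (N + 1)) K).IsHomogeneous m := by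
  refine IsHomogeneous.sum _ _ _ fun i _ => ?_
  have h := (isHomogeneous_C (Fin (N + 1)) (l i)).mul ((isHomogeneous_X K i).pow m)
  simpa using h

theorem cone_sub {σ : K →+* ℂ} {a : Fin (N + 1) → K} (ha : Function.Injective a) {n m : ℕ}
    (hn : n ≤ N) {I : Ideal (MvPolynomial (Fin (N + 1)) K)} (hI : powerValues a n m ≤ I) :
    Pool.Agent.W602.GT.Cone (formsOf σ I) ⊆ Pool.Agent.Y190.BV.PowVal (fun i => σ (a i)) n m := by
  classical
  rintro x ⟨hx0, hx⟩
  let _ : Algebra K ℂ := σ.toAlgebra
  have hy : ∀ l : Pool.Agent.Y190.BV.Rel a n,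
      Pool.Agent.W602.GT.val x (Pool.Agent.Y190.BV.buchi a n m l) = 0 := by
    intro l
    have h1 := hx ⟨∑ i, C (l.1 i) * X i ^ m, hI (Ideal.subset_span ⟨l.1, l.2, rfl⟩), m,
      rel_form l.1 m⟩
    unfold Pool.Agent.W602.GT.val formsOf at h1
    rw [MvPolynomial.aeval_def, eval₂_map] at h1
    exact h1
  refine ⟨hx0, Pool.Agent.Y190.BV.intp a hn fun i => x i ^ m,
    Pool.Agent.Y190.BV.intp_natDegree ha hn _, fun i => ?_⟩
  exact (Pool.Agent.Y190.BV.intp_eval ha hn m hy i).symm

theorem cone_eq_powVal {σ : K →+* ℂ} {a : Fin (N + 1) → K} (ha : Function.Injective a) {n m : ℕ}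
    (hn : n ≤ N) :
    Pool.Agent.W602.GT.Cone (formsOf σ (powerValues a n m)) =
      Pool.Agent.Y190.BV.PowVal (fun i => σ (a i)) n m := by
  classical
  refine Set.Subset.antisymm (cone_sub ha hn le_rfl) ?_
  rintro x ⟨hx0, H, hH, hx⟩
  refine ⟨hx0, fun G => ?_⟩
  unfold Pool.Agent.W602.GT.val formsOf
  rw [MvPolynomial.aeval_def, eval₂_map]
  have h1 : powerValues a n m ≤ RingHom.ker (eval₂Hom σ x) := by
    unfold powerValues
    rw [Ideal.span_le]
    rintro _ ⟨l, hl, rfl⟩
    rw [SetLike.mem_coe, RingHom.mem_ker, map_sum]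
    simp only [coe_eval₂Hom, eval₂_mul, eval₂_C, eval₂_pow, eval₂_X]
    calc ∑ i, σ (l i) * x i ^ m = ∑ i, σ (l i) * ∑ j ∈ Finset.range (n + 1),
          H.coeff j * σ (a i) ^ j := by
          refine Finset.sum_congr rfl fun i _ => ?_
          rw [hx i, Polynomial.eval_eq_sum_range' (Nat.lt_succ_of_le hH)]
      _ = ∑ j ∈ Finset.range (n + 1), H.coeff j * σ (∑ i, l i * a i ^ j) := by
          simp only [map_sum, map_mul, map_pow, Finset.mul_sum]
          rw [Finset.sum_comm]
          refine Finset.sum_congr rfl fun j _ => Finset.sum_congr rfl fun i _ => ?_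
          ring
      _ = 0 := by
          refine Finset.sum_eq_zero fun j hj => ?_
          rw [hl j (by rw [Finset.mem_range] at hj; omega), map_zero, mul_zero]
  exact h1 G.2.1

/-- **Lang's equivalence for varieties of power values.** -/
theorem lineLang_powerValues [NumberField K] {n m : ℕ} (hm : 2 ≤ m) (hN : 4 * n ≤ N)
    {a : Fin (N + 1) → K} (ha : Function.Injective a) {I : Ideal (MvPolynomial (Fin (N + 1)) K)}
    (hI : I = powerValues a n m ∨ (n < 2 * m ∧ powerValues a n m ≤ I)) : LineLang I := by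
  refine lineLang_of fun σ => ?_
  have hform : ∀ e, Pool.Agent.W602.GT.IsForm (formsOf σ I e) := fun e => by
    obtain ⟨d, hd⟩ := e.2.2
    exact ⟨d, hd.map σ⟩
  have hinj : Function.Injective fun i => σ (a i) := σ.injective.comp ha
  obtain ⟨h1, -⟩ := Pool.Agent.Y190.SP.special_X (n := n) (m := m) hm (by omega) hinj hform (by
    rcases hI with h | ⟨h, h'⟩
    · left
      rw [h]
      exact cone_eq_powVal ha (by omega)
    · exact Or.inr ⟨h, cone_sub ha (by omega) h'⟩)
  exact h1.subset

end Pool.Agent.T2H23.LG
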