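import Mathlib
import Pool.Agent.T2H23.LG.Germ
import Pool.Agent.T2H23.EL.Main

/-!
Varieties without rational curves have only finitely many points whose coordinates are short sums of
units with coefficients of small height.
-/

set_option autoImplicit false

namespace Pool.Agent.T2H23.LG

open Finset Filter Topology MvPolynomial Height Pool.Agent.T2H23.EL Pool.Agent.TH143.HE
open scoped LinearAlgebra.Projectivization

variable {N : ℕ} {K : Type} [Field K] {I I' : Ideal (MvPolynomial (Fin (N + 1)) K)}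

theorem shortPts_mono {L : Type} [Field L] [NumberField L] {Γ : Subgroup Lˣ} {r : ℕ} {δ δ' : ℝ}
    (h : δ ≤ δ') : (ShortPts Γ r δ : Set (ℙ L (Fin (N + 1) → L))) ⊆ ShortPts Γ r δ' := by
  rintro c ⟨a, u, hu, ha, hc⟩
  exact ⟨a, u, hu, fun j i => (ha j i).trans
    (Real.rpow_le_rpow_of_exponent_le c.one_le_mulHeight h), hc⟩

theorem sumPts_sub {L : Type} [Field L] [NumberField L] {Γ : Subgroup Lˣ} {r : ℕ} {δ : ℝ}
    (h : 0 < δ) : (SumPts Γ r : Set (ℙ L (Fin (N + 1) → L))) ⊆ ShortPts Γ r δ := by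
  classical
  rintro c ⟨u, hu, hc⟩
  have h0 : ∀ j i, ∃ (a : L) (g : Lˣ), g ∈ Γ ∧ mulHeight₁ a ≤ 1 ∧ u j i = a * g := by
    intro j i
    rcases hu j i with h1 | ⟨g, hg, h1⟩
    · exact ⟨0, 1, Γ.one_mem, (mulHeight₁_zero).le, by rw [h1, zero_mul]⟩
    · exact ⟨1, g, hg, (mulHeight₁_one).le, by rw [h1, one_mul]⟩
  choose a g hg ha hag using h0
  refine ⟨a, g, hg, fun j i => (ha j i).trans (Real.one_le_rpow c.one_le_mulHeight h.le), ?_⟩
  simpa only [← hag] using hc

/-- the constants -/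
noncomputable def constG {α : Type} (𝓤 : Ultrafilter α) (L : Type) [Field L] :
    L →+* Germ (𝓤 : Filter α) L :=
  (Germ.coeRingHom (𝓤 : Filter α) (R := L)).comp (Pi.constRingHom α L)

theorem eval_germ {α : Type} (𝓤 : Ultrafilter α) {L : Type} [Field L] (φ : K →+* L)
    (x : Fin (N + 1) → α → L) (H : MvPolynomial (Fin (N + 1)) K) :
    eval₂ ((constG 𝓤 L).comp φ) (fun j => (x j : Germ (𝓤 : Filter α) L)) H =
      ((fun t => eval₂ φ (fun j => x j t) H : α → L) : Germ (𝓤 : Filter α) L) := by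
  have h1 := eval₂_comp_left (Germ.coeRingHom (𝓤 : Filter α) (R := L))
    ((Pi.constRingHom α L).comp φ) x H
  have h2 : (eval₂ ((Pi.constRingHom α L).comp φ) x H : α → L) =
      fun t => eval₂ φ (fun j => x j t) H := by
    funext t
    have h3 := eval₂_comp_left (Pi.evalRingHom (fun _ : α => L) t)
      ((Pi.constRingHom α L).comp φ) x H
    rw [Pi.evalRingHom_apply] at h3
    rw [h3]
    congr 1
  rw [h2] at h1
  exact h1.symm

theorem exists_injSeq {α : Type*} {S : ℕ → Set α} (h : ∀ m, (S m).Infinite) :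
    ∃ c : ℕ → α, Function.Injective c ∧ ∀ m, c m ∈ S m := by
  classical
  have hstep : ∀ (T : Finset α) (m : ℕ), ∃ c ∉ T, c ∈ S m := by
    intro T m
    obtain ⟨c, hc, hcT⟩ := (h m).exists_notMem_finset T
    exact ⟨c, hcT, hc⟩
  choose F hF1 hF2 using hstep
  obtain ⟨G, hG⟩ : ∃ G : ℕ → Finset α, ∀ m, G (m + 1) = insert (F (G m) m) (G m) :=
    ⟨fun m => Nat.rec ∅ (fun m T => insert (F T m) T) m, fun m => rfl⟩
  have hmem : ∀ m n, m < n → F (G m) m ∈ G n := by
    intro m n hmn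
    induction n with
    | zero => omega
    | succ n ih =>
      rw [hG]
      rcases Nat.lt_succ_iff_lt_or_eq.1 hmn with h1 | rfl
      · exact Finset.mem_insert_of_mem (ih h1)
      · exact Finset.mem_insert_self _ _
  refine ⟨fun m => F (G m) m, ?_, fun m => hF2 _ _⟩
  intro m n hmn
  by_contra hne
  rcases Nat.lt_or_gt_of_ne hne with h1 | h1
  · exact hF1 (G n) n (by
      have := hmem m n h1
      rw [show F (G m) m = F (G n) n from hmn] at this
      exact this)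
  · exact hF1 (G m) m (by
      have := hmem n m h1
      rw [← show F (G m) m = F (G n) n from hmn] at this
      exact this)

theorem height_tendsto {L : Type} [Field L] [NumberField L]
    {c : ℕ → ℙ L (Fin (N + 1) → L)} (hinj : Function.Injective c) :
    Tendsto (fun t => (c t).logHeight) (hyperfilter ℕ : Filter ℕ) atTop := by
  refine Tendsto.mono_left ?_ hyperfilter_le_cofinite
  rw [tendsto_atTop]
  intro B
  have h1 : {t | ¬ B ≤ (c t).logHeight}.Finite := by
    refine ((northcott (k := L) (N := N) (Real.exp B)).preimage hinj.injOn).subset ?_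
    intro t ht
    show (c t).mulHeight ≤ Real.exp B
    have h2 : ¬ B ≤ (c t).logHeight := ht
    rw [not_le, Projectivization.logHeight_eq_log_mulHeight] at h2
    exact ((Real.log_lt_iff_lt_exp (c t).mulHeight_pos).1 h2).le
  exact h1.eventually_cofinite_notMem.mono fun t ht => not_not.1 ht

theorem negl_of_short {L : Type} [Field L] [NumberField L] {c : ℕ → ℙ L (Fin (N + 1) → L)}
    {a : ℕ → L}
    (ha : ∀ m : ℕ, mulHeight₁ (a m) ≤ (c m).mulHeight ^ (1 / ((m : ℝ) + 1))) :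
    Negl (hyperfilter ℕ) (fun t => (c t).logHeight) a := by
  intro ε hε
  have h1 : ∀ᶠ m : ℕ in (hyperfilter ℕ : Filter ℕ), 1 / ((m : ℝ) + 1) ≤ ε := by
    refine Filter.Eventually.filter_mono Nat.hyperfilter_le_atTop ?_
    obtain ⟨M, hM⟩ := exists_nat_gt (1 / ε)
    filter_upwards [eventually_ge_atTop M] with m hm
    have h2 : (M : ℝ) ≤ m := by exact_mod_cast hm
    rw [div_le_iff₀ (by positivity)]
    rw [div_lt_iff₀ hε] at hM
    nlinarith
  filter_upwards [h1] with t ht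
  have h2 := ha t
  have h3 : logHeight₁ (a t) ≤ (1 / ((t : ℝ) + 1)) * (c t).logHeight := by
    rw [logHeight₁_eq_log_mulHeight₁]
    simp only [Projectivization.logHeight_eq_log_mulHeight]
    rw [← Real.log_rpow (c t).mulHeight_pos]
    exact Real.log_le_log (mulHeight₁_pos _) h2
  refine h3.trans (mul_le_mul_of_nonneg_right ht ?_)
  exact (c t).logHeight_nonneg

/-- the points of the sequence are not in a family of small height -/
theorem const_contra {L : Type} [Field L] [NumberField L] {c : ℕ → ℙ L (Fin (N + 1) → L)}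
    (hN : Tendsto (fun t => (c t).logHeight) (hyperfilter ℕ : Filter ℕ) atTop)
    {x : Fin (N + 1) → ℕ → L} (hrep : ∀ t, Rep (c t) fun j => x j t)
    {b : Fin (N + 1) → ℕ → L}
    (hbn : ∀ j, Negl (hyperfilter ℕ) (fun t => (c t).logHeight) (b j)) {C : ℕ → L}
    (h1 : ∀ᶠ t in (hyperfilter ℕ : Filter ℕ), ∀ j, x j t = b j t * C t) : False := by
  have h2 : ∀ᶠ t in (hyperfilter ℕ : Filter ℕ),
      ∀ j, logHeight₁ (b j t) ≤ (1 / (2 * ((N : ℝ) + 1))) * (c t).logHeight :=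
    eventually_all.2 fun j => hbn j _ (by positivity)
  obtain ⟨t, h3, h4, h5⟩ := (h1.and (h2.and (hN.eventually_gt_atTop 0))).exists
  have h6 : (c t).logHeight = logHeight fun j => b j t := by
    obtain ⟨h7, h8⟩ := hrep t
    have hC0 : C t ≠ 0 := by
      intro h9
      apply h7
      funext j
      rw [h3 j, h9, mul_zero]
      rfl
    rw [h8, Projectivization.logHeight_mk]
    have h9 : (fun j => x j t) = C t • fun j => b j t := by
      funext j
      rw [Pi.smul_apply, smul_eq_mul, h3 j, mul_comm]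
    rw [h9]
    exact logHeight_smul_eq_logHeight _ hC0
  have h7 := height_prod fun j => b j t
  have h8 : ∑ j : Fin (N + 1), logHeight₁ (b j t) ≤ (1 / 2) * (c t).logHeight := by
    refine (Finset.sum_le_sum fun j _ => h4 j).trans (le_of_eq ?_)
    rw [Finset.sum_const, Finset.card_univ, Fintype.card_fin, nsmul_eq_mul]
    push_cast
    have : ((N : ℝ) + 1) ≠ 0 := by positivity
    field_simp
  have h9 : (c t).logHeight ≤ (1 / 2) * (c t).logHeight := by
    calc (c t).logHeight = logHeight fun j => b j t := h6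
      _ ≤ _ := h7.trans h8
  linarith

/-- a sequence of points outside of `Z` as a germ -/
theorem germ_notMem {L : Type} [Field L] [NumberField L] (φ : K →+* L)
    {c : ℕ → ℙ L (Fin (N + 1) → L)} {x : Fin (N + 1) → ℕ → L}
    (hrep : ∀ t, Rep (c t) fun j => x j t) (hc : ∀ t, c t ∉ Pts φ I') (𝓤 : Ultrafilter ℕ) :
    ∃ H ∈ I', (∃ d, H.IsHomogeneous d) ∧ eval₂ ((constG 𝓤 L).comp φ)
      (fun j => (x j : Germ (𝓤 : Filter ℕ) L)) H ≠ 0 := by
  obtain ⟨T, hT, hgen⟩ := exists_forms I'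
  have h1 : ∀ᶠ t in (𝓤 : Filter ℕ), ∃ H ∈ (T : Set (MvPolynomial (Fin (N + 1)) K)),
      eval₂ φ (fun j => x j t) H ≠ 0 := by
    refine Eventually.of_forall fun t => ?_
    by_contra hcon
    push Not at hcon
    apply hc t
    refine (mem_pts (hrep t)).2 fun H hH hHh => ?_
    have h5 := hgen L ⊥ (eval₂Hom φ fun j => x j t) (fun G hG => by
      rw [coe_eval₂Hom, Ideal.mem_bot]
      exact hcon G hG) H hH hHh
    rwa [coe_eval₂Hom, Ideal.mem_bot] at h5
  rw [Ultrafilter.eventually_exists_mem_iff T.finite_toSet] at h1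
  obtain ⟨H, hHT, h1⟩ := h1
  refine ⟨H, (hT H hHT).1, (hT H hHT).2, ?_⟩
  rw [eval_germ]
  intro h0
  have h2 : ∀ᶠ t in (𝓤 : Filter ℕ), eval₂ φ (fun j => x j t) H = 0 := Germ.coe_eq.1 h0
  obtain ⟨t, h3, h4⟩ := (h1.and h2).exists
  exact h3 h4

theorem germ_mem {L : Type} [Field L] [NumberField L] (φ : K →+* L)
    {c : ℕ → ℙ L (Fin (N + 1) → L)} {x : Fin (N + 1) → ℕ → L}
    (hrep : ∀ t, Rep (c t) fun j => x j t) (hc : ∀ t, c t ∈ Pts φ I) (𝓤 : Ultrafilter ℕ) :
    ∀ H ∈ I, (∃ d, H.IsHomogeneous d) → eval₂ ((constG 𝓤 L).comp φ)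
      (fun j => (x j : Germ (𝓤 : Filter ℕ) L)) H = 0 := by
  rintro H hH hHh
  rw [eval_germ]
  refine Germ.coe_eq.2 (Eventually.of_forall fun t => ?_)
  exact (mem_pts (hrep t)).1 (hc t) H hH hHh

/-- The field of the germs of small height contains the constants. -/
noncomputable def constN {L : Type} [Field L] [NumberField L] (𝓤 : Ultrafilter ℕ) {Nn : ℕ → ℝ}
    (hN : Tendsto Nn 𝓤 atTop) : L →+* negK L 𝓤 Nn hN :=
  RingHom.codRestrict (constG 𝓤 L) _ fun z => ⟨fun _ => z, rfl, Negl.const hN _⟩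

theorem constN_comp {L : Type} [Field L] [NumberField L] (𝓤 : Ultrafilter ℕ) {Nn : ℕ → ℝ}
    (hN : Tendsto Nn 𝓤 atTop) (φ : K →+* L) :
    (algebraMap (negK L 𝓤 Nn hN) (Germ (𝓤 : Filter ℕ) L)).comp ((constN 𝓤 hN).comp φ) =
      (constG 𝓤 L).comp φ := by
  ext z
  rfl

/-- Germs of points given by sums of units with small coefficients give a curve. -/
theorem curve_of_germ {L : Type} [Field L] [NumberField L] (φ : K →+* L) {Γ : Subgroup Lˣ}
    (hΓ : Γ.FG) {r : ℕ} (𝓤 : Ultrafilter ℕ) {Nn : ℕ → ℝ} (hN : Tendsto Nn 𝓤 atTop)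
    (x : Fin (N + 1) → ℕ → L) {a : ℕ → Fin (N + 1) → Fin r → L}
    {u : ℕ → Fin (N + 1) → Fin r → Lˣ} (hu : ∀ t j i, u t j i ∈ Γ)
    (hx : ∀ j t, x j t = ∑ i, a t j i * u t j i)
    (ha : ∀ j i, Negl 𝓤 Nn fun t => a t j i)
    (hI : ∀ H ∈ I, (∃ d, H.IsHomogeneous d) → eval₂ ((constG 𝓤 L).comp φ)
      (fun j => (x j : Germ (𝓤 : Filter ℕ) L)) H = 0)
    (hI' : ∃ H ∈ I', (∃ d, H.IsHomogeneous d) ∧ eval₂ ((constG 𝓤 L).comp φ)
      (fun j => (x j : Germ (𝓤 : Filter ℕ) L)) H ≠ 0)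
    (hcc : ∀ (b : Fin (N + 1) → ℕ → L) (C : ℕ → L), (∀ j, Negl 𝓤 Nn (b j)) →
      ¬ ∀ᶠ t in (𝓤 : Filter ℕ), ∀ j, x j t = b j t * C t) :
    ∃ p, RCur ((constG 𝓤 L).comp φ) I I' p := by
  classical
  have hune : ∀ b : Fin (N + 1) × Fin r,
      ((fun t => (u t b.1 b.2 : L) : ℕ → L) : Germ (𝓤 : Filter ℕ) L) ≠ 0 := by
    intro b h0
    have h1 : ∀ᶠ t in 𝓤, (u t b.1 b.2 : L) = 0 := Germ.coe_eq.1 h0
    obtain ⟨t, ht⟩ := h1.exists
    exact (u t b.1 b.2).ne_zero ht
  obtain ⟨U, hU⟩ : ∃ U : Fin (N + 1) × Fin r → (Germ (𝓤 : Filter ℕ) L)ˣ, ∀ b,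
      (U b : Germ (𝓤 : Filter ℕ) L) = (fun t => (u t b.1 b.2 : L) : ℕ → L) :=
    ⟨fun b => Units.mk0 _ (hune b), fun b => rfl⟩
  have hUG : ∀ b, U b ∈ unitG 𝓤 Γ := fun b => ⟨fun t => u t b.1 b.2, fun t => hu t _ _, hU b⟩
  have hxg : ∀ j, (x j : Germ (𝓤 : Filter ℕ) L) =
      ∑ i, ((fun t => a t j i : ℕ → L) : Germ (𝓤 : Filter ℕ) L) * U (j, i) := by
    intro j
    have h1 := coe_sum Finset.univ 𝓤 (fun (i : Fin r) t => a t j i * (u t j i : L))
    have h2 : x j = fun t => ∑ i, a t j i * (u t j i : L) := funext fun t => hx j t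
    rw [h2, ← h1]
    refine Finset.sum_congr rfl fun i _ => ?_
    rw [hU]
    rfl
  obtain ⟨δ, hδ⟩ : ∃ δ : Fin (N + 1) × Fin r → negK L 𝓤 Nn hN, ∀ b,
      algebraMap (negK L 𝓤 Nn hN) (Germ (𝓤 : Filter ℕ) L) (δ b) =
        ((fun t => a t b.1 b.2 : ℕ → L) : Germ (𝓤 : Filter ℕ) L) :=
    ⟨fun b => ⟨((fun t => a t b.1 b.2 : ℕ → L) : Germ (𝓤 : Filter ℕ) L), _, rfl,
      ha b.1 b.2⟩, fun b => rfl⟩
  have hφ := constN_comp 𝓤 hN φ
  have hmain := Abs.curve_of_sums (ind_negl 𝓤 hN hΓ) (sat_negl 𝓤 hN)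
    (φ := (constN 𝓤 hN).comp φ) (I := I) (I' := I') δ U hUG
    (fun j => (x j : Germ (𝓤 : Filter ℕ) L))
    (fun j => by
      rw [hxg j]
      exact Finset.sum_congr rfl fun i _ => by rw [hδ])
    (by
      rw [hφ]
      exact hI) (by
      rw [hφ]
      exact hI') (by
      intro v C hvC
      have hv : ∀ j, ∃ b : ℕ → L, algebraMap (negK L 𝓤 Nn hN) (Germ (𝓤 : Filter ℕ) L) (v j) =
        (b : Germ (𝓤 : Filter ℕ) L) ∧ Negl 𝓤 Nn b := fun j => (v j).2
      choose b hb hbn using hv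
      obtain ⟨C', rfl⟩ : ∃ C' : ℕ → L, (C' : Germ (𝓤 : Filter ℕ) L) = C :=
        Quotient.exists_rep C
      refine hcc b C' hbn ?_
      rw [eventually_all]
      intro j
      have h2 := hvC j
      rw [hb j] at h2
      exact Germ.coe_eq.1 h2)
  rwa [hφ] at hmain

theorem short_of_noRational (h : NoRational I I') : ShortFinite I I' := by
  classical
  intro L _ _ _ Γ hΓ r
  by_contra hcon
  push Not at hcon
  -- a sequence of points
  obtain ⟨c, hinj, hc⟩ := exists_injSeq (S := fun m : ℕ =>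
    (ShortPts Γ r (1 / ((m : ℝ) + 1)) ∩
      (Pts (algebraMap K L) I \ Pts (algebraMap K L) I') : Set (ℙ L (Fin (N + 1) → L))))
    fun m => hcon (1 / ((m : ℝ) + 1)) (by positivity)
  have hc1 : ∀ m : ℕ, c m ∈ ShortPts Γ r (1 / ((m : ℝ) + 1)) := fun m => (hc m).1
  choose a u hu ha hrep using hc1
  obtain ⟨x, hx⟩ : ∃ x : Fin (N + 1) → ℕ → L, ∀ j t, x j t = ∑ i, a t j i * u t j i :=
    ⟨fun j t => ∑ i, a t j i * u t j i, fun _ _ => rfl⟩
  have hrep' : ∀ t, Rep (c t) fun j => x j t := fun t => by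
    simpa only [hx] using hrep t
  have hN := height_tendsto hinj
  obtain ⟨p, hp⟩ := curve_of_germ (I := I) (I' := I') (algebraMap K L) hΓ (hyperfilter ℕ) hN x hu hx
    (fun j i => negl_of_short fun m => ha m j i)
    (germ_mem (algebraMap K L) hrep' (fun t => (hc t).2.1) _)
    (germ_notMem (algebraMap K L) hrep' (fun t => (hc t).2.2) _)
    (fun b C hb hbC => const_contra hN hrep' hb hbC)
  -- specialisation to a number field
  let _ : Algebra L (Germ ((hyperfilter ℕ : Ultrafilter ℕ) : Filter ℕ) L) :=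
    (constG (hyperfilter ℕ) L).toAlgebra
  obtain ⟨L', _, _, _, p', hp'⟩ := RCur.spec (k := L)
    (E := Germ ((hyperfilter ℕ : Ultrafilter ℕ) : Filter ℕ) L) (algebraMap K L) hp
  have hchar : CharZero L' := charZero_of_injective_algebraMap (algebraMap L L').injective
  have hfin : FiniteDimensional ℚ L' := FiniteDimensional.trans ℚ L L'
  have hnf : NumberField L' := ⟨⟩
  let _ : Algebra K L' := ((algebraMap L L').comp (algebraMap K L)).toAlgebra
  exact noLine_iff.1 (h L') p' hp'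

end Pool.Agent.T2H23.LG
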